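import Mathlib

open MeasureTheory ProbabilityTheory Filter Topology
open scoped ENNReal

set_option linter.unusedSectionVars false

namespace Pool.Agent.Lib.MP_04add8_pr

/-- One step of the Kiefer-Wolfowitz recursion for two servers: from the ordered workload
vector `w = (w₁, w₂)`, service time `s` and interarrival time `t`, the next vector lists
`(w₁ + s - t)⁺` and `(w₂ - t)⁺` in ascending order. -/
noncomputable def kwStep (w : ℝ × ℝ) (s t : ℝ) : ℝ × ℝ :=
  (min (max (w.1 + s - t) 0) (max (w.2 - t) 0), max (max (w.1 + s - t) 0) (max (w.2 - t) 0))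

/-- `π` is a stationary law of the Kiefer-Wolfowitz chain with service law `μ` and
interarrival law `ν`. -/
def IsStationaryKW (μ ν : Measure ℝ) (π : Measure (ℝ × ℝ)) : Prop :=
  IsProbabilityMeasure π ∧
    Measure.map (fun p : (ℝ × ℝ) × (ℝ × ℝ) => kwStep p.1 p.2.1 p.2.2) (π.prod (μ.prod ν)) = π

lemma measurable_kwStep :
    Measurable (fun p : (ℝ × ℝ) × (ℝ × ℝ) => kwStep p.1 p.2.1 p.2.2) := by
  unfold kwStep
  fun_prop

lemma measurable_kwStep_right (w : ℝ × ℝ) :
    Measurable (fun p : ℝ × ℝ => kwStep w p.1 p.2) := by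
  unfold kwStep
  fun_prop

lemma kwStep_fst_nonneg (w : ℝ × ℝ) (s t : ℝ) : 0 ≤ (kwStep w s t).1 :=
  le_min (le_max_right _ _) (le_max_right _ _)

lemma kwStep_fst_le_snd (w : ℝ × ℝ) (s t : ℝ) : (kwStep w s t).1 ≤ (kwStep w s t).2 :=
  min_le_max

section stat

variable {μ ν : Measure ℝ} [IsProbabilityMeasure μ] [IsProbabilityMeasure ν]
  {π : Measure (ℝ × ℝ)}

lemma IsStationaryKW.lintegral (h : IsStationaryKW μ ν π) {f : ℝ × ℝ → ℝ≥0∞}
    (hf : Measurable f) :
    ∫⁻ w, f w ∂π = ∫⁻ w, ∫⁻ p, f (kwStep w p.1 p.2) ∂(μ.prod ν) ∂π := by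
  obtain ⟨hp, hs⟩ := h
  conv_lhs => rw [← hs]
  rw [lintegral_map hf measurable_kwStep]
  exact lintegral_prod _ (hf.comp measurable_kwStep).aemeasurable

lemma IsStationaryKW.ae_ordered (h : IsStationaryKW μ ν π) :
    ∀ᵐ w ∂π, 0 ≤ w.1 ∧ w.1 ≤ w.2 := by
  obtain ⟨hp, hs⟩ := h
  rw [← hs]
  have hm : MeasurableSet {w : ℝ × ℝ | 0 ≤ w.1 ∧ w.1 ≤ w.2} := by
    apply MeasurableSet.inter
    · exact measurableSet_le measurable_const measurable_fst
    · exact measurableSet_le measurable_fst measurable_snd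
  rw [ae_map_iff measurable_kwStep.aemeasurable hm]
  exact Filter.Eventually.of_forall fun p => ⟨kwStep_fst_nonneg _ _ _, kwStep_fst_le_snd _ _ _⟩

/-- Foster-Lyapunov bound for a stationary law, in `ℝ≥0∞`. -/
lemma IsStationaryKW.lyapunov (h : IsStationaryKW μ ν π) {H g : ℝ × ℝ → ℝ≥0∞}
    (hH : Measurable H) (hg : Measurable g) (hfin : ∀ w, H w ≠ ∞) (K : ℝ≥0∞)
    (hd : ∀ w : ℝ × ℝ, 0 ≤ w.1 → w.1 ≤ w.2 →
      ∫⁻ p, H (kwStep w p.1 p.2) ∂(μ.prod ν) + g w ≤ H w + K) :
    ∫⁻ w, g w ∂π ≤ K := by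
  have hp : IsProbabilityMeasure π := h.1
  -- truncated inequality
  have key : ∀ n : ℕ, ∫⁻ w, g w * ({w | H w ≤ n} : Set (ℝ × ℝ)).indicator 1 w ∂π ≤ K := by
    intro n
    have hHn : Measurable (fun w => min (H w) (n : ℝ≥0∞)) := hH.min measurable_const
    have h1 := h.lintegral hHn
    have hfinI : ∫⁻ w, min (H w) (n : ℝ≥0∞) ∂π ≠ ∞ := by
      apply ne_of_lt
      calc ∫⁻ w, min (H w) (n : ℝ≥0∞) ∂π ≤ ∫⁻ _, (n : ℝ≥0∞) ∂π :=
            lintegral_mono fun w => min_le_right _ _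
        _ = n := by simp
        _ < ∞ := ENNReal.natCast_lt_top n
    have hset : MeasurableSet {w | H w ≤ (n : ℝ≥0∞)} := measurableSet_le hH measurable_const
    have h2 : ∫⁻ w, (∫⁻ p, min (H (kwStep w p.1 p.2)) (n : ℝ≥0∞) ∂(μ.prod ν)) ∂π +
        ∫⁻ w, g w * ({w | H w ≤ n} : Set (ℝ × ℝ)).indicator 1 w ∂π
        ≤ ∫⁻ w, min (H w) (n : ℝ≥0∞) ∂π + K := by
      have hmeas2 : Measurable (fun w : ℝ × ℝ =>
          g w * ({w | H w ≤ n} : Set (ℝ × ℝ)).indicator 1 w) :=
        hg.mul (measurable_one.indicator hset)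
      rw [← lintegral_add_right _ hmeas2]
      have : ∫⁻ w, min (H w) (n : ℝ≥0∞) ∂π + K = ∫⁻ w, (min (H w) (n : ℝ≥0∞) + K) ∂π := by
        rw [lintegral_add_right _ measurable_const]
        simp
      rw [this]
      apply lintegral_mono_ae
      filter_upwards [h.ae_ordered] with w hw
      have hw' := hd w hw.1 hw.2
      by_cases hc : H w ≤ n
      · have e1 : ({w | H w ≤ n} : Set (ℝ × ℝ)).indicator (1 : ℝ × ℝ → ℝ≥0∞) w = 1 := by
          rw [Set.indicator_of_mem (by exact hc)]; rfl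
        rw [e1, mul_one, min_eq_left hc]
        refine le_trans ?_ hw'
        gcongr
        exact min_le_left _ _
      · have e1 : ({w | H w ≤ n} : Set (ℝ × ℝ)).indicator (1 : ℝ × ℝ → ℝ≥0∞) w = 0 := by
          rw [Set.indicator_of_notMem (by exact hc)]
        rw [e1, mul_zero, add_zero, min_eq_right (not_le.mp hc).le]
        calc ∫⁻ p, min (H (kwStep w p.1 p.2)) (n : ℝ≥0∞) ∂(μ.prod ν)
            ≤ ∫⁻ _, (n : ℝ≥0∞) ∂(μ.prod ν) := lintegral_mono fun p => min_le_right _ _
          _ = n := by simp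
          _ ≤ n + K := le_self_add
    rw [← h1] at h2
    exact (ENNReal.add_le_add_iff_left hfinI).mp h2
  -- monotone limit
  have hmono : ∫⁻ w, g w ∂π =
      ⨆ n : ℕ, ∫⁻ w, g w * ({w | H w ≤ n} : Set (ℝ × ℝ)).indicator 1 w ∂π := by
    rw [← lintegral_iSup]
    · apply lintegral_congr
      intro w
      apply le_antisymm
      · obtain ⟨n, hn⟩ := ENNReal.exists_nat_gt (hfin w)
        refine le_trans ?_ (le_iSup _ n)
        rw [Set.indicator_of_mem (by exact hn.le)]
        simp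
      · apply iSup_le
        intro n
        by_cases hc : H w ≤ n
        · rw [Set.indicator_of_mem (by exact hc)]; simp
        · rw [Set.indicator_of_notMem (by exact hc)]; simp
    · intro n
      exact hg.mul (measurable_one.indicator (measurableSet_le hH measurable_const))
    · intro n m hnm w
      by_cases hc : H w ≤ n
      · have hc' : H w ≤ m := hc.trans (by exact_mod_cast hnm)
        simp only
        rw [Set.indicator_of_mem (by exact hc), Set.indicator_of_mem (by exact hc')]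
      · simp only
        rw [Set.indicator_of_notMem (by exact hc)]; simp
  rw [hmono]
  exact iSup_le key

end stat

end Pool.Agent.Lib.MP_04add8_pr
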