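import Mathlib
import Pool.Agent.Lib.MP_04add8_pr.Basic

open MeasureTheory ProbabilityTheory Filter Topology
open scoped ENNReal

set_option linter.unusedSectionVars false

namespace Pool.Agent.Lib.MP_04add8_pr

/-- prepend a value to a sequence -/
def consSeq (x : ℝ) (s : ℕ → ℝ) : ℕ → ℝ
  | 0 => x
  | k + 1 => s k

/-- law of an i.i.d. sequence -/
noncomputable def iidLaw (μ : Measure ℝ) [IsProbabilityMeasure μ] : Measure (ℕ → ℝ) :=
  Measure.infinitePi (fun _ : ℕ => μ)

instance (μ : Measure ℝ) [IsProbabilityMeasure μ] : IsProbabilityMeasure (iidLaw μ) := by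
  unfold iidLaw; infer_instance

lemma measurable_consSeq : Measurable (fun p : ℝ × (ℕ → ℝ) => consSeq p.1 p.2) := by
  rw [measurable_pi_iff]
  intro k
  cases k with
  | zero => exact measurable_fst
  | succ k => exact (measurable_pi_apply k).comp measurable_snd

variable {μ ν : Measure ℝ} [IsProbabilityMeasure μ] [IsProbabilityMeasure ν]

lemma iidLaw_cons : ((μ.prod (iidLaw μ)).map (fun p : ℝ × (ℕ → ℝ) => consSeq p.1 p.2)) =
    iidLaw μ := by
  classical
  unfold iidLaw
  apply Measure.eq_infinitePi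
  intro S t ht
  obtain ⟨N, hN⟩ : ∃ N : ℕ, S ⊆ Finset.range (N + 1) :=
    ⟨S.sup id, fun i hi => Finset.mem_range_succ_iff.mpr (Finset.le_sup (f := id) hi)⟩
  set t' : ℕ → Set ℝ := fun i => if i ∈ S then t i else Set.univ with ht'
  have ht'm : ∀ i, MeasurableSet (t' i) := by
    intro i
    simp only [ht']
    split_ifs
    · exact ht i
    · exact MeasurableSet.univ
  have hpi : (Set.pi (S : Set ℕ) t) = Set.pi ((Finset.range (N + 1) : Finset ℕ) : Set ℕ) t' := by
    ext x
    simp only [Set.mem_pi, Finset.mem_coe, ht']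
    constructor
    · intro h i _
      split_ifs with hi
      · exact h i hi
      · trivial
    · intro h i hi
      have := h i (hN hi)
      rwa [if_pos hi] at this
  have hprod : ∏ i ∈ S, μ (t i) = ∏ i ∈ Finset.range (N + 1), μ (t' i) := by
    rw [← Finset.prod_subset hN]
    · apply Finset.prod_congr rfl
      intro i hi
      simp [ht', hi]
    · intro i _ hi
      simp [ht', hi]
  rw [hpi, hprod, Measure.map_apply measurable_consSeq
    (MeasurableSet.pi (Finset.countable_toSet _) fun i _ => ht'm i)]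
  have hpre : (fun p : ℝ × (ℕ → ℝ) => consSeq p.1 p.2) ⁻¹'
      (Set.pi ((Finset.range (N + 1) : Finset ℕ) : Set ℕ) t') =
      (t' 0) ×ˢ (Set.pi ((Finset.range N : Finset ℕ) : Set ℕ) fun k => t' (k + 1)) := by
    ext ⟨x, s⟩
    simp only [Set.mem_preimage, Set.mem_pi, Finset.mem_coe, Finset.mem_range, Set.mem_prod]
    constructor
    · intro h
      refine ⟨h 0 (Nat.succ_pos N), fun k hk => h (k + 1) (by omega)⟩
    · rintro ⟨h0, h1⟩ i hi
      cases i with
      | zero => exact h0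
      | succ k => exact h1 k (by omega)
  rw [hpre, Measure.prod_prod, Measure.infinitePi_pi _ (fun i _ => ht'm (i + 1)),
    Finset.prod_range_succ', mul_comm]

lemma lintegral_iidLaw {f : (ℕ → ℝ) → ℝ≥0∞} (hf : Measurable f) :
    ∫⁻ s, f s ∂(iidLaw μ) = ∫⁻ x, ∫⁻ s, f (consSeq x s) ∂(iidLaw μ) ∂μ := by
  conv_lhs => rw [← iidLaw_cons]
  rw [lintegral_map hf measurable_consSeq]
  exact lintegral_prod _ (hf.comp measurable_consSeq).aemeasurable

/-- the Kiefer-Wolfowitz chain driven by sequences -/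
noncomputable def kwIter (w : ℝ × ℝ) (s t : ℕ → ℝ) : ℕ → ℝ × ℝ
  | 0 => w
  | n + 1 => kwStep (kwIter w s t n) (s n) (t n)

lemma kwIter_succ' (w : ℝ × ℝ) (x y : ℝ) (s t : ℕ → ℝ) (n : ℕ) :
    kwIter w (consSeq x s) (consSeq y t) (n + 1) = kwIter (kwStep w x y) s t n := by
  induction n with
  | zero => rfl
  | succ n ih =>
    rw [kwIter, ih]
    rfl

lemma measurable_kwIter (n : ℕ) :
    Measurable (fun p : (ℝ × ℝ) × ((ℕ → ℝ) × (ℕ → ℝ)) => kwIter p.1 p.2.1 p.2.2 n) := by
  induction n with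
  | zero => exact measurable_fst
  | succ n ih =>
    have h1 : Measurable (fun p : (ℝ × ℝ) × ((ℕ → ℝ) × (ℕ → ℝ)) =>
        (kwIter p.1 p.2.1 p.2.2 n, (p.2.1 n, p.2.2 n))) := by
      refine ih.prodMk ?_
      exact (((measurable_pi_apply n).comp (measurable_fst.comp measurable_snd))).prodMk
        ((measurable_pi_apply n).comp (measurable_snd.comp measurable_snd))
    exact measurable_kwStep.comp h1

/-- `n`-step representation of a stationary law. -/
lemma IsStationaryKW.lintegral_iter {π : Measure (ℝ × ℝ)} (h : IsStationaryKW μ ν π)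
    {f : ℝ × ℝ → ℝ≥0∞} (hf : Measurable f) (n : ℕ) :
    ∫⁻ w, f w ∂π =
      ∫⁻ w, ∫⁻ s, ∫⁻ t, f (kwIter w s t n) ∂(iidLaw ν) ∂(iidLaw μ) ∂π := by
  induction n with
  | zero => simp [kwIter]
  | succ n ih =>
    have hp : IsProbabilityMeasure π := h.1
    have hG : Measurable fun p : (ℝ × ℝ) × ((ℕ → ℝ) × (ℕ → ℝ)) => f (kwIter p.1 p.2.1 p.2.2 n) :=
      hf.comp (measurable_kwIter n)
    have hG' : Measurable fun p : (ℝ × ℝ) × ((ℕ → ℝ) × (ℕ → ℝ)) =>
      f (kwIter p.1 p.2.1 p.2.2 (n + 1)) := hf.comp (measurable_kwIter (n + 1))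
    have hΦ : Measurable fun w : ℝ × ℝ =>
        ∫⁻ s, ∫⁻ t, f (kwIter w s t n) ∂(iidLaw ν) ∂(iidLaw μ) := by
      have h1 : Measurable fun p : (ℝ × ℝ) × (ℕ → ℝ) =>
          ∫⁻ t, f (kwIter p.1 p.2 t n) ∂(iidLaw ν) := by
        apply Measurable.lintegral_prod_right' (f := fun q : ((ℝ × ℝ) × (ℕ → ℝ)) × (ℕ → ℝ) =>
          f (kwIter q.1.1 q.1.2 q.2 n))
        exact hG.comp (by fun_prop :
          Measurable fun q : ((ℝ × ℝ) × (ℕ → ℝ)) × (ℕ → ℝ) => (q.1.1, (q.1.2, q.2)))
      exact Measurable.lintegral_prod_right h1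
    rw [ih, h.lintegral hΦ]
    apply lintegral_congr
    intro w
    -- expand the `n+1` step
    have hA : ∫⁻ s, ∫⁻ t, f (kwIter w s t (n + 1)) ∂(iidLaw ν) ∂(iidLaw μ) =
        ∫⁻ x, ∫⁻ s, ∫⁻ y, ∫⁻ t, f (kwIter (kwStep w x y) s t n) ∂(iidLaw ν) ∂ν ∂(iidLaw μ) ∂μ := by
      rw [lintegral_iidLaw (μ := μ)]
      · apply lintegral_congr; intro x
        apply lintegral_congr; intro s
        rw [lintegral_iidLaw (μ := ν)]
        · apply lintegral_congr; intro y
          apply lintegral_congr; intro t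
          rw [kwIter_succ']
        · exact hG'.comp (by fun_prop : Measurable fun t : ℕ → ℝ => (w, (consSeq x s, t)))
      · apply Measurable.lintegral_prod_right' (f := fun q : (ℕ → ℝ) × (ℕ → ℝ) =>
          f (kwIter w q.1 q.2 (n + 1)))
        exact hG'.comp (by fun_prop : Measurable fun q : (ℕ → ℝ) × (ℕ → ℝ) => (w, q))
    rw [hA]
    rw [lintegral_prod]
    · apply lintegral_congr; intro x
      rw [lintegral_lintegral_swap]
      apply Measurable.aemeasurable
      have hstep : Measurable fun q : (ℝ × (ℕ → ℝ)) × (ℕ → ℝ) =>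
          ((kwStep w x q.1.1, (q.1.2, q.2)) : (ℝ × ℝ) × ((ℕ → ℝ) × (ℕ → ℝ))) := by
        have : Measurable fun q : (ℝ × (ℕ → ℝ)) × (ℕ → ℝ) => kwStep w x q.1.1 := by
          unfold kwStep; fun_prop
        exact this.prodMk (by fun_prop)
      exact Measurable.lintegral_prod_right' (f := fun q : (ℝ × (ℕ → ℝ)) × (ℕ → ℝ) =>
        f (kwIter (kwStep w x q.1.1) q.1.2 q.2 n)) (hG.comp hstep)
    · exact (hΦ.comp (measurable_kwStep_right w)).aemeasurable

end Pool.Agent.Lib.MP_04add8_pr
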