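import Mathlib
import Pool.Agent.Lib.MP_04add8_pr.Basic
import Pool.Agent.Lib.MP_04add8_pr.Noise

open MeasureTheory ProbabilityTheory Filter Topology
open scoped ENNReal

set_option linter.unusedSectionVars false

namespace Pool.Agent.Lib.MP_04add8_pr

/-- partial sums of the interarrival times -/
noncomputable def psum (t : ℕ → ℝ) (n : ℕ) : ℝ := ∑ k ∈ Finset.range n, t k

lemma psum_succ (t : ℕ → ℝ) (n : ℕ) : psum t (n + 1) = psum t n + t n := Finset.sum_range_succ _ _

lemma psum_nonneg {t : ℕ → ℝ} (ht : ∀ k, 0 ≤ t k) (n : ℕ) : 0 ≤ psum t n :=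
  Finset.sum_nonneg fun k _ => ht k

lemma kwIter_ordered {w : ℝ × ℝ} (h0 : 0 ≤ w.1) (h1 : w.1 ≤ w.2) (s t : ℕ → ℝ) (n : ℕ) :
    0 ≤ (kwIter w s t n).1 ∧ (kwIter w s t n).1 ≤ (kwIter w s t n).2 := by
  cases n with
  | zero => exact ⟨h0, h1⟩
  | succ n => exact ⟨kwStep_fst_nonneg _ _ _, kwStep_fst_le_snd _ _ _⟩

/-- the larger workload decreases at most by the elapsed time -/
lemma kwIter_snd_of_init {w : ℝ × ℝ} {s t : ℕ → ℝ} {y : ℝ} (hy : y < w.2) (n : ℕ) :
    y - psum t n < (kwIter w s t n).2 := by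
  induction n with
  | zero => simpa [psum, kwIter] using hy
  | succ n ih =>
    rw [psum_succ]
    have h1 : (kwIter w s t n).2 - t n ≤ (kwIter w s t (n + 1)).2 :=
      (le_max_left _ _).trans (le_max_right _ _)
    linarith

/-- one big job makes the larger workload big -/
lemma kwIter_snd_of_job {w : ℝ × ℝ} {s t : ℕ → ℝ} {y : ℝ} (h0 : 0 ≤ w.1) (h1 : w.1 ≤ w.2)
    (ht : ∀ k, 0 ≤ t k) (n : ℕ) (h : ∃ i < n, y < s i) :
    y - psum t n < (kwIter w s t n).2 := by
  induction n with
  | zero => obtain ⟨i, hi, -⟩ := h; omega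
  | succ n ih =>
    rw [psum_succ]
    obtain ⟨i, hi, hiy⟩ := h
    rcases Nat.lt_succ_iff_lt_or_eq.mp hi with h' | h'
    · have h2 : (kwIter w s t n).2 - t n ≤ (kwIter w s t (n + 1)).2 :=
        (le_max_left _ _).trans (le_max_right _ _)
      have := ih ⟨i, h', hiy⟩
      linarith
    · subst h'
      have h2 : (kwIter w s t i).1 + s i - t i ≤ (kwIter w s t (i + 1)).2 :=
        (le_max_left _ _).trans (le_max_left _ _)
      have h3 := (kwIter_ordered h0 h1 s t i).1
      have h4 := psum_nonneg ht i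
      linarith

/-- both servers blocked -/
lemma kwIter_fst_of_job {w : ℝ × ℝ} {s t : ℕ → ℝ} {y : ℝ} (h0 : 0 ≤ w.1) (h1 : w.1 ≤ w.2)
    (hs : ∀ k, 0 ≤ s k) (ht : ∀ k, 0 ≤ t k) (hy : y < w.2) (n : ℕ) (h : ∃ i < n, y < s i) :
    y - psum t n < (kwIter w s t n).1 := by
  induction n with
  | zero => obtain ⟨i, hi, -⟩ := h; omega
  | succ n ih =>
    have h5 := kwIter_snd_of_init (s := s) (t := t) hy n
    rw [psum_succ]
    obtain ⟨i, hi, hiy⟩ := h
    have hb : y - (psum t n + t n) < (kwIter w s t n).2 - t n := by linarith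
    have ha : y - (psum t n + t n) < (kwIter w s t n).1 + s n - t n := by
      rcases Nat.lt_succ_iff_lt_or_eq.mp hi with h' | h'
      · have := ih ⟨i, h', hiy⟩
        have := hs n
        linarith
      · subst h'
        have h3 := (kwIter_ordered h0 h1 s t i).1
        have h4 := psum_nonneg ht i
        linarith
    exact lt_min (ha.trans_le (le_max_left _ _)) (hb.trans_le (le_max_left _ _))

/-- one server blocked: the other one is overloaded -/
lemma kwIter_fst_overload {w : ℝ × ℝ} {s t : ℕ → ℝ} {y : ℝ} (h0 : 0 ≤ w.1)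
    (hs : ∀ k, 0 ≤ s k) (hy : y < w.2) (n : ℕ) :
    min (psum s n - psum t n) (y - psum t n) ≤ (kwIter w s t n).1 := by
  induction n with
  | zero => exact (min_le_left _ _).trans (by simpa [psum, kwIter] using h0)
  | succ n ih =>
    have h5 := kwIter_snd_of_init (s := s) (t := t) hy n
    rw [psum_succ, psum_succ]
    have hsn := hs n
    have hb : y - (psum t n + t n) ≤ (kwIter w s t n).2 - t n := by linarith
    have ha : min (psum s n + s n - (psum t n + t n)) (y - (psum t n + t n)) ≤
        (kwIter w s t n).1 + s n - t n := by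
      rcases min_le_iff.mp ih with h | h
      · exact (min_le_left _ _).trans (by linarith)
      · exact (min_le_right _ _).trans (by linarith)
    apply le_min
    · exact ha.trans (le_max_left _ _)
    · exact (min_le_right _ _).trans (hb.trans (le_max_left _ _))

variable {μ ν : Measure ℝ} [IsProbabilityMeasure μ] [IsProbabilityMeasure ν]

lemma ae_iid {p : ℝ → Prop} (h : ∀ᵐ x ∂μ, p x) : ∀ᵐ s ∂(iidLaw μ), ∀ k, p (s k) := by
  rw [ae_all_iff]
  intro k
  exact (measurePreserving_eval_infinitePi (fun _ : ℕ => μ) k).quasiMeasurePreserving.ae h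

/-- transfer of lower bounds through `n` steps -/
lemma IsStationaryKW.transfer {π : Measure (ℝ × ℝ)} (h : IsStationaryKW μ ν π)
    (hμ : ∀ᵐ x ∂μ, 0 ≤ x) (hν : ∀ᵐ x ∂ν, 0 ≤ x)
    {A B : Set (ℝ × ℝ)} (hA : MeasurableSet A) (hB : MeasurableSet B)
    {Es Et : Set (ℕ → ℝ)} (hEs : MeasurableSet Es) (hEt : MeasurableSet Et) (n : ℕ)
    (hpath : ∀ w ∈ A, 0 ≤ w.1 → w.1 ≤ w.2 → ∀ s ∈ Es, (∀ k, 0 ≤ s k) → ∀ t ∈ Et,
      (∀ k, 0 ≤ t k) → kwIter w s t n ∈ B) :
    π A * (iidLaw μ Es * iidLaw ν Et) ≤ π B := by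
  have hp : IsProbabilityMeasure π := h.1
  have h1 := h.lintegral_iter (f := B.indicator 1) (measurable_one.indicator hB) n
  rw [lintegral_indicator_one hB] at h1
  rw [h1]
  calc π A * (iidLaw μ Es * iidLaw ν Et)
      = ∫⁻ w, A.indicator 1 w * (iidLaw μ Es * iidLaw ν Et) ∂π := by
        rw [lintegral_mul_const _ (measurable_one.indicator hA), lintegral_indicator_one hA]
    _ ≤ _ := by
        apply lintegral_mono_ae
        filter_upwards [h.ae_ordered] with w hw
        by_cases hwA : w ∈ A
        · rw [Set.indicator_of_mem hwA, Pi.one_apply, one_mul]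
          calc iidLaw μ Es * iidLaw ν Et
              = ∫⁻ s, Es.indicator 1 s * iidLaw ν Et ∂(iidLaw μ) := by
                rw [lintegral_mul_const _ (measurable_one.indicator hEs),
                  lintegral_indicator_one hEs]
            _ ≤ _ := by
                apply lintegral_mono_ae
                filter_upwards [ae_iid hμ] with s hs
                by_cases hsE : s ∈ Es
                · rw [Set.indicator_of_mem hsE, Pi.one_apply, one_mul,
                    ← lintegral_indicator_one hEt]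
                  apply lintegral_mono_ae
                  filter_upwards [ae_iid hν] with t ht
                  by_cases htE : t ∈ Et
                  · rw [Set.indicator_of_mem htE,
                      Set.indicator_of_mem (hpath w hwA hw.1 hw.2 s hsE hs t htE ht)]
                    rfl
                  · rw [Set.indicator_of_notMem htE]; exact zero_le
                · rw [Set.indicator_of_notMem hsE, zero_mul]; exact zero_le
        · rw [Set.indicator_of_notMem hwA, zero_mul]; exact zero_le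

lemma measurable_psum (n : ℕ) : Measurable (fun t : ℕ → ℝ => psum t n) := by
  unfold psum
  fun_prop

lemma integrable_eval (hνi : Integrable (fun t : ℝ => t) ν) (k : ℕ) :
    Integrable (fun t : ℕ → ℝ => t k) (iidLaw ν) := by
  have := (measurePreserving_eval_infinitePi (fun _ : ℕ => ν) k)
  exact this.integrable_comp_of_integrable (g := fun x : ℝ => x) hνi

lemma integral_eval (k : ℕ) :
    ∫ t : ℕ → ℝ, t k ∂(iidLaw ν) = ∫ x, x ∂ν := by
  have h := (measurePreserving_eval_infinitePi (fun _ : ℕ => ν) k)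
  have h2 : (iidLaw ν).map (Function.eval k) = ν := h.map_eq
  conv_rhs => rw [← h2]
  rw [integral_map (by exact (measurable_pi_apply k).aemeasurable) (by fun_prop)]

lemma integrable_psum (hνi : Integrable (fun t : ℝ => t) ν) (n : ℕ) :
    Integrable (fun t : ℕ → ℝ => psum t n) (iidLaw ν) :=
  integrable_finsetSum _ fun k _ => integrable_eval hνi k

lemma integral_psum (hνi : Integrable (fun t : ℝ => t) ν) (n : ℕ) :
    ∫ t, psum t n ∂(iidLaw ν) = n * ∫ x, x ∂ν := by
  unfold psum
  rw [integral_finsetSum _ fun k _ => integrable_eval hνi k]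
  simp [integral_eval]

/-- Markov: total interarrival time is at most twice the mean with probability at least 1/2 -/
lemma psum_le_two_mul (hν : ∀ᵐ x ∂ν, 0 ≤ x) (hνi : Integrable (fun t : ℝ => t) ν)
    (hm : 0 < ∫ x, x ∂ν) {n : ℕ} (hn : 0 < n) :
    (1 / 2 : ℝ) ≤ (iidLaw ν).real {t | psum t n ≤ n * (2 * ∫ x, x ∂ν)} := by
  set m := ∫ x, x ∂ν
  have hn' : (0 : ℝ) < n := by exact_mod_cast hn
  have h1 := mul_meas_ge_le_integral_of_nonneg (μ := iidLaw ν) (f := fun t => psum t n)
    (by filter_upwards [ae_iid hν] with t ht using psum_nonneg ht n)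
    (integrable_psum hνi n) (n * (2 * m))
  rw [integral_psum hνi] at h1
  have h2 : (iidLaw ν).real {t | n * (2 * m) ≤ psum t n} ≤ 1 / 2 := by
    have h3 : (0 : ℝ) < n * m := by positivity
    have h4 : (n * (2 * m)) * (iidLaw ν).real {t | n * (2 * m) ≤ psum t n} ≤ n * m := h1
    nlinarith
  have hcompl : (iidLaw ν).real {t | psum t n ≤ n * (2 * m)}ᶜ ≤ 1 / 2 := by
    refine le_trans (measureReal_mono ?_) h2
    intro t ht
    simp only [Set.mem_compl_iff, Set.mem_ofPred_eq, not_le] at ht ⊢
    exact ht.le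
  have hmeas : MeasurableSet {t : ℕ → ℝ | psum t n ≤ n * (2 * m)} :=
    measurableSet_le (measurable_psum n) measurable_const
  have := probReal_add_probReal_compl (μ := iidLaw ν) hmeas
  linarith

/-- probability of at least one big job among `n` -/
lemma exists_job (μ : Measure ℝ) [IsProbabilityMeasure μ] (y : ℝ) (n : ℕ) :
    MeasurableSet {s : ℕ → ℝ | ∃ i < n, y < s i} ∧
    (iidLaw μ).real {s | ∃ i < n, y < s i} = 1 - (1 - μ.real (Set.Ioi y)) ^ n := by
  have hc : {s : ℕ → ℝ | ∃ i < n, y < s i}ᶜ =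
      Set.pi ((Finset.range n : Finset ℕ) : Set ℕ) fun _ => Set.Iic y := by
    ext s
    simp
  have hpm : MeasurableSet (Set.pi ((Finset.range n : Finset ℕ) : Set ℕ)
      fun _ : ℕ => Set.Iic y) :=
    MeasurableSet.pi (Finset.countable_toSet _) fun i _ => measurableSet_Iic
  have hm : MeasurableSet {s : ℕ → ℝ | ∃ i < n, y < s i} := by
    rw [← MeasurableSet.compl_iff, hc]; exact hpm
  refine ⟨hm, ?_⟩
  have h1 := probReal_add_probReal_compl (μ := iidLaw μ) hm
  have h2 : (iidLaw μ).real {s : ℕ → ℝ | ∃ i < n, y < s i}ᶜ = (1 - μ.real (Set.Ioi y)) ^ n := by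
    rw [hc, measureReal_def, iidLaw, Measure.infinitePi_pi _ (fun i _ => measurableSet_Iic)]
    simp only [Finset.prod_const, Finset.card_range, ENNReal.toReal_pow]
    congr 1
    have h3 := probReal_add_probReal_compl (μ := μ) (s := Set.Ioi y) measurableSet_Ioi
    rw [Set.compl_Ioi] at h3
    rw [← measureReal_def]
    linarith
  linarith

end Pool.Agent.Lib.MP_04add8_pr
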