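import Mathlib
import Pool.Agent.Lib.MP_04add8_pr.Lower

open MeasureTheory ProbabilityTheory Filter Topology
open scoped ENNReal

set_option linter.unusedSectionVars false

namespace Pool.Agent.Lib.MP_04add8_pr

variable {μ : Measure ℝ} [IsProbabilityMeasure μ]

lemma identDistrib_eval (i : ℕ) :
    IdentDistrib (fun s : ℕ → ℝ => s i) (fun s : ℕ → ℝ => s 0) (iidLaw μ) (iidLaw μ) := by
  refine ⟨(measurable_pi_apply i).aemeasurable, (measurable_pi_apply 0).aemeasurable, ?_⟩
  have h1 := (measurePreserving_eval_infinitePi (fun _ : ℕ => μ) i).map_eq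
  have h2 := (measurePreserving_eval_infinitePi (fun _ : ℕ => μ) 0).map_eq
  exact h1.trans h2.symm

lemma iIndepFun_eval : iIndepFun (fun (i : ℕ) (s : ℕ → ℝ) => s i) (iidLaw μ) :=
  iIndepFun_infinitePi (P := fun _ : ℕ => μ) (X := fun _ => fun x : ℝ => x)
    (fun _ => measurable_id)

lemma gaussian_Ioi_pos {v : NNReal} (hv : v ≠ 0) (κ : ℝ) :
    0 < gaussianReal 0 v (Set.Ioi κ) := by
  rw [pos_iff_ne_zero]
  intro h
  have h2 := gaussianReal_absolutelyContinuous' 0 hv h
  simp at h2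

/-- Central limit lower bound: the sum of `n` i.i.d. service times exceeds its mean by `κ √n`
with probability bounded below. -/
lemma clt_lower (hL2 : MemLp (fun x : ℝ => x) 2 μ) (hvar : Var[fun x : ℝ => x; μ] ≠ 0) (κ : ℝ) :
    ∃ c0 : ℝ, 0 < c0 ∧ ∃ N0 : ℕ, ∀ n ≥ N0,
      c0 ≤ (iidLaw μ).real {s | n * (∫ x, x ∂μ) + κ * √n < psum s n} := by
  set X : ℕ → (ℕ → ℝ) → ℝ := fun i s => s i with hX
  have hmp := (measurePreserving_eval_infinitePi (fun _ : ℕ => μ) 0)
  have hL2' : MemLp (X 0) 2 (iidLaw μ) := by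
    have := hL2.comp_measurePreserving hmp
    exact this
  have hvar' : Var[X 0; iidLaw μ] = Var[fun x : ℝ => x; μ] := by
    have h1 : IdentDistrib (X 0) (fun x : ℝ => x) (iidLaw μ) μ := by
      refine ⟨(measurable_pi_apply 0).aemeasurable, measurable_id.aemeasurable, ?_⟩
      have := hmp.map_eq
      refine (Eq.trans this ?_)
      exact Measure.map_id.symm
    exact h1.variance_eq
  have hmean : ∫ s, X 0 s ∂(iidLaw μ) = ∫ x, x ∂μ := integral_eval 0
  have hv : Var[X 0; iidLaw μ].toNNReal ≠ 0 := by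
    rw [hvar']
    have h0 : 0 ≤ Var[fun x : ℝ => x; μ] := variance_nonneg _ _
    have : 0 < Var[fun x : ℝ => x; μ] := lt_of_le_of_ne h0 hvar.symm
    exact (Real.toNNReal_pos.mpr this).ne'
  have hclt := tendstoInDistribution_inv_sqrt_mul_sum_sub (P := iidLaw μ) (X := X)
    (Y := fun x : ℝ => x) (P' := gaussianReal 0 Var[X 0; iidLaw μ].toNNReal)
    (by exact ⟨by fun_prop, Measure.map_id⟩) hL2' iIndepFun_eval identDistrib_eval
  have h1 := ProbabilityMeasure.le_liminf_measure_open_of_tendsto hclt.tendsto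
    (isOpen_Ioi (a := κ))
  have h2 : 0 < gaussianReal 0 Var[X 0; iidLaw μ].toNNReal (Set.Ioi κ) := gaussian_Ioi_pos hv κ
  have h3 : (Measure.map (fun x : ℝ => x) (gaussianReal 0 Var[X 0; iidLaw μ].toNNReal))
      (Set.Ioi κ) = gaussianReal 0 Var[X 0; iidLaw μ].toNNReal (Set.Ioi κ) := by
    rw [show (fun x : ℝ => x) = id from rfl, Measure.map_id]
  obtain ⟨c, hc0, hc1⟩ := ENNReal.lt_iff_exists_nnreal_btwn.mp h2
  have hc0' : 0 < c := by exact_mod_cast hc0
  have hev := eventually_lt_of_lt_liminf (lt_of_lt_of_le (lt_of_lt_of_eq hc1 h3.symm) h1)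
  obtain ⟨N0, hN0⟩ := eventually_atTop.mp hev
  refine ⟨c, by exact_mod_cast hc0', max N0 1, ?_⟩
  intro n hn
  have hnN : N0 ≤ n := (le_max_left _ _).trans hn
  have hn1 : 1 ≤ n := (le_max_right _ _).trans hn
  have h4 := hN0 n hnN
  have h5 : (c : ℝ≥0∞) < (iidLaw μ) {s | n * (∫ x, x ∂μ) + κ * √n < psum s n} := by
    refine lt_of_lt_of_le h4 ?_
    change (Measure.map _ _) _ ≤ _
    rw [Measure.map_apply_of_aemeasurable (hclt.forall_aemeasurable n) measurableSet_Ioi]
    apply measure_mono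
    intro s hs
    have hs' : κ < (√(n : ℝ))⁻¹ * (∑ k ∈ Finset.range n, X k s - n * ∫ s, X 0 s ∂(iidLaw μ)) := hs
    rw [hmean] at hs'
    have hsq : 0 < √(n : ℝ) := by
      apply Real.sqrt_pos.mpr
      exact_mod_cast hn1
    change n * (∫ x, x ∂μ) + κ * √n < psum s n
    rw [inv_mul_eq_div, lt_div_iff₀ hsq] at hs'
    have : psum s n = ∑ k ∈ Finset.range n, X k s := rfl
    rw [this]
    linarith
  have h6 := ENNReal.toReal_mono (measure_ne_top _ _) h5.le
  simpa [measureReal_def] using h6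

end Pool.Agent.Lib.MP_04add8_pr
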