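import Mathlib

open MeasureTheory ProbabilityTheory Filter Topology
open scoped ENNReal

set_option linter.unusedSectionVars false

namespace Pool.Agent.Lib.MP_04add8_pr

/-- tangent line bound for a concave power -/
lemma rpow_add_le_tangent {a x y : ℝ} (ha0 : 0 < a) (ha1 : a < 1) (hx : 0 < x) (hy : -x ≤ y) :
    (x + y) ^ a ≤ x ^ a + a * x ^ (a - 1) * y := by
  have h1 : -1 ≤ y / x := by rw [le_div_iff₀ hx]; linarith
  have h2 := rpow_one_add_le_one_add_mul_self h1 ha0.le ha1.le
  have h3 : x + y = x * (1 + y / x) := by field_simp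
  have h4 : (0 : ℝ) ≤ 1 + y / x := by linarith
  rw [h3, Real.mul_rpow hx.le h4]
  calc x ^ a * (1 + y / x) ^ a ≤ x ^ a * (1 + a * (y / x)) := by gcongr
    _ = x ^ a + a * x ^ (a - 1) * y := by
      rw [Real.rpow_sub_one hx.ne']
      ring

lemma rpow_add_le_add {a x y : ℝ} (ha0 : 0 < a) (ha1 : a < 1) (hx : 0 ≤ x) (hy : 0 ≤ y) :
    (x + y) ^ a ≤ x ^ a + y ^ a := by
  have := NNReal.rpow_add_le_add_rpow ⟨x, hx⟩ ⟨y, hy⟩ ha0.le ha1.le
  exact_mod_cast this

/-- polynomial versus exponential -/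
lemma rpow_le_exp {p c u : ℝ} (hp : 0 < p) (hc : 0 < c) (hu : 0 ≤ u) :
    u ^ p ≤ (p / c) ^ p * Real.exp (c * u) := by
  have h1 : c * u / p ≤ Real.exp (c * u / p) := by
    have := Real.add_one_le_exp (c * u / p)
    linarith
  have h0 : 0 ≤ c * u / p := by positivity
  have h2 : (c * u / p) ^ p ≤ (Real.exp (c * u / p)) ^ p := by gcongr
  have h3 : (Real.exp (c * u / p)) ^ p = Real.exp (c * u) := by
    rw [← Real.exp_mul]; congr 1; field_simp
  have h4 : u = (p / c) * (c * u / p) := by field_simp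
  calc u ^ p = ((p / c) * (c * u / p)) ^ p := by rw [← h4]
    _ = (p / c) ^ p * (c * u / p) ^ p := Real.mul_rpow (by positivity) h0
    _ ≤ (p / c) ^ p * Real.exp (c * u) := by
      rw [← h3]; gcongr

section weib

variable {a : ℝ} {μ : Measure ℝ} [IsProbabilityMeasure μ]

lemma weibull_ae_pos (ha : 0 < a)
    (hμ : ∀ x, 0 ≤ x → μ (Set.Ioi x) = ENNReal.ofReal (Real.exp (-(x ^ a)))) :
    ∀ᵐ s ∂μ, 0 < s := by
  have h := hμ 0 le_rfl
  rw [Real.zero_rpow ha.ne', neg_zero, Real.exp_zero, ENNReal.ofReal_one] at h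
  have : μ (Set.Ioi 0)ᶜ = 0 := by
    rw [prob_compl_eq_zero_iff measurableSet_Ioi]; exact h
  exact this

/-- exponential moments of `s ^ a` -/
lemma weibull_lintegral_exp (ha : 0 < a)
    (hμ : ∀ x, 0 ≤ x → μ (Set.Ioi x) = ENNReal.ofReal (Real.exp (-(x ^ a))))
    {c : ℝ} (hc0 : 0 ≤ c) (hc1 : c < 1) :
    ∫⁻ s, ENNReal.ofReal (Real.exp (c * s ^ a)) ∂μ ≤ ENNReal.ofReal (1 / (1 - c)) := by
  have hpos := weibull_ae_pos ha hμ
  have hf : Measurable (fun s : ℝ => s ^ a) := by fun_prop
  have hlc := lintegral_comp_eq_lintegral_meas_lt_mul μ (f := fun s : ℝ => s ^ a)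
    (g := fun t => c * Real.exp (c * t))
    (by filter_upwards [hpos] with s hs; positivity) hf.aemeasurable
    (by intro t ht; exact (by fun_prop : Continuous fun t => c * Real.exp (c * t)).intervalIntegrable _ _)
    (by filter_upwards with t; positivity)
  have hint : ∀ u : ℝ, ∫ t in (0 : ℝ)..u, c * Real.exp (c * t) = Real.exp (c * u) - 1 := by
    intro u
    have : ∀ x ∈ Set.uIcc 0 u, HasDerivAt (fun t => Real.exp (c * t)) (c * Real.exp (c * x)) x := by
      intro x _
      have := ((hasDerivAt_id x).const_mul c).exp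
      simpa [mul_comm] using this
    rw [intervalIntegral.integral_eq_sub_of_hasDerivAt this
      ((by fun_prop : Continuous fun t => c * Real.exp (c * t)).intervalIntegrable _ _)]
    simp
  simp only [hint] at hlc
  have hR : ∫⁻ t in Set.Ioi (0 : ℝ), μ {s : ℝ | t < s ^ a} * ENNReal.ofReal (c * Real.exp (c * t))
      ≤ ENNReal.ofReal (c / (1 - c)) := by
    have h1 : ∫⁻ t in Set.Ioi (0 : ℝ), μ {s : ℝ | t < s ^ a} * ENNReal.ofReal (c * Real.exp (c * t))
        = ∫⁻ t in Set.Ioi (0 : ℝ), ENNReal.ofReal (c * Real.exp (-((1 - c) * t))) := by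
      apply setLIntegral_congr_fun measurableSet_Ioi
      intro t ht
      have ht' : (0 : ℝ) < t := ht
      have hset : μ {s : ℝ | t < s ^ a} = μ (Set.Ioi (t ^ (1 / a))) := by
        apply measure_congr
        filter_upwards [hpos] with s hs
        apply propext
        change t < s ^ a ↔ t ^ (1 / a) < s
        have : s = (s ^ a) ^ (1 / a) := by
          rw [← Real.rpow_mul hs.le, mul_one_div_cancel ha.ne', Real.rpow_one]
        conv_rhs => rw [this]
        rw [Real.rpow_lt_rpow_iff ht'.le (by positivity) (by positivity)]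
      simp only
      rw [hset, hμ _ (by positivity), ← Real.rpow_mul ht'.le, one_div_mul_cancel ha.ne',
        Real.rpow_one, ← ENNReal.ofReal_mul (Real.exp_pos _).le]
      congr 1
      rw [mul_left_comm, ← Real.exp_add]
      congr 2
      ring
    rw [h1]
    have h2 : ∫ t in Set.Ioi (0 : ℝ), c * Real.exp (-((1 - c) * t)) = c / (1 - c) := by
      rw [integral_const_mul]
      have : ∫ t in Set.Ioi (0 : ℝ), Real.exp (-((1 - c) * t)) = 1 / (1 - c) := by
        have := integral_exp_mul_Ioi (a := -(1 - c)) (by linarith) 0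
        simp only [neg_mul] at this
        rw [this]
        simp
        rw [neg_div, ← div_neg]
        ring_nf
      rw [this]; ring
    rw [← h2, ofReal_integral_eq_lintegral_ofReal]
    · apply Integrable.const_mul
      have := exp_neg_integrableOn_Ioi (b := 1 - c) 0 (by linarith)
      have h3 : (fun t : ℝ => Real.exp (-((1 - c) * t))) = fun t => Real.exp (-(1 - c) * t) := by
        funext t; congr 1; ring
      rw [h3]
      exact this
    · filter_upwards with t
      positivity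
  have hsplit : ∫⁻ s, ENNReal.ofReal (Real.exp (c * s ^ a)) ∂μ ≤
      ∫⁻ s, (ENNReal.ofReal (Real.exp (c * s ^ a) - 1) + 1) ∂μ := by
    apply lintegral_mono
    intro s
    simp only
    calc ENNReal.ofReal (Real.exp (c * s ^ a))
        = ENNReal.ofReal ((Real.exp (c * s ^ a) - 1) + 1) := by ring_nf
      _ ≤ ENNReal.ofReal (Real.exp (c * s ^ a) - 1) + ENNReal.ofReal 1 := ENNReal.ofReal_add_le
      _ = _ := by simp
  calc ∫⁻ s, ENNReal.ofReal (Real.exp (c * s ^ a)) ∂μ
      ≤ ∫⁻ s, (ENNReal.ofReal (Real.exp (c * s ^ a) - 1) + 1) ∂μ := hsplit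
    _ = ∫⁻ s, ENNReal.ofReal (Real.exp (c * s ^ a) - 1) ∂μ + 1 := by
        rw [lintegral_add_right _ measurable_const]; simp
    _ ≤ ENNReal.ofReal (c / (1 - c)) + ENNReal.ofReal 1 := by
        rw [hlc]; gcongr; simp
    _ = ENNReal.ofReal (1 / (1 - c)) := by
        rw [← ENNReal.ofReal_add (div_nonneg hc0 (by linarith)) zero_le_one]
        congr 1
        have : (1 - c) ≠ 0 := by linarith
        field_simp
        ring

lemma weibull_integrable_exp (ha : 0 < a)
    (hμ : ∀ x, 0 ≤ x → μ (Set.Ioi x) = ENNReal.ofReal (Real.exp (-(x ^ a))))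
    {c : ℝ} (hc0 : 0 ≤ c) (hc1 : c < 1) :
    Integrable (fun s : ℝ => Real.exp (c * s ^ a)) μ := by
  refine ⟨by fun_prop, ?_⟩
  rw [hasFiniteIntegral_iff_ofReal (by filter_upwards with s; positivity)]
  exact lt_of_le_of_lt (weibull_lintegral_exp ha hμ hc0 hc1) ENNReal.ofReal_lt_top

lemma weibull_integral_exp_le (ha : 0 < a)
    (hμ : ∀ x, 0 ≤ x → μ (Set.Ioi x) = ENNReal.ofReal (Real.exp (-(x ^ a))))
    {c : ℝ} (hc0 : 0 ≤ c) (hc1 : c < 1) :
    ∫ s, Real.exp (c * s ^ a) ∂μ ≤ 1 / (1 - c) := by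
  rw [integral_eq_lintegral_of_nonneg_ae (by filter_upwards with s; positivity) (by fun_prop)]
  apply ENNReal.toReal_le_of_le_ofReal (by apply one_div_nonneg.mpr; linarith)
  exact weibull_lintegral_exp ha hμ hc0 hc1

lemma weibull_integrable_pow (ha : 0 < a)
    (hμ : ∀ x, 0 ≤ x → μ (Set.Ioi x) = ENNReal.ofReal (Real.exp (-(x ^ a)))) (k : ℕ) (hk : 0 < k) :
    Integrable (fun s : ℝ => s ^ k) μ := by
  have hkR : (0 : ℝ) < k := by exact_mod_cast hk
  have hpa : 0 < (k : ℝ) / a := by positivity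
  apply Integrable.mono' (g := fun s => ((k / a) / (1 / 2)) ^ ((k : ℝ) / a) *
    Real.exp ((1 / 2) * s ^ a))
  · apply Integrable.const_mul
    exact weibull_integrable_exp ha hμ (by norm_num) (by norm_num)
  · fun_prop
  · filter_upwards [weibull_ae_pos ha hμ] with s hs
    rw [Real.norm_of_nonneg (by positivity)]
    have h1 := rpow_le_exp (p := (k : ℝ) / a) (c := 1 / 2) (u := s ^ a) hpa (by norm_num)
      (by positivity)
    have h2 : (s ^ a) ^ ((k : ℝ) / a) = s ^ k := by
      rw [← Real.rpow_mul hs.le, mul_div_cancel₀ _ ha.ne', Real.rpow_natCast]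
    rw [h2] at h1
    exact h1

end weib

end Pool.Agent.Lib.MP_04add8_pr
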