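import Mathlib
import Pool.Agent.Lib.MP_04add8_pr.Weibull

open MeasureTheory ProbabilityTheory Filter Topology
open scoped ENNReal

set_option linter.unusedSectionVars false

namespace Pool.Agent.Lib.MP_04add8_pr

/-- The integrated tail `min {1, ∫_x^∞ P(σ > y) dy}` of the service law `μ`. -/
noncomputable def integratedTail (μ : Measure ℝ) (x : ℝ) : ℝ :=
  min 1 (∫ y in Set.Ioi x, μ.real (Set.Ioi y))

section calc_

variable {a : ℝ}

lemma tendsto_rpow_mul_exp (ha0 : 0 < a) (ha1 : a < 1) :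
    Tendsto (fun s : ℝ => s ^ (1 - a) * Real.exp (-(s ^ a))) atTop (𝓝 0) := by
  set p := (1 - a) / a with hp
  have hp0 : 0 < p := by
    have : 0 < 1 - a := by linarith
    positivity
  have h1 : Tendsto (fun s : ℝ => (s ^ a) ^ p * Real.exp (-(s ^ a))) atTop (𝓝 0) := by
    have := (tendsto_rpow_mul_exp_neg_mul_atTop_nhds_zero p 1 one_pos).comp
      (tendsto_rpow_atTop ha0)
    refine this.congr ?_
    intro s
    simp
  refine h1.congr' ?_
  filter_upwards [eventually_gt_atTop 0] with s hs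
  rw [← Real.rpow_mul hs.le]
  congr 2
  rw [hp]; field_simp

/-- bounds for the integral of the Weibull tail -/
lemma integ_bounds (ha0 : 0 < a) (ha1 : a < 1) :
    ∃ y0 : ℝ, 1 ≤ y0 ∧ ∀ y, y0 ≤ y →
      ∫ s in Set.Ioi y, Real.exp (-(s ^ a)) ≤ (2 / a) * y ^ (1 - a) * Real.exp (-(y ^ a)) ∧
      Real.exp (-1) * Real.exp (-(y ^ a)) ≤ ∫ s in Set.Ioi y, Real.exp (-(s ^ a)) := by
  set q := 2 * (1 - a) / a with hq
  have h1a : 0 < 1 - a := by linarith
  have hq0 : 0 < q := by positivity
  refine ⟨max 1 (q ^ (1 / a)), le_max_left _ _, ?_⟩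
  intro y hy
  have hy1 : 1 ≤ y := (le_max_left _ _).trans hy
  have hy0 : 0 < y := by linarith
  have hyq : q ≤ y ^ a := by
    have h1 : q ^ (1 / a) ≤ y := (le_max_right _ _).trans hy
    calc q = (q ^ (1 / a)) ^ a := by
          rw [← Real.rpow_mul hq0.le, one_div_mul_cancel ha0.ne', Real.rpow_one]
      _ ≤ y ^ a := by gcongr
  set G : ℝ → ℝ := fun s => -((2 / a) * (s ^ (1 - a) * Real.exp (-(s ^ a)))) with hG
  set G' : ℝ → ℝ := fun s => 2 * (1 - ((1 - a) / a) * s ^ (-a)) * Real.exp (-(s ^ a)) with hG'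
  have hderiv : ∀ x ∈ Set.Ici y, HasDerivAt G (G' x) x := by
    intro x hx
    have hx0 : 0 < x := hy0.trans_le hx
    have h1 : HasDerivAt (fun s : ℝ => s ^ (1 - a)) ((1 - a) * x ^ (1 - a - 1)) x := by
      have := Real.hasDerivAt_rpow_const (x := x) (p := 1 - a) (Or.inl hx0.ne')
      exact this
    have h2 : HasDerivAt (fun s : ℝ => s ^ a) (a * x ^ (a - 1)) x :=
      Real.hasDerivAt_rpow_const (x := x) (p := a) (Or.inl hx0.ne')
    have h3 := (h2.neg).exp
    have h4 := ((h1.mul h3).const_mul (2 / a)).neg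
    refine h4.congr_deriv ?_
    rw [hG']
    simp only [Pi.neg_apply]
    have e1 : x ^ (1 - a - 1) = x ^ (-a) := by congr 1; ring
    have e2 : x ^ (1 - a) * x ^ (a - 1) = 1 := by
      rw [← Real.rpow_add hx0]
      have : 1 - a + (a - 1) = 0 := by ring
      rw [this, Real.rpow_zero]
    rw [e1]
    have e3 : x ^ (1 - a) * (Real.exp (-x ^ a) * -(a * x ^ (a - 1))) =
      -(a * (x ^ (1 - a) * x ^ (a - 1)) * Real.exp (-x ^ a)) := by ring
    rw [e3, e2]
    field_simp
    ring
  have hle : ∀ x ∈ Set.Ioi y, Real.exp (-(x ^ a)) ≤ G' x := by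
    intro x hx
    have hx0 : 0 < x := hy0.trans hx
    have h1 : q ≤ x ^ a := hyq.trans (by gcongr; exact le_of_lt hx)
    have h2 : ((1 - a) / a) * x ^ (-a) ≤ 1 / 2 := by
      rw [Real.rpow_neg hx0.le, ← div_eq_mul_inv, div_le_iff₀ (by positivity)]
      calc (1 - a) / a = 1 / 2 * q := by rw [hq]; ring
        _ ≤ 1 / 2 * x ^ a := by gcongr
    rw [hG']
    simp only
    nlinarith [Real.exp_pos (-(x ^ a))]
  have hpos : ∀ x ∈ Set.Ioi y, 0 ≤ G' x := fun x hx => (Real.exp_pos _).le.trans (hle x hx)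
  have hlim : Tendsto G atTop (𝓝 0) := by
    have := ((tendsto_rpow_mul_exp ha0 ha1).const_mul (2 / a)).neg
    simpa using this
  have hint' := integrableOn_Ioi_deriv_of_nonneg' hderiv hpos hlim
  have hval := integral_Ioi_of_hasDerivAt_of_nonneg' hderiv hpos hlim
  have hmeas : Measurable fun s : ℝ => Real.exp (-(s ^ a)) := by fun_prop
  have hint : IntegrableOn (fun s : ℝ => Real.exp (-(s ^ a))) (Set.Ioi y) := by
    refine Integrable.mono' hint' hmeas.aestronglyMeasurable ?_
    filter_upwards [ae_restrict_mem measurableSet_Ioi] with x hx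
    rw [Real.norm_of_nonneg (Real.exp_pos _).le]
    exact hle x hx
  constructor
  · calc ∫ s in Set.Ioi y, Real.exp (-(s ^ a)) ≤ ∫ s in Set.Ioi y, G' s := by
          apply setIntegral_mono_on hint hint' measurableSet_Ioi
          exact hle
      _ = _ := by rw [hval, hG]; simp only; ring
  · have hsub : Set.Ioc y (y + 1) ⊆ Set.Ioi y := fun x hx => hx.1
    calc Real.exp (-1) * Real.exp (-(y ^ a))
        = ∫ s in Set.Ioc y (y + 1), Real.exp (-1) * Real.exp (-(y ^ a)) := by
          rw [setIntegral_const]; simp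
      _ ≤ ∫ s in Set.Ioc y (y + 1), Real.exp (-(s ^ a)) := by
          apply setIntegral_mono_on _ (hint.mono_set hsub) measurableSet_Ioc
          · intro x hx
            rw [← Real.exp_add]
            apply Real.exp_le_exp.mpr
            have h1 : x ^ a ≤ (y + 1) ^ a := by
              have : 0 < x := hy0.trans hx.1
              gcongr; exact hx.2
            have h2 := rpow_add_le_add ha0 ha1 hy0.le zero_le_one
            rw [Real.one_rpow] at h2
            linarith
          · exact integrableOn_const (by simp) enorm_ne_top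
      _ ≤ _ := by
          apply setIntegral_mono_set hint
          · filter_upwards with x
            positivity
          · exact hsub.eventuallyLE

end calc_

section weib

variable {a : ℝ} {μ : Measure ℝ} [IsProbabilityMeasure μ]

lemma weibull_real (hμ : ∀ x, 0 ≤ x → μ (Set.Ioi x) = ENNReal.ofReal (Real.exp (-(x ^ a))))
    {x : ℝ} (hx : 0 ≤ x) : μ.real (Set.Ioi x) = Real.exp (-(x ^ a)) := by
  rw [measureReal_def, hμ x hx, ENNReal.toReal_ofReal (Real.exp_pos _).le]

lemma integratedTail_bounds (ha0 : 0 < a) (ha1 : a < 1)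
    (hμ : ∀ x, 0 ≤ x → μ (Set.Ioi x) = ENNReal.ofReal (Real.exp (-(x ^ a)))) :
    ∃ y0 : ℝ, 1 ≤ y0 ∧ ∀ y, y0 ≤ y →
      integratedTail μ y ≤ (2 / a) * y ^ (1 - a) * Real.exp (-(y ^ a)) ∧
      Real.exp (-1) * Real.exp (-(y ^ a)) ≤ integratedTail μ y := by
  obtain ⟨y0, hy01, h⟩ := integ_bounds ha0 ha1
  refine ⟨y0, hy01, ?_⟩
  intro y hy
  obtain ⟨h1, h2⟩ := h y hy
  have hy0 : 0 < y := by linarith
  have heq : ∫ s in Set.Ioi y, μ.real (Set.Ioi s) = ∫ s in Set.Ioi y, Real.exp (-(s ^ a)) := by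
    apply setIntegral_congr_fun measurableSet_Ioi
    intro s hs
    exact weibull_real hμ (hy0.trans hs).le
  unfold integratedTail
  rw [heq]
  refine ⟨(min_le_right _ _).trans h1, le_min ?_ h2⟩
  rw [← Real.exp_add]
  apply Real.exp_le_one_iff.mpr
  have : 0 ≤ y ^ a := by positivity
  linarith

end weib

end Pool.Agent.Lib.MP_04add8_pr
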