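import Mathlib
import Pool.Agent.Lib.MP_04add8_pr.Basic
import Pool.Agent.Lib.MP_04add8_pr.Noise
import Pool.Agent.Lib.MP_04add8_pr.Lower

open MeasureTheory ProbabilityTheory Filter Topology
open scoped ENNReal

set_option linter.unusedSectionVars false

namespace Pool.Agent.Lib.MP_04add8_pr

variable {μ ν : Measure ℝ} [IsProbabilityMeasure μ] [IsProbabilityMeasure ν]

/-- real-valued version of `transfer` -/
lemma IsStationaryKW.transfer_real {π : Measure (ℝ × ℝ)} (h : IsStationaryKW μ ν π)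
    (hμ : ∀ᵐ x ∂μ, 0 ≤ x) (hν : ∀ᵐ x ∂ν, 0 ≤ x)
    {A B : Set (ℝ × ℝ)} (hA : MeasurableSet A) (hB : MeasurableSet B)
    {Es Et : Set (ℕ → ℝ)} (hEs : MeasurableSet Es) (hEt : MeasurableSet Et) (n : ℕ)
    (hpath : ∀ w ∈ A, 0 ≤ w.1 → w.1 ≤ w.2 → ∀ s ∈ Es, (∀ k, 0 ≤ s k) → ∀ t ∈ Et,
      (∀ k, 0 ≤ t k) → kwIter w s t n ∈ B) :
    π.real A * ((iidLaw μ).real Es * (iidLaw ν).real Et) ≤ π.real B := by
  have hp : IsProbabilityMeasure π := h.1
  have h1 := h.transfer hμ hν hA hB hEs hEt n hpath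
  have h2 := ENNReal.toReal_mono (measure_ne_top π B) h1
  rw [ENNReal.toReal_mul, ENNReal.toReal_mul] at h2
  exact h2

/-- phase 1: the larger workload exceeds `y` -/
lemma IsStationaryKW.phase_one {π : Measure (ℝ × ℝ)} (h : IsStationaryKW μ ν π)
    (hμ : ∀ᵐ x ∂μ, 0 ≤ x) (hν : ∀ᵐ x ∂ν, 0 ≤ x) (hνi : Integrable (fun t : ℝ => t) ν)
    (hm : 0 < ∫ x, x ∂ν) (y : ℝ) {K : ℕ} (hK : 0 < K) :
    (1 / 2) * (1 - (1 - μ.real (Set.Ioi (y + K * (2 * ∫ x, x ∂ν)))) ^ K) ≤
      π.real {w | y < w.2} := by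
  have hp : IsProbabilityMeasure π := h.1
  set z := y + K * (2 * ∫ x, x ∂ν) with hz
  obtain ⟨hjm, hj⟩ := exists_job μ z K
  have hT := psum_le_two_mul hν hνi hm hK
  have hTm : MeasurableSet {t : ℕ → ℝ | psum t K ≤ K * (2 * ∫ x, x ∂ν)} :=
    measurableSet_le (measurable_psum K) measurable_const
  have h1 := h.transfer_real hμ hν (A := Set.univ) (B := {w | y < w.2}) MeasurableSet.univ
    (measurableSet_lt measurable_const measurable_snd) hjm hTm K (by
      intro w _ h0 h01 s hs hs0 t ht ht0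
      have h2 := kwIter_snd_of_job h0 h01 ht0 K hs
      have h3 : psum t K ≤ K * (2 * ∫ x, x ∂ν) := ht
      change y < (kwIter w s t K).2
      linarith)
  rw [hj] at h1
  have hq : (1 - μ.real (Set.Ioi z)) ^ K ≤ 1 := by
    apply pow_le_one₀
    · have := measureReal_le_one (μ := μ) (s := Set.Ioi z)
      linarith
    · have : 0 ≤ μ.real (Set.Ioi z) := measureReal_nonneg
      linarith
  simp only [probReal_univ, one_mul] at h1
  refine le_trans ?_ h1
  rw [mul_comm]
  have h6 : 0 ≤ 1 - (1 - μ.real (Set.Ioi z)) ^ K := by linarith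
  gcongr

/-- **Two big jobs lower bound.** -/
lemma IsStationaryKW.lower_two {π : Measure (ℝ × ℝ)} (h : IsStationaryKW μ ν π)
    (hμ : ∀ᵐ x ∂μ, 0 ≤ x) (hν : ∀ᵐ x ∂ν, 0 ≤ x) (hνi : Integrable (fun t : ℝ => t) ν)
    (hm : 0 < ∫ x, x ∂ν) (x : ℝ) {K : ℕ} (hK : 0 < K) :
    (1 / 4) * (1 - (1 - μ.real (Set.Ioi (x + K * (4 * ∫ x, x ∂ν)))) ^ K) ^ 2 ≤
      π.real {w | x < w.1} := by
  have hp : IsProbabilityMeasure π := h.1
  set m := ∫ x, x ∂ν with hmdef
  set y := x + K * (2 * m) with hy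
  set p := μ.real (Set.Ioi (x + K * (4 * m))) with hpdef
  have hph := h.phase_one hμ hν hνi hm y hK
  have e1 : y + K * (2 * m) = x + K * (4 * m) := by rw [hy]; ring
  rw [← hmdef, e1, ← hpdef] at hph
  obtain ⟨hjm, hj⟩ := exists_job μ y K
  have hT := psum_le_two_mul hν hνi hm hK
  have hTm : MeasurableSet {t : ℕ → ℝ | psum t K ≤ K * (2 * m)} :=
    measurableSet_le (measurable_psum K) measurable_const
  have h1 := h.transfer_real hμ hν (A := {w | y < w.2}) (B := {w | x < w.1})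
    (measurableSet_lt measurable_const measurable_snd)
    (measurableSet_lt measurable_const measurable_fst) hjm hTm K (by
      intro w hw h0 h01 s hs hs0 t ht ht0
      have h2 := kwIter_fst_of_job h0 h01 hs0 ht0 hw K hs
      have h3 : psum t K ≤ K * (2 * m) := ht
      change x < (kwIter w s t K).1
      linarith)
  rw [hj] at h1
  have hmono : p ≤ μ.real (Set.Ioi y) := by
    refine measureReal_mono ?_ (measure_ne_top _ _)
    apply Set.Ioi_subset_Ioi
    rw [hy]
    have : 0 ≤ (K : ℝ) * (2 * m) := by positivity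
    linarith
  have hp1 : μ.real (Set.Ioi y) ≤ 1 := measureReal_le_one
  have hp0 : 0 ≤ p := measureReal_nonneg
  have hpow : (1 - μ.real (Set.Ioi y)) ^ K ≤ (1 - p) ^ K := by
    gcongr
  have hpow1 : (1 - p) ^ K ≤ 1 := pow_le_one₀ (by linarith) (by linarith)
  calc (1 / 4) * (1 - (1 - p) ^ K) ^ 2
      = ((1 / 2) * (1 - (1 - p) ^ K)) * ((1 - (1 - p) ^ K) * (1 / 2)) := by ring
    _ ≤ π.real {w | y < w.2} * ((1 - (1 - μ.real (Set.Ioi y)) ^ K) *
          (iidLaw ν).real {t | psum t K ≤ K * (2 * m)}) := by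
        have h5 : 0 ≤ 1 - (1 - p) ^ K := by linarith
        have h6 : 1 - (1 - p) ^ K ≤ 1 - (1 - μ.real (Set.Ioi y)) ^ K := by linarith
        have h7 : 0 ≤ 1 - (1 - μ.real (Set.Ioi y)) ^ K := by linarith
        gcongr
    _ ≤ _ := h1

/-- **One big job plus overload lower bound.** -/
lemma IsStationaryKW.lower_one {π : Measure (ℝ × ℝ)} (h : IsStationaryKW μ ν π)
    (hμ : ∀ᵐ x ∂μ, 0 ≤ x) (hν : ∀ᵐ x ∂ν, 0 ≤ x) (hνi : Integrable (fun t : ℝ => t) ν)
    (hm : 0 < ∫ x, x ∂ν) (x : ℝ) (n : ℕ) :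
    (1 / 2) * μ.real (Set.Ioi (x + n * (∫ x, x ∂ν) + 1 + 2 * ∫ x, x ∂ν)) *
      ((iidLaw μ).real {s | x + n * (∫ x, x ∂ν) < psum s n} *
        (iidLaw ν).real {t | psum t n ≤ n * ∫ x, x ∂ν}) ≤
      π.real {w | x < w.1} := by
  have hp : IsProbabilityMeasure π := h.1
  set m := ∫ x, x ∂ν with hmdef
  set y := x + n * m + 1 with hy
  have hph := h.phase_one hμ hν hνi hm y one_pos
  simp only [Nat.cast_one, one_mul, pow_one, sub_sub_cancel, ← hmdef] at hph
  have hSm : MeasurableSet {s : ℕ → ℝ | x + n * m < psum s n} :=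
    measurableSet_lt measurable_const (measurable_psum n)
  have hTm : MeasurableSet {t : ℕ → ℝ | psum t n ≤ n * m} :=
    measurableSet_le (measurable_psum n) measurable_const
  have h1 := h.transfer_real hμ hν (A := {w | y < w.2}) (B := {w | x < w.1})
    (measurableSet_lt measurable_const measurable_snd)
    (measurableSet_lt measurable_const measurable_fst) hSm hTm n (by
      intro w hw h0 h01 s hs hs0 t ht ht0
      have h2 := kwIter_fst_overload (t := t) h0 hs0 hw n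
      have h3 : psum t n ≤ n * m := ht
      have h4 : x + n * m < psum s n := hs
      change x < (kwIter w s t n).1
      refine lt_of_lt_of_le ?_ h2
      apply lt_min <;> linarith)
  refine le_trans ?_ h1
  gcongr

end Pool.Agent.Lib.MP_04add8_pr
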