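import Mathlib
import Pool.Agent.Lib.MP_04add8_pr.Lower

open MeasureTheory ProbabilityTheory Filter Topology
open scoped ENNReal

set_option linter.unusedSectionVars false

namespace Pool.Agent.Lib.MP_04add8_pr

variable {ν : Measure ℝ} [IsProbabilityMeasure ν]

lemma psum_consSeq (x : ℝ) (t : ℕ → ℝ) (n : ℕ) :
    psum (consSeq x t) (n + 1) = x + psum t n := by
  unfold psum
  rw [Finset.sum_range_succ', add_comm]
  rfl

/-- `E |T_n - n m| ≥ E |t - m|` -/
lemma abs_psum_lower (hνi : Integrable (fun t : ℝ => t) ν) (n : ℕ) :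
    ∫ x, |x - ∫ t, t ∂ν| ∂ν ≤
      ∫ t, |psum t (n + 1) - (n + 1 : ℕ) * ∫ t, t ∂ν| ∂(iidLaw ν) := by
  set m := ∫ t, t ∂ν with hm
  have hi1 : Integrable (fun x => |x - m|) ν := (hνi.sub (integrable_const m)).abs
  have hi2 : Integrable (fun t => |psum t (n + 1) - (n + 1 : ℕ) * m|) (iidLaw ν) :=
    ((integrable_psum hνi (n + 1)).sub (integrable_const _)).abs
  rw [integral_eq_lintegral_of_nonneg_ae (ae_of_all _ fun _ => abs_nonneg _)
      hi1.aestronglyMeasurable,
    integral_eq_lintegral_of_nonneg_ae (ae_of_all _ fun _ => abs_nonneg _)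
      hi2.aestronglyMeasurable]
  apply ENNReal.toReal_mono
  · have := hi2.lintegral_lt_top
    exact this.ne
  rw [lintegral_iidLaw (f := fun t => ENNReal.ofReal |psum t (n + 1) - (n + 1 : ℕ) * m|)
    (by
      have := measurable_psum (n + 1)
      fun_prop)]
  apply lintegral_mono
  intro x
  have h1 : ∫ t, (psum (consSeq x t) (n + 1) - (n + 1 : ℕ) * m) ∂(iidLaw ν) = x - m := by
    simp only [psum_consSeq]
    have hadd : Integrable (fun t : ℕ → ℝ => x + psum t n) (iidLaw ν) :=
      (integrable_const x).add (integrable_psum hνi n)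
    rw [integral_sub hadd (integrable_const _),
      integral_add (integrable_const x) (integrable_psum hνi n), integral_psum hνi n]
    simp only [integral_const, probReal_univ, smul_eq_mul, one_mul]
    push_cast
    ring
  have h2 := enorm_integral_le_lintegral_enorm (μ := iidLaw ν)
    (fun t => psum (consSeq x t) (n + 1) - (n + 1 : ℕ) * m)
  rw [h1] at h2
  simp only [Real.enorm_eq_ofReal_abs] at h2
  exact h2

/-- the total interarrival time stays below its mean with probability at least `c / n` -/
lemma psum_le_mean_lower (hν : ∀ᵐ x ∂ν, 0 ≤ x) (hνi : Integrable (fun t : ℝ => t) ν)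
    (hm : 0 < ∫ x, x ∂ν) :
    ∃ c1 : ℝ, 0 < c1 ∧ ∀ n : ℕ, 0 < n →
      c1 / n ≤ (iidLaw ν).real {t | psum t n ≤ n * ∫ x, x ∂ν} := by
  set m := ∫ t, t ∂ν with hmdef
  have hi1 : Integrable (fun x => |x - m|) ν := (hνi.sub (integrable_const m)).abs
  rcases (integral_nonneg (μ := ν) (f := fun x => |x - m|) (fun x => abs_nonneg _)).eq_or_lt
    with h0 | h0
  · -- deterministic case
    refine ⟨1, one_pos, ?_⟩
    intro n hn
    have h1 : (fun x => |x - m|) =ᵐ[ν] 0 :=
      (integral_eq_zero_iff_of_nonneg (fun x => abs_nonneg _) hi1).mp h0.symm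
    have h2 : ∀ᵐ x ∂ν, x = m := by
      filter_upwards [h1] with x hx
      have hx' : |x - m| = 0 := hx
      rw [abs_eq_zero] at hx'
      linarith
    have h3 : (iidLaw ν).real {t | psum t n ≤ n * m} = 1 := by
      have h4 : ∀ᵐ t ∂(iidLaw ν), t ∈ {t | psum t n ≤ n * m} := by
        filter_upwards [ae_iid h2] with t ht
        change psum t n ≤ n * m
        unfold psum
        simp [ht]
      have h5 : (iidLaw ν) {t | psum t n ≤ n * m} = (iidLaw ν) Set.univ := by
        apply measure_congr
        filter_upwards [h4] with t ht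
        apply propext
        exact ⟨fun _ => trivial, fun _ => ht⟩
      rw [measureReal_def, h5]
      simp
    rw [h3]
    have hn' : (1 : ℝ) ≤ n := by exact_mod_cast hn
    rw [div_le_one (by linarith)]
    exact hn'
  · set c := ∫ x, |x - m| ∂ν with hc
    refine ⟨c / (2 * m), by positivity, ?_⟩
    intro n hn
    obtain ⟨k, rfl⟩ : ∃ k, n = k + 1 := ⟨n - 1, by omega⟩
    have h1 := abs_psum_lower hνi k
    rw [← hmdef, ← hc] at h1
    set S : (ℕ → ℝ) → ℝ := fun t => psum t (k + 1) - (k + 1 : ℕ) * m with hS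
    have hSi : Integrable S (iidLaw ν) := (integrable_psum hνi (k + 1)).sub (integrable_const _)
    have hS0 : ∫ t, S t ∂(iidLaw ν) = 0 := by
      rw [hS, integral_sub (integrable_psum hνi (k + 1)) (integrable_const _),
        integral_psum hνi]
      simp [hmdef]
    have hmeas : MeasurableSet {t : ℕ → ℝ | psum t (k + 1) ≤ (k + 1 : ℕ) * m} :=
      measurableSet_le (measurable_psum _) measurable_const
    have hn' : (0 : ℝ) < (k + 1 : ℕ) := by exact_mod_cast hn
    -- |S| ≤ S + 2 n m 1{S ≤ 0}
    have h2 : ∫ t, |S t| ∂(iidLaw ν) ≤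
        ∫ t, (S t + {t : ℕ → ℝ | psum t (k + 1) ≤ (k + 1 : ℕ) * m}.indicator
          (fun _ => 2 * ((k + 1 : ℕ) * m)) t) ∂(iidLaw ν) := by
      apply integral_mono_ae hSi.abs
      · exact hSi.add ((integrable_const _).indicator hmeas)
      filter_upwards [ae_iid hν] with t ht
      have h3 := psum_nonneg ht (k + 1)
      by_cases hc : psum t (k + 1) ≤ (k + 1 : ℕ) * m
      · rw [Set.indicator_of_mem (by exact hc), abs_of_nonpos (by rw [hS]; simp only; linarith)]
        rw [hS]; simp only; linarith
      · rw [Set.indicator_of_notMem (by exact hc), abs_of_nonneg (by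
          rw [hS]; simp only; push Not at hc; linarith)]
        linarith
    rw [integral_add hSi ((integrable_const _).indicator hmeas), hS0, zero_add,
      integral_indicator hmeas, setIntegral_const, smul_eq_mul] at h2
    have h4 := h1.trans h2
    rw [div_div, div_le_iff₀ (by positivity)]
    linarith

end Pool.Agent.Lib.MP_04add8_pr
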