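import Mathlib
import Pool.Agent.Lib.MP_04add8_pr.Basic
import Pool.Agent.Lib.MP_04add8_pr.Weibull

open MeasureTheory ProbabilityTheory Filter Topology
open scoped ENNReal

set_option linter.unusedSectionVars false

namespace Pool.Agent.Lib.MP_04add8_pr

/-- the argument of the one-big-job cost -/
noncomputable def bigA (b R : ℝ) (w : ℝ × ℝ) : ℝ := w.2 + √(w.1 ^ 2 + R ^ 2) / b

/-- cost function: minimum of the one-big-job cost and the two-big-jobs cost -/
noncomputable def cost (a b R : ℝ) (w : ℝ × ℝ) : ℝ :=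
  min (bigA b R w ^ a) (w.1 ^ a + w.2 ^ a + 1)

lemma bigA_pos {b R : ℝ} (hb : 0 < b) (hR : 0 < R) {w : ℝ × ℝ} (hw2 : 0 ≤ w.2) :
    0 < bigA b R w := by
  unfold bigA
  have : 0 < √(w.1 ^ 2 + R ^ 2) := Real.sqrt_pos.mpr (by positivity)
  positivity

lemma bigA_mono {b R : ℝ} (hb : 0 < b) {u w : ℝ × ℝ} (h0 : 0 ≤ u.1) (h1 : u.1 ≤ w.1)
    (h2 : u.2 ≤ w.2) : bigA b R u ≤ bigA b R w := by
  unfold bigA
  gcongr

lemma cost_mono {a b R : ℝ} (ha : 0 < a) (hb : 0 < b) (hR : 0 < R) {u w : ℝ × ℝ}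
    (h0 : 0 ≤ u.1) (h0' : 0 ≤ u.2) (h1 : u.1 ≤ w.1)
    (h2 : u.2 ≤ w.2) : cost a b R u ≤ cost a b R w := by
  unfold cost
  have hA := bigA_mono (R := R) hb h0 h1 h2
  have hA0 := bigA_pos hb hR h0'
  gcongr

lemma cost_sorted_le_two {a b R : ℝ} (u v : ℝ) :
    cost a b R (min u v, max u v) ≤ u ^ a + v ^ a + 1 := by
  unfold cost
  refine (min_le_right _ _).trans ?_
  rcases le_total u v with h | h
  · simp [min_eq_left h, max_eq_right h]
  · simp [min_eq_right h, max_eq_left h]; linarith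

/-- when `v` is large the sorted one-job cost is at most the unsorted one -/
lemma cost_sorted_le_one {a b R u v : ℝ} (ha : 0 < a) (hb : 0 < b) (hb1 : b < 1) (hR : 0 < R)
    (hu : 0 ≤ u) (hv : 0 ≤ v) (hcond : b ^ 2 * (v ^ 2 + R ^ 2) ≤ v ^ 2) :
    cost a b R (min u v, max u v) ≤ (v + √(u ^ 2 + R ^ 2) / b) ^ a := by
  unfold cost
  refine (min_le_left _ _).trans ?_
  rcases le_total u v with h | h
  · simp [min_eq_left h, max_eq_right h, bigA]
  · simp only [min_eq_right h, max_eq_left h, bigA]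
    set p := √(u ^ 2 + R ^ 2) with hp
    set q := √(v ^ 2 + R ^ 2) with hq
    have hp0 : 0 < p := Real.sqrt_pos.mpr (by positivity)
    have hq0 : 0 < q := Real.sqrt_pos.mpr (by positivity)
    have hp2 : p ^ 2 = u ^ 2 + R ^ 2 := Real.sq_sqrt (by positivity)
    have hq2 : q ^ 2 = v ^ 2 + R ^ 2 := Real.sq_sqrt (by positivity)
    have hbq : b * q ≤ v := by
      apply abs_le_of_sq_le_sq' _ hv |>.2
      rw [mul_pow, hq2]; exact hcond
    have hcond' : b ^ 2 * (u ^ 2 + R ^ 2) ≤ u ^ 2 := by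
      have : v ^ 2 ≤ u ^ 2 := by gcongr
      have hb2 : b ^ 2 < 1 := by nlinarith
      nlinarith
    have hbp : b * p ≤ u := by
      apply abs_le_of_sq_le_sq' _ hu |>.2
      rw [mul_pow, hp2]; exact hcond'
    have hpq : (p - q) * (p + q) = (u - v) * (u + v) := by nlinarith
    have hge : b * (u - v) ≤ p - q := by
      have h1 : (b * (u - v)) * (p + q) ≤ (p - q) * (p + q) := by
        rw [hpq]
        have : b * (p + q) ≤ u + v := by linarith
        have h3 : 0 ≤ u - v := by linarith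
        nlinarith
      exact le_of_mul_le_mul_right h1 (by positivity)
    have h5 : u + q / b ≤ v + p / b := by
      have : (u - v) ≤ (p - q) / b := by
        rw [le_div_iff₀ hb]; linarith
      have h6 : (p - q) / b = p / b - q / b := by ring
      linarith
    gcongr

lemma kwStep_eq (w : ℝ × ℝ) (s t : ℝ) :
    kwStep w s t = (min (max (w.1 + s - t) 0) (max (w.2 - t) 0),
      max (max (w.1 + s - t) 0) (max (w.2 - t) 0)) := rfl

/-- comparison with truncated interarrival times -/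
lemma cost_kwStep_le {a b R : ℝ} (ha : 0 < a) (hb : 0 < b) (hR : 0 < R) (w : ℝ × ℝ)
    (s : ℝ) {t T : ℝ} (hT : T ≤ t) :
    cost a b R (kwStep w s t) ≤
      cost a b R (min (max (w.1 + s - T) 0) (max (w.2 - T) 0),
        max (max (w.1 + s - T) 0) (max (w.2 - T) 0)) := by
  rw [kwStep_eq]
  have h1 : max (w.1 + s - t) 0 ≤ max (w.1 + s - T) 0 := by gcongr
  have h2 : max (w.2 - t) 0 ≤ max (w.2 - T) 0 := by gcongr
  apply cost_mono ha hb hR
  · exact le_min (le_max_right _ _) (le_max_right _ _)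
  · exact (le_max_right _ _).trans (le_max_left _ _)
  · exact min_le_min h1 h2
  · exact max_le_max h1 h2

lemma sqrt_add_le {x s R : ℝ} (hs : 0 ≤ s) :
    √((x + s) ^ 2 + R ^ 2) ≤ √(x ^ 2 + R ^ 2) + s := by
  apply Real.sqrt_le_iff.mpr
  refine ⟨by positivity, ?_⟩
  have h1 : √(x ^ 2 + R ^ 2) ^ 2 = x ^ 2 + R ^ 2 := Real.sq_sqrt (by positivity)
  have h2 : x ≤ √(x ^ 2 + R ^ 2) := by
    apply Real.le_sqrt_of_sq_le; nlinarith [sq_nonneg R]
  nlinarith

lemma sqrt_taylor {x d R : ℝ} (hR : 0 < R) :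
    √((x + d) ^ 2 + R ^ 2) ≤
      √(x ^ 2 + R ^ 2) + x / √(x ^ 2 + R ^ 2) * d + d ^ 2 / (2 * R) := by
  set q := √(x ^ 2 + R ^ 2) with hq
  have hq0 : 0 < q := Real.sqrt_pos.mpr (by positivity)
  have hq2 : q ^ 2 = x ^ 2 + R ^ 2 := Real.sq_sqrt (by positivity)
  have hqR : R ≤ q := by
    apply Real.le_sqrt_of_sq_le; nlinarith [sq_nonneg x]
  have h1 : √((x + d) ^ 2 + R ^ 2) ≤ q + (2 * x * d + d ^ 2) / (2 * q) := by
    apply Real.sqrt_le_iff.mpr
    have h3 : q + (2 * x * d + d ^ 2) / (2 * q) = ((x + d) ^ 2 + R ^ 2 + q ^ 2) / (2 * q) := by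
      field_simp
      rw [hq2]
      ring
    refine ⟨by rw [h3]; positivity, ?_⟩
    have h4 : (x + d) ^ 2 + R ^ 2 = q ^ 2 + (2 * x * d + d ^ 2) := by rw [hq2]; ring
    rw [h4]
    have h5 : (q + (2 * x * d + d ^ 2) / (2 * q)) ^ 2 =
        q ^ 2 + (2 * x * d + d ^ 2) + ((2 * x * d + d ^ 2) / (2 * q)) ^ 2 := by
      field_simp
      ring
    rw [h5]
    nlinarith [sq_nonneg ((2 * x * d + d ^ 2) / (2 * q))]
  have h2 : (2 * x * d + d ^ 2) / (2 * q) = x / q * d + d ^ 2 / (2 * q) := by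
    field_simp
  have h3 : d ^ 2 / (2 * q) ≤ d ^ 2 / (2 * R) := by gcongr
  linarith

/-- **Subadditivity of the cost**: one job of size `s` raises the cost by at most
`s ^ a + 1` (for large workload). -/
lemma cost_kwStep_le_add {a b R M : ℝ} (ha0 : 0 < a) (ha1 : a < 1) (hb : 0 < b) (hb1 : b < 1)
    (hR : 0 < R) (hM : 0 ≤ M) {w : ℝ × ℝ} (h1 : 0 ≤ w.1)
    (hwM : M ≤ w.2) (hcond : b ^ 2 * ((w.2 - M) ^ 2 + R ^ 2) ≤ (w.2 - M) ^ 2)
    {s t : ℝ} (hs : 0 ≤ s) (ht : 0 ≤ t) :
    cost a b R (kwStep w s t) ≤ cost a b R w + s ^ a + 1 := by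
  have hw2 : 0 ≤ w.2 := hM.trans hwM
  set T := min t M with hT
  have hT0 : 0 ≤ T := le_min ht hM
  have hTM : T ≤ M := min_le_right _ _
  have hstep := cost_kwStep_le ha0 hb hR w s (min_le_left t M)
  rw [← hT] at hstep
  set u := max (w.1 + s - T) 0 with hu
  set v := max (w.2 - T) 0 with hv
  have hu0 : 0 ≤ u := le_max_right _ _
  have hv0 : 0 ≤ v := le_max_right _ _
  have hu1 : u ≤ w.1 + s := max_le (by linarith) (by linarith)
  have hv1 : v ≤ w.2 := max_le (by linarith) hw2
  have hveq : v = w.2 - T := max_eq_left (by linarith)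
  have htwo : cost a b R (kwStep w s t) ≤ (w.1 + s) ^ a + w.2 ^ a + 1 := by
    refine hstep.trans ((cost_sorted_le_two u v).trans ?_)
    gcongr
  -- condition for `v`
  have hvcond : b ^ 2 * (v ^ 2 + R ^ 2) ≤ v ^ 2 := by
    have h3 : (w.2 - M) ≤ v := by rw [hveq]; linarith
    have h4 : (w.2 - M) ^ 2 ≤ v ^ 2 := pow_le_pow_left₀ (by linarith) h3 2
    have hb2 : b ^ 2 < 1 := by nlinarith
    nlinarith
  have hsa : 0 ≤ s ^ a := by positivity
  rcases le_total (bigA b R w ^ a) (w.1 ^ a + w.2 ^ a + 1) with hc | hc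
  · have hcost : cost a b R w = bigA b R w ^ a := min_eq_left hc
    set A := bigA b R w with hA
    have hA0 : 0 < A := bigA_pos hb hR hw2
    rw [hcost]
    rcases le_total (s ^ (1 - a)) (b * A ^ (1 - a)) with hcase | hcase
    · -- small job: one-job cost
      have hone : cost a b R (kwStep w s t) ≤ (A + s / b) ^ a := by
        refine hstep.trans ((cost_sorted_le_one ha0 hb hb1 hR hu0 hv0 hvcond).trans ?_)
        have h5 : √(u ^ 2 + R ^ 2) ≤ √(w.1 ^ 2 + R ^ 2) + s := by
          refine le_trans ?_ (sqrt_add_le hs)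
          gcongr
        have h6 : v + √(u ^ 2 + R ^ 2) / b ≤ A + s / b := by
          rw [hA, bigA]
          have : √(u ^ 2 + R ^ 2) / b ≤ (√(w.1 ^ 2 + R ^ 2) + s) / b := by gcongr
          rw [add_div] at this
          linarith
        gcongr
      have htan := rpow_add_le_tangent ha0 ha1 hA0 (y := s / b)
        (by have : 0 ≤ s / b := by positivity
            linarith)
      have h7 : a * A ^ (a - 1) * (s / b) ≤ s ^ a := by
        rcases hs.eq_or_lt with h0 | h0
        · rw [← h0, Real.zero_rpow ha0.ne']; simp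
        · have h8 : s ^ a = s * s ^ (a - 1) := by
            rw [Real.rpow_sub_one h0.ne']; field_simp
          have h9 : A ^ (a - 1) / b ≤ s ^ (a - 1) := by
            have e1 : A ^ (a - 1) = (A ^ (1 - a))⁻¹ := by
              rw [← Real.rpow_neg hA0.le]; congr 1; ring
            have e2 : s ^ (a - 1) = (s ^ (1 - a))⁻¹ := by
              rw [← Real.rpow_neg h0.le]; congr 1; ring
            rw [e1, e2]
            have hsp : 0 < s ^ (1 - a) := by positivity
            have hAp : 0 < A ^ (1 - a) := by positivity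
            rw [div_eq_mul_inv, ← mul_inv, mul_comm (A ^ (1 - a)) b]
            exact inv_anti₀ hsp hcase
          rw [h8]
          have h10 : 0 < A ^ (a - 1) := by positivity
          calc a * A ^ (a - 1) * (s / b) = a * (s * (A ^ (a - 1) / b)) := by ring
            _ ≤ 1 * (s * s ^ (a - 1)) := by gcongr
            _ = _ := one_mul _
      linarith
    · -- large job: two-jobs cost
      have hs0 : 0 < s := by
        rcases hs.eq_or_lt with h0 | h0
        · exfalso
          rw [← h0, Real.zero_rpow (by linarith)] at hcase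
          have : 0 < b * A ^ (1 - a) := by positivity
          linarith
        · exact h0
      have h9 : s ^ (a - 1) ≤ A ^ (a - 1) / b := by
        have e1 : A ^ (a - 1) = (A ^ (1 - a))⁻¹ := by
          rw [← Real.rpow_neg hA0.le]; congr 1; ring
        have e2 : s ^ (a - 1) = (s ^ (1 - a))⁻¹ := by
          rw [← Real.rpow_neg hs0.le]; congr 1; ring
        rw [e1, e2, div_eq_mul_inv, ← mul_inv, mul_comm (A ^ (1 - a)) b]
        exact inv_anti₀ (by positivity) hcase
      have htan1 := rpow_add_le_tangent ha0 ha1 hs0 (y := w.1) (by linarith)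
      have hdiff : w.1 / b ≤ A - w.2 := by
        rw [hA, bigA]
        have : w.1 ≤ √(w.1 ^ 2 + R ^ 2) := by
          apply Real.le_sqrt_of_sq_le; nlinarith [sq_nonneg R]
        have h11 : w.1 / b ≤ √(w.1 ^ 2 + R ^ 2) / b := by gcongr
        linarith
      have htan2 := rpow_add_le_tangent ha0 ha1 hA0 (y := w.2 - A) (by linarith)
      have e3 : A + (w.2 - A) = w.2 := by ring
      rw [e3] at htan2
      have h10 : 0 < A ^ (a - 1) := by positivity
      have h12 : a * s ^ (a - 1) * w.1 ≤ a * (A ^ (a - 1) / b) * w.1 := by gcongr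
      have h13 : a * A ^ (a - 1) * (w.2 - A) ≤ -(a * A ^ (a - 1) * (w.1 / b)) := by
        have : a * A ^ (a - 1) * (w.1 / b) ≤ a * A ^ (a - 1) * (A - w.2) := by gcongr
        linarith
      have h14 : a * (A ^ (a - 1) / b) * w.1 = a * A ^ (a - 1) * (w.1 / b) := by ring
      have e4 : w.1 + s = s + w.1 := by ring
      rw [e4] at htwo
      linarith
  · have hcost : cost a b R w = w.1 ^ a + w.2 ^ a + 1 := min_eq_right hc
    rw [hcost]
    have := rpow_add_le_add ha0 ha1 h1 hs
    linarith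

/-- the first-order increment -/
noncomputable def incr (b R M q s t : ℝ) : ℝ :=
  -(min t M) + q / b * (s - min t M) + (s ^ 2 + M ^ 2) / (2 * b * R)

/-- **First-order bound** for the cost after one step. -/
lemma cost_kwStep_le_incr {a b R M C₁ L : ℝ} (ha0 : 0 < a) (ha1 : a < 1) (hb : 0 < b)
    (hb1 : b < 1) (hR : 0 < R) (hM : 0 ≤ M) (hC1 : M < C₁)
    (hC1' : a ^ 2 * (C₁ ^ 2 + R ^ 2) ≤ C₁ ^ 2)
    (hLM : M < L) (hLR : R ≤ L) (hLcond : b ^ 2 * ((L - M) ^ 2 + R ^ 2) ≤ (L - M) ^ 2)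
    (hL1 : a * L ^ (a - 1) * ((C₁ + R) / b) ≤ 1)
    {w : ℝ × ℝ} (h1 : 0 ≤ w.1) (h12 : w.1 ≤ w.2) (hwL : L ≤ w.2) :
    ∃ ε q : ℝ, 0 ≤ q ∧ q ≤ 1 ∧ a * (1 + 2 / b) ^ (a - 1) * w.2 ^ (a - 1) ≤ ε ∧
      ε ≤ a * w.2 ^ (a - 1) ∧ ∀ s t : ℝ, 0 ≤ s → 0 ≤ t →
        cost a b R (kwStep w s t) ≤ cost a b R w + ε * incr b R M q s t := by
  have hL0 : 0 < L := hM.trans_lt hLM
  have hw2 : 0 < w.2 := hL0.trans_le hwL
  have hb2 : b ^ 2 < 1 := by nlinarith
  have ha2 : a ^ 2 < 1 := by nlinarith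
  set A := bigA b R w with hA
  have hA0 : 0 < A := bigA_pos hb hR hw2.le
  have hAw : w.2 ≤ A := by
    rw [hA, bigA]
    have : 0 ≤ √(w.1 ^ 2 + R ^ 2) / b := by positivity
    linarith
  set r := √(w.1 ^ 2 + R ^ 2) with hr
  have hr0 : 0 < r := Real.sqrt_pos.mpr (by positivity)
  have hr2 : r ^ 2 = w.1 ^ 2 + R ^ 2 := Real.sq_sqrt (by positivity)
  have hrle : r ≤ w.1 + R := by
    apply Real.sqrt_le_iff.mpr
    exact ⟨by positivity, by nlinarith⟩
  have hwr : w.1 ≤ r := by
    apply Real.le_sqrt_of_sq_le; nlinarith [sq_nonneg R]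
  have hAr : A = w.2 + r / b := rfl
  have hApow : A ^ (a - 1) ≤ w.2 ^ (a - 1) :=
    Real.rpow_le_rpow_of_nonpos hw2 hAw (by linarith)
  have hAup : A ≤ (1 + 2 / b) * w.2 := by
    rw [hAr]
    have : r / b ≤ (w.2 + w.2) / b := by
      gcongr
      linarith
    calc w.2 + r / b ≤ w.2 + (w.2 + w.2) / b := by linarith
      _ = (1 + 2 / b) * w.2 := by ring
  have hlow : (1 + 2 / b) ^ (a - 1) * w.2 ^ (a - 1) ≤ A ^ (a - 1) := by
    rw [← Real.mul_rpow (by positivity) hw2.le]
    exact Real.rpow_le_rpow_of_nonpos hA0 hAup (by linarith)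
  have hw2M : M ≤ w.2 := by linarith
  -- common facts on truncated quantities
  have hvcond : ∀ t : ℝ, 0 ≤ t → b ^ 2 * ((w.2 - min t M) ^ 2 + R ^ 2) ≤ (w.2 - min t M) ^ 2 := by
    intro t ht
    have h3 : (L - M) ≤ w.2 - min t M := by
      have := min_le_right t M
      linarith
    have h4 : (L - M) ^ 2 ≤ (w.2 - min t M) ^ 2 := pow_le_pow_left₀ (by linarith) h3 2
    nlinarith
  rcases le_or_gt (A ^ a) (w.1 ^ a + w.2 ^ a + 1) with hc | hc
  · -- one-job regime
    have hcost : cost a b R w = A ^ a := min_eq_left hc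
    refine ⟨a * A ^ (a - 1), w.1 / r, by positivity, ?_, ?_, ?_, ?_⟩
    · rw [div_le_one hr0]; exact hwr
    · rw [mul_assoc]; gcongr
    · gcongr
    · intro s t hs ht
      set T := min t M with hT
      have hT0 : 0 ≤ T := le_min ht hM
      have hTM : T ≤ M := min_le_right _ _
      have hstep := cost_kwStep_le ha0 hb hR w s (min_le_left t M)
      rw [← hT] at hstep
      set u := max (w.1 + s - T) 0 with hu
      have hv : max (w.2 - T) 0 = w.2 - T := max_eq_left (by linarith)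
      rw [hv] at hstep
      have hu0 : 0 ≤ u := le_max_right _ _
      have hone := cost_sorted_le_one ha0 hb hb1 hR hu0 (v := w.2 - T) (by linarith) (hvcond t ht)
      have hu2 : u ^ 2 ≤ (w.1 + (s - T)) ^ 2 := by
        rcases le_total (w.1 + s - T) 0 with h | h
        · rw [hu, max_eq_right h]
          have := sq_nonneg (w.1 + (s - T))
          simpa using this
        · rw [hu, max_eq_left h]
          have : w.1 + s - T = w.1 + (s - T) := by ring
          rw [this]
      have hsq : √(u ^ 2 + R ^ 2) ≤ r + w.1 / r * (s - T) + (s - T) ^ 2 / (2 * R) := by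
        refine le_trans ?_ (sqrt_taylor hR)
        gcongr
      have hst : (s - T) ^ 2 ≤ s ^ 2 + M ^ 2 := by nlinarith [mul_nonneg hs hT0]
      have hle : (w.2 - T) + √(u ^ 2 + R ^ 2) / b ≤ A + incr b R M (w.1 / r) s t := by
        rw [hAr, incr, ← hT]
        have h5 : √(u ^ 2 + R ^ 2) / b ≤
            (r + w.1 / r * (s - T) + (s ^ 2 + M ^ 2) / (2 * R)) / b := by
          gcongr
          refine hsq.trans ?_
          gcongr
        have h6 : (r + w.1 / r * (s - T) + (s ^ 2 + M ^ 2) / (2 * R)) / b =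
            r / b + w.1 / r / b * (s - T) + (s ^ 2 + M ^ 2) / (2 * b * R) := by
          field_simp
        linarith
      have hpos' : 0 ≤ (w.2 - T) + √(u ^ 2 + R ^ 2) / b := by
        have : 0 ≤ √(u ^ 2 + R ^ 2) / b := by positivity
        linarith
      have h7 : ((w.2 - T) + √(u ^ 2 + R ^ 2) / b) ^ a ≤ (A + incr b R M (w.1 / r) s t) ^ a := by
        gcongr
      have h8 := rpow_add_le_tangent ha0 ha1 hA0 (y := incr b R M (w.1 / r) s t) (by linarith)
      rw [hcost]
      linarith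
  · -- two-jobs regime
    have hcost : cost a b R w = w.1 ^ a + w.2 ^ a + 1 := min_eq_right hc.le
    have htanA : A ^ a ≤ w.2 ^ a + a * w.2 ^ (a - 1) * (r / b) := by
      have := rpow_add_le_tangent ha0 ha1 hw2 (y := r / b)
        (by have : 0 ≤ r / b := by positivity
            linarith)
      rw [hAr]; exact this
    have hw1 : C₁ < w.1 := by
      by_contra hcon
      push Not at hcon
      have hrC : r / b ≤ (C₁ + R) / b := by gcongr; linarith
      have hwp : w.2 ^ (a - 1) ≤ L ^ (a - 1) :=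
        Real.rpow_le_rpow_of_nonpos hL0 hwL (by linarith)
      have : a * w.2 ^ (a - 1) * (r / b) ≤ a * L ^ (a - 1) * ((C₁ + R) / b) := by gcongr
      have h9 : 0 ≤ w.1 ^ a := by positivity
      linarith
    have hw1M : M < w.1 := hC1.trans hw1
    have hw10 : 0 < w.1 := hM.trans_lt hw1M
    have har : a * r ≤ w.1 := by
      apply abs_le_of_sq_le_sq' _ hw10.le |>.2
      rw [mul_pow, hr2]
      have : C₁ ^ 2 ≤ w.1 ^ 2 := by
        have : 0 ≤ C₁ := (hM.trans_lt hC1).le
        gcongr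
      nlinarith
    have hwpow : 0 < w.2 ^ (a - 1) := by positivity
    have hw1pow : 0 < w.1 ^ (a - 1) := by positivity
    have hq1 : b * (w.1 ^ (a - 1) / w.2 ^ (a - 1)) ≤ 1 := by
      have h10 : w.1 ^ a ≤ w.2 ^ (a - 1) * (w.1 / b) := by
        calc w.1 ^ a ≤ a * w.2 ^ (a - 1) * (r / b) := by linarith
          _ = w.2 ^ (a - 1) * (a * r / b) := by ring
          _ ≤ w.2 ^ (a - 1) * (w.1 / b) := by gcongr
      have h11 : w.1 ^ a = w.1 * w.1 ^ (a - 1) := by
        rw [Real.rpow_sub_one hw10.ne']; field_simp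
      rw [h11] at h10
      have h12' : w.1 ^ (a - 1) ≤ w.2 ^ (a - 1) / b := by
        have : w.1 * w.1 ^ (a - 1) ≤ w.1 * (w.2 ^ (a - 1) / b) := by
          calc w.1 * w.1 ^ (a - 1) ≤ w.2 ^ (a - 1) * (w.1 / b) := h10
            _ = w.1 * (w.2 ^ (a - 1) / b) := by ring
        exact le_of_mul_le_mul_left this hw10
      rw [← mul_div_assoc, div_le_one hwpow]
      calc b * w.1 ^ (a - 1) ≤ b * (w.2 ^ (a - 1) / b) := by gcongr
        _ = w.2 ^ (a - 1) := by field_simp
    refine ⟨a * w.2 ^ (a - 1), b * (w.1 ^ (a - 1) / w.2 ^ (a - 1)), by positivity, hq1, ?_, le_rfl,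
      ?_⟩
    · have : (1 + 2 / b) ^ (a - 1) ≤ 1 := by
        apply Real.rpow_le_one_of_one_le_of_nonpos
        · have : 0 ≤ 2 / b := by positivity
          linarith
        · linarith
      calc a * (1 + 2 / b) ^ (a - 1) * w.2 ^ (a - 1) ≤ a * 1 * w.2 ^ (a - 1) := by gcongr
        _ = a * w.2 ^ (a - 1) := by ring
    · intro s t hs ht
      set T := min t M with hT
      have hT0 : 0 ≤ T := le_min ht hM
      have hTM : T ≤ M := min_le_right _ _
      have hstep := cost_kwStep_le ha0 hb hR w s (min_le_left t M)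
      rw [← hT] at hstep
      have hv : max (w.2 - T) 0 = w.2 - T := max_eq_left (by linarith)
      have hu : max (w.1 + s - T) 0 = w.1 + (s - T) := by
        rw [max_eq_left (by linarith)]; ring
      rw [hv, hu] at hstep
      have htwo := cost_sorted_le_two (a := a) (b := b) (R := R) (w.1 + (s - T)) (w.2 - T)
      have ht1 := rpow_add_le_tangent ha0 ha1 hw10 (y := s - T) (by linarith)
      have ht2 := rpow_add_le_tangent ha0 ha1 hw2 (y := -T) (by linarith)
      have e1 : w.2 - T = w.2 + -T := by ring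
      rw [← e1] at ht2
      have hinc : a * w.2 ^ (a - 1) * incr b R M (b * (w.1 ^ (a - 1) / w.2 ^ (a - 1))) s t =
          a * w.1 ^ (a - 1) * (s - T) + a * w.2 ^ (a - 1) * (-T) +
            a * w.2 ^ (a - 1) * ((s ^ 2 + M ^ 2) / (2 * b * R)) := by
        rw [incr, ← hT]
        field_simp
        ring
      have h15 : 0 ≤ a * w.2 ^ (a - 1) * ((s ^ 2 + M ^ 2) / (2 * b * R)) := by positivity
      rw [hcost, hinc]
      linarith

end Pool.Agent.Lib.MP_04add8_pr
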