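import Mathlib
import Pool.Agent.Lib.MP_04add8_pr.Basic
import Pool.Agent.Lib.MP_04add8_pr.Weibull
import Pool.Agent.Lib.MP_04add8_pr.Drift

open MeasureTheory ProbabilityTheory Filter Topology
open scoped ENNReal

set_option linter.unusedSectionVars false

namespace Pool.Agent.Lib.MP_04add8_pr

lemma exp_le_quadratic {z : ℝ} (hz : z ≤ 1) : Real.exp z ≤ 1 + z + z ^ 2 := by
  rcases le_or_gt (-1) z with h | h
  · have := Real.abs_exp_sub_one_sub_id_le (x := z) (abs_le.mpr ⟨h, hz⟩)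
    have := (abs_le.mp this).2
    linarith
  · have h1 : Real.exp z ≤ 1 := by
      rw [Real.exp_le_one_iff]; linarith
    nlinarith

/-- the dominating polynomial -/
noncomputable def domG (b R M s : ℝ) : ℝ := M + (s + M) / b + (s ^ 2 + M ^ 2) / (2 * b * R)

lemma abs_incr_le {b R M q s t : ℝ} (hb : 0 < b) (hR : 0 < R) (hM : 0 ≤ M) (hq : 0 ≤ q)
    (hq1 : q ≤ 1) (hs : 0 ≤ s) (ht : 0 ≤ t) : |incr b R M q s t| ≤ domG b R M s := by
  have hT0 : 0 ≤ min t M := le_min ht hM
  have hTM : min t M ≤ M := min_le_right _ _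
  have h1 : 0 ≤ (s ^ 2 + M ^ 2) / (2 * b * R) := by positivity
  have hqb : q / b ≤ 1 / b := by gcongr
  have hqb0 : 0 ≤ q / b := by positivity
  have hb0 : 0 ≤ 1 / b := by positivity
  have h2 : |q / b * (s - min t M)| ≤ (s + M) / b := by
    rw [abs_mul, abs_of_nonneg hqb0]
    calc q / b * |s - min t M| ≤ 1 / b * (s + M) := by
          gcongr
          rw [abs_le]; constructor <;> linarith
      _ = (s + M) / b := by ring
  have h2' := abs_le.mp h2
  unfold incr domG
  rw [abs_le]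
  constructor <;> linarith

lemma pointwise_bound {a b R M lam c s₀ ε q : ℝ} (ha0 : 0 < a)
    (hb : 0 < b) (hR : 0 < R) (hM : 0 ≤ M) (hl0 : 0 < lam) (hl1 : lam < 1)
    (hc : lam < c) (hs0 : 0 ≤ s₀) (hε : 0 ≤ ε) (hq : 0 ≤ q) (hq1 : q ≤ 1)
    (hsmall : ε * domG b R M s₀ ≤ 1) {J J' s t : ℝ} (hs : 0 ≤ s) (ht : 0 ≤ t)
    (hJ1 : J' ≤ J + s ^ a + 1) (hJ2 : J' ≤ J + ε * incr b R M q s t) :
    Real.exp (lam * J') ≤ Real.exp (lam * J) *
      (1 + lam * ε * incr b R M q s t + (ε * domG b R M s) ^ 2 +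
        Real.exp (1 - (c - lam) * s₀ ^ a) * Real.exp (c * s ^ a)) := by
  set z := lam * ε * incr b R M q s t with hz
  have habs := abs_incr_le hb hR hM hq hq1 hs ht
  have hG0 : 0 ≤ domG b R M s := (abs_nonneg _).trans habs
  have hz2 : z ^ 2 ≤ (ε * domG b R M s) ^ 2 := by
    apply sq_le_sq'
    · have h1 : -(domG b R M s) ≤ incr b R M q s t := (abs_le.mp habs).1
      have h2 : -(ε * domG b R M s) ≤ ε * incr b R M q s t := by nlinarith
      have h3 : 0 ≤ ε * domG b R M s := by positivity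
      rw [hz]
      nlinarith
    · have h1 : incr b R M q s t ≤ domG b R M s := (abs_le.mp habs).2
      have h2 : ε * incr b R M q s t ≤ ε * domG b R M s := by gcongr
      have h3 : 0 ≤ ε * domG b R M s := by positivity
      rw [hz]
      nlinarith
  rcases le_or_gt s s₀ with h | h
  · -- small job
    have h1 : incr b R M q s t ≤ domG b R M s₀ := by
      refine ((abs_le.mp habs).2).trans ?_
      unfold domG
      gcongr
    have hz1 : z ≤ 1 := by
      have h4 : ε * incr b R M q s t ≤ ε * domG b R M s₀ := by gcongr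
      have h5 : ε * incr b R M q s t ≤ 1 := h4.trans hsmall
      rw [hz, mul_assoc]
      nlinarith
    have h2 : Real.exp (lam * J') ≤ Real.exp (lam * J) * Real.exp z := by
      rw [← Real.exp_add]
      apply Real.exp_le_exp.mpr
      rw [hz]
      nlinarith
    refine h2.trans ?_
    gcongr
    have h3 := exp_le_quadratic hz1
    have h4 : 0 ≤ Real.exp (1 - (c - lam) * s₀ ^ a) * Real.exp (c * s ^ a) := by positivity
    linarith
  · -- large job
    have h2 : Real.exp (lam * J') ≤ Real.exp (lam * J) *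
        (Real.exp (1 - (c - lam) * s₀ ^ a) * Real.exp (c * s ^ a)) := by
      rw [← Real.exp_add, ← Real.exp_add]
      apply Real.exp_le_exp.mpr
      have h5 : s₀ ^ a ≤ s ^ a := by gcongr
      have h6 : lam * J' ≤ lam * (J + s ^ a + 1) := by gcongr
      nlinarith
    refine h2.trans ?_
    gcongr
    have h3 : 0 ≤ 1 + z + z ^ 2 := by nlinarith [sq_nonneg (z + 1 / 2)]
    linarith

section integ

variable {a : ℝ} {μ ν : Measure ℝ} [IsProbabilityMeasure μ] [IsProbabilityMeasure ν]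

lemma integrable_domG_sq (ha : 0 < a)
    (hμ : ∀ x, 0 ≤ x → μ (Set.Ioi x) = ENNReal.ofReal (Real.exp (-(x ^ a)))) (b R M : ℝ) :
    Integrable (fun s => domG b R M s ^ 2) μ := by
  have h1 := weibull_integrable_pow ha hμ 1 (by norm_num)
  have h2 := weibull_integrable_pow ha hμ 2 (by norm_num)
  have h3 := weibull_integrable_pow ha hμ 3 (by norm_num)
  have h4 := weibull_integrable_pow ha hμ 4 (by norm_num)
  set k0 := M + M / b + M ^ 2 / (2 * b * R) with hk0
  have : (fun s => domG b R M s ^ 2) = fun s : ℝ =>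
      k0 ^ 2 + (2 * k0 / b) * s ^ 1 + (1 / b ^ 2 + 2 * k0 / (2 * b * R)) * s ^ 2 +
        (2 / b * (1 / (2 * b * R))) * s ^ 3 + (1 / (2 * b * R)) ^ 2 * s ^ 4 := by
    funext s
    unfold domG
    rw [hk0]
    ring
  rw [this]
  exact ((((integrable_const _).add (h1.const_mul _)).add (h2.const_mul _)).add
    (h3.const_mul _)).add (h4.const_mul _)

lemma ae_nonneg_of_Iio (hν : ν (Set.Iio 0) = 0) : ∀ᵐ t ∂ν, 0 ≤ t := by
  rw [ae_iff]
  have : {t : ℝ | ¬ 0 ≤ t} = Set.Iio 0 := by ext; simp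
  rw [this]
  exact hν

lemma min_integrable (hν : ν (Set.Iio 0) = 0) {M : ℝ} (hM : 0 ≤ M) :
    Integrable (fun t => min t M) ν := by
  apply Integrable.mono' (g := fun _ => M) (integrable_const _) (by fun_prop)
  have : ∀ᵐ t ∂ν, 0 ≤ t := ae_nonneg_of_Iio hν
  filter_upwards [this] with t ht
  rw [Real.norm_of_nonneg (le_min ht hM)]
  exact min_le_right _ _

/-- mean of the first order increment -/
lemma integral_incr (ha : 0 < a)
    (hμ : ∀ x, 0 ≤ x → μ (Set.Ioi x) = ENNReal.ofReal (Real.exp (-(x ^ a))))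
    (hν : ν (Set.Iio 0) = 0) {M : ℝ} (hM : 0 ≤ M) (b R q : ℝ) :
    Integrable (fun p : ℝ × ℝ => incr b R M q p.1 p.2) (μ.prod ν) ∧
    ∫ p, incr b R M q p.1 p.2 ∂(μ.prod ν) =
      -(∫ t, min t M ∂ν) + q / b * ((∫ s, s ∂μ) - ∫ t, min t M ∂ν) +
        ((∫ s, s ^ 2 ∂μ) + M ^ 2) / (2 * b * R) := by
  have h1 : Integrable (fun s : ℝ => s) μ := by
    simpa using weibull_integrable_pow ha hμ 1 (by norm_num)
  have h2 := weibull_integrable_pow ha hμ 2 (by norm_num)
  have h3 := min_integrable (M := M) hν hM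
  have i1 : Integrable (fun p : ℝ × ℝ => p.1) (μ.prod ν) := h1.comp_fst ν
  have i2 : Integrable (fun p : ℝ × ℝ => p.1 ^ 2) (μ.prod ν) := h2.comp_fst ν
  have i3 : Integrable (fun p : ℝ × ℝ => min p.2 M) (μ.prod ν) := h3.comp_snd μ
  have e : (fun p : ℝ × ℝ => incr b R M q p.1 p.2) = fun p : ℝ × ℝ =>
      (-(1 + q / b)) * min p.2 M + q / b * p.1 + 1 / (2 * b * R) * p.1 ^ 2 +
        M ^ 2 / (2 * b * R) := by
    funext p
    unfold incr
    ring
  rw [e]
  have hi := (((i3.const_mul (-(1 + q / b))).add (i1.const_mul (q / b))).add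
    (i2.const_mul (1 / (2 * b * R)))).add (integrable_const (μ := μ.prod ν) (M ^ 2 / (2 * b * R)))
  refine ⟨hi, ?_⟩
  rw [integral_add, integral_add, integral_add, integral_const_mul, integral_const_mul,
    integral_const_mul, integral_const]
  · have e1 : ∫ p : ℝ × ℝ, p.1 ∂(μ.prod ν) = ∫ s, s ∂μ := by
      rw [integral_prod _ i1]; simp
    have e2 : ∫ p : ℝ × ℝ, p.1 ^ 2 ∂(μ.prod ν) = ∫ s, s ^ 2 ∂μ := by
      rw [integral_prod _ i2]; simp
    have e3 : ∫ p : ℝ × ℝ, min p.2 M ∂(μ.prod ν) = ∫ t, min t M ∂ν := by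
      rw [integral_prod _ i3]; simp
    rw [e1, e2, e3]
    simp
    ring
  · exact i3.const_mul _
  · exact i1.const_mul _
  · exact (i3.const_mul _).add (i1.const_mul _)
  · exact i2.const_mul _
  · exact ((i3.const_mul _).add (i1.const_mul _)).add (i2.const_mul _)
  · exact integrable_const _

/-- one-step expectation bound for large workloads -/
lemma lintegral_step_le (ha0 : 0 < a)
    (hμ : ∀ x, 0 ≤ x → μ (Set.Ioi x) = ENNReal.ofReal (Real.exp (-(x ^ a))))
    (hν : ν (Set.Iio 0) = 0) {b R M lam c s₀ ε q : ℝ}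
    (hb : 0 < b) (hR : 0 < R) (hM : 0 ≤ M) (hl0 : 0 < lam) (hl1 : lam < 1)
    (hc : lam < c) (hc1 : c < 1) (hs0 : 0 ≤ s₀) (hε : 0 ≤ ε) (hq : 0 ≤ q) (hq1 : q ≤ 1)
    (hsmall : ε * domG b R M s₀ ≤ 1) {w : ℝ × ℝ}
    (hJ1 : ∀ s t : ℝ, 0 ≤ s → 0 ≤ t →
      cost a b R (kwStep w s t) ≤ cost a b R w + s ^ a + 1)
    (hJ2 : ∀ s t : ℝ, 0 ≤ s → 0 ≤ t →
      cost a b R (kwStep w s t) ≤ cost a b R w + ε * incr b R M q s t) :
    ∫⁻ p, ENNReal.ofReal (Real.exp (lam * cost a b R (kwStep w p.1 p.2))) ∂(μ.prod ν) ≤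
      ENNReal.ofReal (Real.exp (lam * cost a b R w) *
        (1 + lam * ε * (∫ p : ℝ × ℝ, incr b R M q p.1 p.2 ∂(μ.prod ν)) +
          ε ^ 2 * (∫ s, domG b R M s ^ 2 ∂μ) +
          Real.exp (1 - (c - lam) * s₀ ^ a) * (1 / (1 - c)))) := by
  have hspos : ∀ᵐ p ∂(μ.prod ν), 0 ≤ p.1 ∧ 0 ≤ p.2 := by
    have h1 : ∀ᵐ p ∂(μ.prod ν), 0 ≤ p.1 := by
      have := (Measure.quasiMeasurePreserving_fst (μ := μ) (ν := ν)).ae
        ((weibull_ae_pos ha0 hμ).mono fun s hs => hs.le)
      exact this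
    have h2 : ∀ᵐ p ∂(μ.prod ν), 0 ≤ p.2 := by
      have := (Measure.quasiMeasurePreserving_snd (μ := μ) (ν := ν)).ae (ae_nonneg_of_Iio hν)
      exact this
    filter_upwards [h1, h2] with p hp1 hp2 using ⟨hp1, hp2⟩
  obtain ⟨hi1, -⟩ := integral_incr (ν := ν) ha0 hμ hν hM b R q
  have hi2 : Integrable (fun p : ℝ × ℝ => domG b R M p.1 ^ 2) (μ.prod ν) :=
    (integrable_domG_sq ha0 hμ b R M).comp_fst ν
  have hi3 : Integrable (fun p : ℝ × ℝ => Real.exp (c * p.1 ^ a)) (μ.prod ν) :=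
    (weibull_integrable_exp ha0 hμ (hl0.trans hc).le hc1).comp_fst ν
  set F : ℝ × ℝ → ℝ := fun p => Real.exp (lam * cost a b R w) *
      (1 + lam * ε * incr b R M q p.1 p.2 + (ε * domG b R M p.1) ^ 2 +
        Real.exp (1 - (c - lam) * s₀ ^ a) * Real.exp (c * p.1 ^ a)) with hF
  have hFint : Integrable F (μ.prod ν) := by
    apply Integrable.const_mul
    have e : (fun p : ℝ × ℝ => 1 + lam * ε * incr b R M q p.1 p.2 + (ε * domG b R M p.1) ^ 2 +
        Real.exp (1 - (c - lam) * s₀ ^ a) * Real.exp (c * p.1 ^ a)) =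
        fun p : ℝ × ℝ => 1 + (lam * ε) * incr b R M q p.1 p.2 + ε ^ 2 * domG b R M p.1 ^ 2 +
        Real.exp (1 - (c - lam) * s₀ ^ a) * Real.exp (c * p.1 ^ a) := by
      funext p; ring
    rw [e]
    exact (((integrable_const _).add (hi1.const_mul _)).add (hi2.const_mul _)).add
      (hi3.const_mul _)
  have hFle : ∀ᵐ p ∂(μ.prod ν),
      Real.exp (lam * cost a b R (kwStep w p.1 p.2)) ≤ F p := by
    filter_upwards [hspos] with p hp
    exact pointwise_bound ha0 hb hR hM hl0 hl1 hc hs0 hε hq hq1 hsmall hp.1 hp.2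
      (hJ1 _ _ hp.1 hp.2) (hJ2 _ _ hp.1 hp.2)
  have hF0 : 0 ≤ᵐ[μ.prod ν] F := by
    filter_upwards [hFle] with p hp
    exact (Real.exp_pos _).le.trans hp
  calc ∫⁻ p, ENNReal.ofReal (Real.exp (lam * cost a b R (kwStep w p.1 p.2))) ∂(μ.prod ν)
      ≤ ∫⁻ p, ENNReal.ofReal (F p) ∂(μ.prod ν) := by
        apply lintegral_mono_ae
        filter_upwards [hFle] with p hp
        exact ENNReal.ofReal_le_ofReal hp
    _ = ENNReal.ofReal (∫ p, F p ∂(μ.prod ν)) := by
        rw [ofReal_integral_eq_lintegral_ofReal hFint hF0]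
    _ ≤ _ := by
        apply ENNReal.ofReal_le_ofReal
        rw [hF, integral_const_mul]
        gcongr
        have e : (fun p : ℝ × ℝ => 1 + lam * ε * incr b R M q p.1 p.2 +
            (ε * domG b R M p.1) ^ 2 +
            Real.exp (1 - (c - lam) * s₀ ^ a) * Real.exp (c * p.1 ^ a)) =
            fun p : ℝ × ℝ => 1 + (lam * ε) * incr b R M q p.1 p.2 + ε ^ 2 * domG b R M p.1 ^ 2 +
            Real.exp (1 - (c - lam) * s₀ ^ a) * Real.exp (c * p.1 ^ a) := by
          funext p; ring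
        rw [e, integral_add, integral_add, integral_add, integral_const_mul, integral_const_mul,
          integral_const_mul, integral_const]
        · have e2 : ∫ p : ℝ × ℝ, domG b R M p.1 ^ 2 ∂(μ.prod ν) = ∫ s, domG b R M s ^ 2 ∂μ := by
            rw [integral_prod _ hi2]; simp
          have e3 : ∫ p : ℝ × ℝ, Real.exp (c * p.1 ^ a) ∂(μ.prod ν) =
              ∫ s, Real.exp (c * s ^ a) ∂μ := by
            rw [integral_prod _ hi3]; simp
          rw [e2, e3]
          have h5 := weibull_integral_exp_le ha0 hμ (hl0.trans hc).le hc1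
          simp only [probReal_univ, smul_eq_mul, one_mul]
          gcongr
        · exact integrable_const _
        · exact hi1.const_mul _
        · exact (integrable_const _).add (hi1.const_mul _)
        · exact hi2.const_mul _
        · exact ((integrable_const _).add (hi1.const_mul _)).add (hi2.const_mul _)
        · exact hi3.const_mul _

end integ

end Pool.Agent.Lib.MP_04add8_pr
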