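import Mathlib
import Pool.Agent.Lib.MP_04add8_pr.Basic
import Pool.Agent.Lib.MP_04add8_pr.Weibull
import Pool.Agent.Lib.MP_04add8_pr.Drift
import Pool.Agent.Lib.MP_04add8_pr.DriftInt

open MeasureTheory ProbabilityTheory Filter Topology
open scoped ENNReal

set_option linter.unusedSectionVars false

namespace Pool.Agent.Lib.MP_04add8_pr

/-- the smallness conditions hold eventually -/
lemma small_eventually {a lam c δ b R M C₂ : ℝ} (ha0 : 0 < a) (hl0 : 0 < lam)
    (hc : lam < c) (hc1 : c < 1) (hδ : 0 < δ) :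
    ∀ᶠ y : ℝ in atTop, (1 / y) * domG b R M (y ^ (1 / 4 : ℝ)) ≤ 1 ∧
      (1 / y) ^ 2 * C₂ ≤ lam * (1 / y) * δ / 4 ∧
      Real.exp (1 - (c - lam) * (y ^ (1 / 4 : ℝ)) ^ a) * (1 / (1 - c)) ≤
        lam * (1 / y) * δ / 4 := by
  have hinv : Tendsto (fun y : ℝ => 1 / y) atTop (𝓝 0) := by
    simpa using tendsto_inv_atTop_zero
  have h1 : Tendsto (fun y : ℝ => (1 / y) * domG b R M (y ^ (1 / 4 : ℝ))) atTop (𝓝 0) := by
    have e : (fun y : ℝ => (M + M / b + M ^ 2 / (2 * b * R)) * (1 / y) +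
        (1 / b) * y ^ (-(3 / 4) : ℝ) + (1 / (2 * b * R)) * y ^ (-(1 / 2) : ℝ)) =ᶠ[atTop]
        (fun y : ℝ => (1 / y) * domG b R M (y ^ (1 / 4 : ℝ))) := by
      filter_upwards [eventually_gt_atTop 0] with y hy
      have e1 : y ^ (-(3 / 4) : ℝ) = (1 / y) * y ^ (1 / 4 : ℝ) := by
        rw [one_div, ← Real.rpow_neg_one y, ← Real.rpow_add hy]; norm_num
      have e2 : y ^ (-(1 / 2) : ℝ) = (1 / y) * (y ^ (1 / 4 : ℝ)) ^ 2 := by
        have e3 : (y ^ (1 / 4 : ℝ)) ^ 2 = y ^ (1 / 2 : ℝ) := by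
          rw [← Real.rpow_natCast, ← Real.rpow_mul hy.le]; norm_num
        have e4 : (1 : ℝ) / y = y ^ (-1 : ℝ) := by rw [Real.rpow_neg_one, one_div]
        rw [e3, e4, ← Real.rpow_add hy]; norm_num
      rw [e1, e2]
      unfold domG
      ring
    refine Tendsto.congr' e ?_
    have t1 : Tendsto (fun y : ℝ => (M + M / b + M ^ 2 / (2 * b * R)) * (1 / y)) atTop (𝓝 0) := by
      simpa using hinv.const_mul (M + M / b + M ^ 2 / (2 * b * R))
    have t2 : Tendsto (fun y : ℝ => (1 / b) * y ^ (-(3 / 4) : ℝ)) atTop (𝓝 0) := by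
      simpa using (tendsto_rpow_neg_atTop (y := 3 / 4) (by norm_num)).const_mul (1 / b)
    have t3 : Tendsto (fun y : ℝ => (1 / (2 * b * R)) * y ^ (-(1 / 2) : ℝ)) atTop (𝓝 0) := by
      simpa using (tendsto_rpow_neg_atTop (y := 1 / 2) (by norm_num)).const_mul (1 / (2 * b * R))
    simpa using (t1.add t2).add t3
  have h2 : Tendsto (fun y : ℝ => (1 / y) * C₂) atTop (𝓝 0) := by
    simpa using hinv.mul_const C₂
  have h3 : Tendsto (fun y : ℝ => (y ^ (a / 4)) ^ (4 / a) *
      Real.exp (-(c - lam) * y ^ (a / 4))) atTop (𝓝 0) := by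
    have hy : Tendsto (fun y : ℝ => y ^ (a / 4)) atTop atTop := tendsto_rpow_atTop (by positivity)
    exact (tendsto_rpow_mul_exp_neg_mul_atTop_nhds_zero (4 / a) (c - lam) (by linarith)).comp hy
  have hlδ : 0 < lam * δ / 4 := by positivity
  have hc1' : 0 < 1 - c := by linarith
  have h3' := h3.eventually (gt_mem_nhds (show 0 < lam * δ / 4 * (1 - c) / Real.exp 1 by positivity))
  filter_upwards [h1.eventually (ge_mem_nhds zero_lt_one), h2.eventually (gt_mem_nhds hlδ), h3',
    eventually_gt_atTop 0] with y hy1 hy2 hy3 hy0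
  refine ⟨hy1, ?_, ?_⟩
  · have : (1 / y) ^ 2 * C₂ = (1 / y) * ((1 / y) * C₂) := by ring
    rw [this]
    calc (1 / y) * ((1 / y) * C₂) ≤ (1 / y) * (lam * δ / 4) := by gcongr
      _ = _ := by ring
  · have e1 : (y ^ (a / 4)) ^ (4 / a) = y := by
      rw [← Real.rpow_mul hy0.le]
      have : a / 4 * (4 / a) = 1 := by field_simp
      rw [this, Real.rpow_one]
    have e2 : (y ^ (1 / 4 : ℝ)) ^ a = y ^ (a / 4) := by
      rw [← Real.rpow_mul hy0.le]; congr 1; ring
    rw [e1] at hy3
    rw [e2]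
    have e3 : Real.exp (1 - (c - lam) * y ^ (a / 4)) =
        Real.exp 1 * Real.exp (-(c - lam) * y ^ (a / 4)) := by
      rw [← Real.exp_add]; congr 1; ring
    rw [e3]
    have h4 : Real.exp (-(c - lam) * y ^ (a / 4)) ≤ (1 / y) * (lam * δ / 4 * (1 - c) / Real.exp 1) := by
      rw [one_div, ← div_eq_inv_mul, le_div_iff₀ hy0, mul_comm]
      exact hy3.le
    calc Real.exp 1 * Real.exp (-(c - lam) * y ^ (a / 4)) * (1 / (1 - c))
        ≤ Real.exp 1 * ((1 / y) * (lam * δ / 4 * (1 - c) / Real.exp 1)) * (1 / (1 - c)) := by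
          gcongr
      _ = lam * (1 / y) * δ / 4 := by
          have := Real.exp_pos 1
          field_simp

section main

variable {a : ℝ} {μ ν : Measure ℝ} [IsProbabilityMeasure μ] [IsProbabilityMeasure ν]

lemma tendsto_integral_min (hν : ν (Set.Iio 0) = 0) (hνi : Integrable (fun t : ℝ => t) ν) :
    Tendsto (fun n : ℕ => ∫ t, min t (n : ℝ) ∂ν) atTop (𝓝 (∫ t, t ∂ν)) := by
  apply tendsto_integral_of_dominated_convergence (fun t => |t|)
  · intro n; fun_prop
  · exact hνi.abs
  · intro n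
    filter_upwards [ae_nonneg_of_Iio hν] with t ht
    rw [Real.norm_of_nonneg (le_min ht (by positivity))]
    exact (min_le_left _ _).trans (le_abs_self _)
  · filter_upwards with t
    have : (fun n : ℕ => min t (n : ℝ)) =ᶠ[atTop] fun _ => t := by
      obtain ⟨N, hN⟩ := exists_nat_ge t
      filter_upwards [eventually_ge_atTop N] with n hn
      apply min_eq_left
      have : (N : ℝ) ≤ n := by exact_mod_cast hn
      linarith
    exact (tendsto_congr' this).mpr tendsto_const_nhds

/-- **Drift condition**: existence of a Lyapunov function. -/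
theorem drift_exists (ha0 : 0 < a) (ha1 : a < 1)
    (hμ : ∀ x, 0 ≤ x → μ (Set.Ioi x) = ENNReal.ofReal (Real.exp (-(x ^ a))))
    (hν : ν (Set.Iio 0) = 0) (hνi : Integrable (fun t : ℝ => t) ν)
    (hgt : (∫ t, t ∂ν) < ∫ s, s ∂μ)
    {b : ℝ} (hb : 0 < b) (hb1 : b < 1) (hbm : (∫ s, s ∂μ) < (1 + b) * ∫ t, t ∂ν)
    {lam : ℝ} (hl0 : 0 < lam) (hl1 : lam < 1) :
    ∃ R L k K : ℝ, 0 < R ∧ 0 < L ∧ 0 < k ∧ 0 ≤ K ∧
      ∀ w : ℝ × ℝ, 0 ≤ w.1 → w.1 ≤ w.2 →
        ∫⁻ p, ENNReal.ofReal (Real.exp (lam * cost a b R (kwStep w p.1 p.2))) ∂(μ.prod ν) +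
          (if L ≤ w.2 then
            ENNReal.ofReal (k * w.2 ^ (a - 1) * Real.exp (lam * cost a b R w)) else 0) ≤
          ENNReal.ofReal (Real.exp (lam * cost a b R w)) + ENNReal.ofReal K := by
  set E1 := ∫ s, s ∂μ with hE1
  set E2 := ∫ s, s ^ 2 ∂μ with hE2
  set m := ∫ t, t ∂ν with hm
  have hE2nn : 0 ≤ E2 := integral_nonneg fun s => by positivity
  -- choose M
  obtain ⟨M, hM1, hM0⟩ : ∃ M : ℝ, E1 < (1 + b) * ∫ t, min t M ∂ν ∧ 0 ≤ M := by
    have h1 : Tendsto (fun n : ℕ => (1 + b) * ∫ t, min t (n : ℝ) ∂ν) atTop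
        (𝓝 ((1 + b) * m)) := (tendsto_integral_min hν hνi).const_mul _
    obtain ⟨n, hn⟩ := (h1.eventually (lt_mem_nhds hbm)).exists
    exact ⟨n, hn, by positivity⟩
  set m' := ∫ t, min t M ∂ν with hm'
  have hm'm : m' ≤ m := by
    apply integral_mono_ae (min_integrable hν hM0) hνi
    filter_upwards with t
    exact min_le_left _ _
  have hEm' : 0 < E1 - m' := by linarith
  set δ := (m' - (E1 - m') / b) / 2 with hδ
  have hδ0 : 0 < δ := by
    rw [hδ]
    have : (E1 - m') / b < m' := by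
      rw [div_lt_iff₀ hb]; linarith
    linarith
  -- choose R
  set R := (E2 + M ^ 2 + 1) / (2 * b * δ) with hR
  have hR0 : 0 < R := by positivity
  have hRδ : (E2 + M ^ 2) / (2 * b * R) ≤ δ := by
    rw [div_le_iff₀ (by positivity), hR]
    have : δ * (2 * b * ((E2 + M ^ 2 + 1) / (2 * b * δ))) = E2 + M ^ 2 + 1 := by
      field_simp
    rw [this]; linarith
  have ha2 : 0 < 1 - a ^ 2 := by nlinarith
  have hb2 : 0 < 1 - b ^ 2 := by nlinarith
  set C₁ := M + 1 + R / (1 - a ^ 2) with hC₁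
  have hC₁M : M < C₁ := by
    have : 0 < R / (1 - a ^ 2) := by positivity
    rw [hC₁]; linarith
  have hC₁0 : 0 < C₁ := hM0.trans_lt hC₁M
  have hC₁cond : a ^ 2 * (C₁ ^ 2 + R ^ 2) ≤ C₁ ^ 2 := by
    have h1 : R ≤ (1 - a ^ 2) * C₁ := by
      rw [hC₁]
      have : (1 - a ^ 2) * (M + 1 + R / (1 - a ^ 2)) = (1 - a ^ 2) * (M + 1) + R := by
        field_simp
      rw [this]
      have : 0 ≤ (1 - a ^ 2) * (M + 1) := by positivity
      linarith
    have h2 : R ^ 2 ≤ ((1 - a ^ 2) * C₁) ^ 2 := by gcongr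
    nlinarith [sq_nonneg (a * C₁), sq_nonneg C₁, mul_pos ha2 (by positivity : 0 < C₁ ^ 2)]
  -- constants
  set c := (1 + lam) / 2 with hcdef
  have hc : lam < c := by rw [hcdef]; linarith
  have hc1 : c < 1 := by rw [hcdef]; linarith
  set C₂ := ∫ s, domG b R M s ^ 2 ∂μ with hC₂
  have hC₂nn : 0 ≤ C₂ := integral_nonneg fun s => by positivity
  obtain ⟨Y₀, hY₀⟩ := (small_eventually (a := a) (b := b) (R := R) (M := M) (C₂ := C₂)
    ha0 hl0 hc hc1 hδ0).exists_forall_of_atTop
  set Y := max Y₀ 1 with hY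
  have hY1 : 1 ≤ Y := le_max_right _ _
  -- choose L
  have hrp : Tendsto (fun x : ℝ => x ^ (a - 1)) atTop (𝓝 0) := by
    have := tendsto_rpow_neg_atTop (y := 1 - a) (by linarith)
    simpa using this
  obtain ⟨L, hL1, hL2, hL3⟩ : ∃ L : ℝ, (max (max (M + 1) R) (M + R / (1 - b ^ 2)) ≤ L) ∧
      a * L ^ (a - 1) * ((C₁ + R) / b) ≤ 1 ∧ a * L ^ (a - 1) ≤ 1 / Y := by
    have h1 : Tendsto (fun x : ℝ => a * x ^ (a - 1) * ((C₁ + R) / b)) atTop (𝓝 0) := by
      simpa using (hrp.const_mul a).mul_const ((C₁ + R) / b)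
    have h2 : Tendsto (fun x : ℝ => a * x ^ (a - 1)) atTop (𝓝 0) := by
      simpa using hrp.const_mul a
    have h3 := h1.eventually (ge_mem_nhds zero_lt_one)
    have h4 := h2.eventually (ge_mem_nhds (show 0 < 1 / Y by positivity))
    obtain ⟨L, hL⟩ := ((eventually_ge_atTop (max (max (M + 1) R) (M + R / (1 - b ^ 2)))).and
      (h3.and h4)).exists
    exact ⟨L, hL.1, hL.2.1, hL.2.2⟩
  have hLM : M < L := by
    have := (le_max_left _ _).trans ((le_max_left _ _).trans hL1)
    linarith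
  have hLR : R ≤ L := (le_max_right _ _).trans ((le_max_left _ _).trans hL1)
  have hLb : M + R / (1 - b ^ 2) ≤ L := (le_max_right _ _).trans hL1
  have hL0 : 0 < L := hM0.trans_lt hLM
  have hLcond' : ∀ x, L ≤ x → b ^ 2 * ((x - M) ^ 2 + R ^ 2) ≤ (x - M) ^ 2 := by
    intro x hx
    have h1 : R ≤ (1 - b ^ 2) * (x - M) := by
      have : R / (1 - b ^ 2) ≤ x - M := by linarith
      rw [div_le_iff₀ hb2] at this
      linarith
    have hxM : 0 < x - M := by linarith
    have h2 : R ^ 2 ≤ ((1 - b ^ 2) * (x - M)) ^ 2 := by gcongr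
    nlinarith [sq_nonneg (b * (x - M)), mul_pos hb2 (by positivity : 0 < (x - M) ^ 2)]
  set c₁ := a * (1 + 2 / b) ^ (a - 1) with hc₁
  have hc₁0 : 0 < c₁ := by positivity
  refine ⟨R, L, lam * δ / 2 * c₁, Real.exp (lam * (2 * L ^ a + 1)) * (1 / (1 - lam)), hR0, hL0,
    by positivity, by
      have : 0 < 1 - lam := by linarith
      positivity, ?_⟩
  intro w hw1 hw12
  by_cases hwL : L ≤ w.2
  · rw [if_pos hwL]
    obtain ⟨ε, q, hq0, hq1, hε1, hε2, hJ2⟩ := cost_kwStep_le_incr (M := M) ha0 ha1 hb hb1 hR0 hM0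
      hC₁M hC₁cond hLM hLR (hLcond' L le_rfl) hL2 hw1 hw12 hwL
    have hw2 : 0 < w.2 := hL0.trans_le hwL
    have hJ1 : ∀ s t : ℝ, 0 ≤ s → 0 ≤ t →
        cost a b R (kwStep w s t) ≤ cost a b R w + s ^ a + 1 := fun s t hs ht =>
      cost_kwStep_le_add ha0 ha1 hb hb1 hR0 hM0 hw1 (by linarith) (hLcond' w.2 hwL) hs ht
    have hwp : w.2 ^ (a - 1) ≤ L ^ (a - 1) :=
      Real.rpow_le_rpow_of_nonpos hL0 hwL (by linarith)
    have hε0 : 0 < ε := lt_of_lt_of_le (by positivity) hε1
    have hεY : ε ≤ 1 / Y := by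
      calc ε ≤ a * w.2 ^ (a - 1) := hε2
        _ ≤ a * L ^ (a - 1) := by gcongr
        _ ≤ 1 / Y := hL3
    have hyY : Y₀ ≤ 1 / ε := by
      have h1 : Y ≤ 1 / ε := by
        rw [le_div_iff₀ hε0]
        rw [le_div_iff₀ (by positivity)] at hεY
        linarith
      exact (le_max_left _ _).trans h1
    obtain ⟨hs1, hs2, hs3⟩ := hY₀ (1 / ε) hyY
    have e1 : (1 : ℝ) / (1 / ε) = ε := by field_simp
    rw [e1] at hs1 hs2 hs3
    have hs0' : 0 ≤ (1 / ε) ^ (1 / 4 : ℝ) := by positivity
    have hmain := lintegral_step_le (ν := ν) ha0 hμ hν hb hR0 hM0 hl0 hl1 hc hc1 hs0' hε0.le hq0 hq1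
      hs1 hJ1 hJ2
    have hint := (integral_incr (ν := ν) ha0 hμ hν hM0 b R q).2
    have hincr : ∫ p : ℝ × ℝ, incr b R M q p.1 p.2 ∂(μ.prod ν) ≤ -δ := by
      rw [hint]
      have h5 : q / b * (E1 - m') ≤ 1 / b * (E1 - m') := by gcongr
      have h6 : -m' + 1 / b * (E1 - m') = -(2 * δ) := by rw [hδ]; ring
      linarith
    have hbr : 1 + lam * ε * (∫ p : ℝ × ℝ, incr b R M q p.1 p.2 ∂(μ.prod ν)) +
          ε ^ 2 * C₂ +
          Real.exp (1 - (c - lam) * ((1 / ε) ^ (1 / 4 : ℝ)) ^ a) * (1 / (1 - c)) ≤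
        1 - lam * ε * δ / 2 := by
      have h7 : lam * ε * (∫ p : ℝ × ℝ, incr b R M q p.1 p.2 ∂(μ.prod ν)) ≤
          lam * ε * (-δ) := by gcongr
      linarith
    have hfin : Real.exp (lam * cost a b R w) *
        (1 + lam * ε * (∫ p : ℝ × ℝ, incr b R M q p.1 p.2 ∂(μ.prod ν)) +
          ε ^ 2 * C₂ +
          Real.exp (1 - (c - lam) * ((1 / ε) ^ (1 / 4 : ℝ)) ^ a) * (1 / (1 - c))) ≤
        Real.exp (lam * cost a b R w) -
          lam * δ / 2 * c₁ * w.2 ^ (a - 1) * Real.exp (lam * cost a b R w) := by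
      calc _ ≤ Real.exp (lam * cost a b R w) * (1 - lam * ε * δ / 2) := by gcongr
        _ ≤ Real.exp (lam * cost a b R w) * (1 - lam * δ / 2 * (c₁ * w.2 ^ (a - 1))) := by
            gcongr
            have : lam * δ / 2 * (c₁ * w.2 ^ (a - 1)) ≤ lam * δ / 2 * ε := by gcongr
            linarith
        _ = _ := by ring
    have hg0 : 0 ≤ lam * δ / 2 * c₁ * w.2 ^ (a - 1) * Real.exp (lam * cost a b R w) := by
      positivity
    calc _ ≤ ENNReal.ofReal (Real.exp (lam * cost a b R w) -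
          lam * δ / 2 * c₁ * w.2 ^ (a - 1) * Real.exp (lam * cost a b R w)) +
          ENNReal.ofReal (lam * δ / 2 * c₁ * w.2 ^ (a - 1) * Real.exp (lam * cost a b R w)) := by
            gcongr
            exact hmain.trans (ENNReal.ofReal_le_ofReal hfin)
      _ ≤ ENNReal.ofReal (Real.exp (lam * cost a b R w)) := by
            by_cases hneg : 0 ≤ Real.exp (lam * cost a b R w) -
              lam * δ / 2 * c₁ * w.2 ^ (a - 1) * Real.exp (lam * cost a b R w)
            · rw [← ENNReal.ofReal_add hneg hg0]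
              apply ENNReal.ofReal_le_ofReal
              linarith
            · exfalso
              -- the expectation is nonnegative, so the bound is nonnegative
              have h8 : Real.exp (lam * cost a b R w) * (1 - lam * ε * δ / 2) < 0 ∨
                  0 ≤ Real.exp (lam * cost a b R w) -
                lam * δ / 2 * c₁ * w.2 ^ (a - 1) * Real.exp (lam * cost a b R w) := by
                by_cases h9 : 0 ≤ 1 - lam * ε * δ / 2
                · right
                  have : Real.exp (lam * cost a b R w) * (1 - lam * ε * δ / 2) ≤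
                    Real.exp (lam * cost a b R w) * (1 - lam * δ / 2 * (c₁ * w.2 ^ (a - 1))) := by
                    gcongr
                    have : lam * δ / 2 * (c₁ * w.2 ^ (a - 1)) ≤ lam * δ / 2 * ε := by gcongr
                    linarith
                  have h10 : 0 ≤ Real.exp (lam * cost a b R w) * (1 - lam * ε * δ / 2) := by
                    positivity
                  linarith
                · left
                  push Not at h9
                  exact mul_neg_of_pos_of_neg (Real.exp_pos _) h9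
              rcases h8 with h8 | h8
              · have h9 : 1 - lam * ε * δ / 2 < 0 := by
                  by_contra hcon
                  push Not at hcon
                  have : 0 ≤ Real.exp (lam * cost a b R w) * (1 - lam * ε * δ / 2) := by
                    positivity
                  linarith
                have h10 : 0 < Real.exp (1 - (c - lam) * ((1 / ε) ^ (1 / 4 : ℝ)) ^ a) *
                    (1 / (1 - c)) := by
                  have : 0 < 1 - c := by linarith
                  positivity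
                -- the pointwise bound is positive in expectation
                have h11 := hmain.trans (ENNReal.ofReal_le_ofReal
                  (mul_le_mul_of_nonneg_left hbr (Real.exp_pos (lam * cost a b R w)).le))
                rw [ENNReal.ofReal_of_nonpos h8.le] at h11
                have h12 : ∫⁻ p, ENNReal.ofReal (Real.exp (lam * cost a b R (kwStep w p.1 p.2)))
                    ∂(μ.prod ν) ≠ 0 := by
                  have hmeas : Measurable fun p : ℝ × ℝ =>
                      ENNReal.ofReal (Real.exp (lam * cost a b R (kwStep w p.1 p.2))) := by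
                    unfold cost bigA kwStep
                    fun_prop
                  rw [Ne, lintegral_eq_zero_iff hmeas]
                  intro hz
                  have hne : ∀ p : ℝ × ℝ,
                      ENNReal.ofReal (Real.exp (lam * cost a b R (kwStep w p.1 p.2))) ≠ 0 :=
                    fun p => by simp [Real.exp_pos]
                  obtain ⟨p, hp⟩ := hz.exists
                  exact hne p hp
                exact h12 (le_antisymm h11 zero_le)
              · exact hneg h8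
      _ ≤ _ := le_self_add
  · rw [if_neg hwL, add_zero]
    push Not at hwL
    have hspos : ∀ᵐ p ∂(μ.prod ν), 0 ≤ p.1 ∧ 0 ≤ p.2 := by
      have h1 : ∀ᵐ p ∂(μ.prod ν), 0 ≤ p.1 := by
        have := (Measure.quasiMeasurePreserving_fst (μ := μ) (ν := ν)).ae
          ((weibull_ae_pos ha0 hμ).mono fun s hs => hs.le)
        exact this
      have h2 : ∀ᵐ p ∂(μ.prod ν), 0 ≤ p.2 := by
        have := (Measure.quasiMeasurePreserving_snd (μ := μ) (ν := ν)).ae (ae_nonneg_of_Iio hν)
        exact this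
      filter_upwards [h1, h2] with p hp1 hp2 using ⟨hp1, hp2⟩
    have hw2 : 0 ≤ w.2 := hw1.trans hw12
    have h3 : ∫⁻ p, ENNReal.ofReal (Real.exp (lam * cost a b R (kwStep w p.1 p.2))) ∂(μ.prod ν) ≤
        ∫⁻ p, ENNReal.ofReal (Real.exp (lam * (2 * L ^ a + 1))) *
          ENNReal.ofReal (Real.exp (lam * p.1 ^ a)) ∂(μ.prod ν) := by
      apply lintegral_mono_ae
      filter_upwards [hspos] with p hp
      rw [← ENNReal.ofReal_mul (Real.exp_pos _).le, ← Real.exp_add]
      apply ENNReal.ofReal_le_ofReal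
      apply Real.exp_le_exp.mpr
      have h4 := cost_sorted_le_two (a := a) (b := b) (R := R) (max (w.1 + p.1 - p.2) 0)
        (max (w.2 - p.2) 0)
      rw [← kwStep_eq] at h4
      have h5 : (max (w.1 + p.1 - p.2) 0) ^ a ≤ (w.1 + p.1) ^ a := by
        have : max (w.1 + p.1 - p.2) 0 ≤ w.1 + p.1 := max_le (by linarith) (by linarith)
        gcongr
      have h6 : (max (w.2 - p.2) 0) ^ a ≤ L ^ a := by
        have : max (w.2 - p.2) 0 ≤ L := max_le (by linarith) hL0.le
        gcongr
      have h7 := rpow_add_le_add ha0 ha1 hw1 hp.1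
      have h8 : w.1 ^ a ≤ L ^ a := by
        have : w.1 ≤ L := by linarith
        gcongr
      have h9 : cost a b R (kwStep w p.1 p.2) ≤ 2 * L ^ a + 1 + p.1 ^ a := by linarith
      nlinarith
    refine h3.trans ?_
    rw [lintegral_const_mul _ (by fun_prop)]
    have h10 : ∫⁻ p : ℝ × ℝ, ENNReal.ofReal (Real.exp (lam * p.1 ^ a)) ∂(μ.prod ν) =
        ∫⁻ s, ENNReal.ofReal (Real.exp (lam * s ^ a)) ∂μ := by
      rw [lintegral_prod _ (by fun_prop)]
      simp
    rw [h10]
    have h11 := weibull_lintegral_exp ha0 hμ hl0.le hl1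
    calc ENNReal.ofReal (Real.exp (lam * (2 * L ^ a + 1))) *
          ∫⁻ s, ENNReal.ofReal (Real.exp (lam * s ^ a)) ∂μ
        ≤ ENNReal.ofReal (Real.exp (lam * (2 * L ^ a + 1))) * ENNReal.ofReal (1 / (1 - lam)) := by
          gcongr
      _ = ENNReal.ofReal (Real.exp (lam * (2 * L ^ a + 1)) * (1 / (1 - lam))) := by
          rw [ENNReal.ofReal_mul (Real.exp_pos _).le]
      _ ≤ _ := le_add_self

end main

end Pool.Agent.Lib.MP_04add8_pr
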