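import Mathlib
import Pool.Agent.Lib.MP_04add8_pr.Upper

open MeasureTheory ProbabilityTheory Filter Topology
open scoped ENNReal

set_option linter.unusedSectionVars false

namespace Pool.Agent.Lib.MP_04add8_pr

variable {a : ℝ} {μ ν : Measure ℝ} [IsProbabilityMeasure μ] [IsProbabilityMeasure ν]

lemma measurable_cost (a b R : ℝ) : Measurable (cost a b R) := by
  unfold cost bigA
  fun_prop

/-- **Upper bound** for the tail of the stationary waiting time. -/
theorem tail_upper (ha0 : 0 < a) (ha1 : a < 1)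
    (hμ : ∀ x, 0 ≤ x → μ (Set.Ioi x) = ENNReal.ofReal (Real.exp (-(x ^ a))))
    (hν : ν (Set.Iio 0) = 0) (hνi : Integrable (fun t : ℝ => t) ν)
    (hgt : (∫ t, t ∂ν) < ∫ s, s ∂μ)
    {b : ℝ} (hb : 0 < b) (hb1 : b < 1) (hbm : (∫ s, s ∂μ) < (1 + b) * ∫ t, t ∂ν)
    {lam' : ℝ} (hl0' : 0 < lam') (hl1' : lam' < 1) :
    ∃ C x₀ : ℝ, 0 ≤ C ∧ 0 ≤ x₀ ∧ ∀ π : Measure (ℝ × ℝ), IsStationaryKW μ ν π →
      ∀ x, x₀ ≤ x → π.real {w | x < w.1} ≤
        C * Real.exp (-(lam' * min ((1 + 1 / b) ^ a) 2 * x ^ a)) := by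
  set lam := (1 + lam') / 2 with hlam
  have hl0 : 0 < lam := by rw [hlam]; linarith
  have hl1 : lam < 1 := by rw [hlam]; linarith
  set δ := lam - lam' with hδ
  have hδ0 : 0 < δ := by rw [hδ, hlam]; linarith
  obtain ⟨R, L, k, K, hR, hL, hk, hK, hdrift⟩ :=
    drift_exists ha0 ha1 hμ hν hνi hgt hb hb1 hbm hl0 hl1
  set p := (1 - a) / a with hp
  have hp0 : 0 < p := by
    have : 0 < 1 - a := by linarith
    positivity
  set c' := ((p / δ) ^ p)⁻¹ with hc'
  have hc'0 : 0 < c' := by positivity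
  have hpoly : ∀ y : ℝ, 0 < y → c' ≤ y ^ (a - 1) * Real.exp (δ * y ^ a) := by
    intro y hy
    have h1 := rpow_le_exp (p := p) (c := δ) (u := y ^ a) hp0 hδ0 (by positivity)
    have h2 : (y ^ a) ^ p = y ^ (1 - a) := by
      rw [← Real.rpow_mul hy.le]; congr 1; rw [hp]; field_simp
    rw [h2] at h1
    have h3 : y ^ (a - 1) = (y ^ (1 - a))⁻¹ := by
      rw [← Real.rpow_neg hy.le]; congr 1; ring
    have h4 : 0 < y ^ (1 - a) := by positivity
    have h5 : 0 < (p / δ) ^ p := by positivity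
    rw [h3, hc', inv_mul_eq_div, le_div_iff₀ h4, inv_mul_eq_div, div_le_iff₀ h5]
    linarith
  refine ⟨K / (k * c'), L, by positivity, hL.le, ?_⟩
  intro π hπ x hx
  have hprob : IsProbabilityMeasure π := hπ.1
  have hx0 : 0 < x := hL.trans_le hx
  set H : ℝ × ℝ → ℝ≥0∞ := fun w => ENNReal.ofReal (Real.exp (lam * cost a b R w)) with hH
  set g : ℝ × ℝ → ℝ≥0∞ := fun w => if L ≤ w.2 then
    ENNReal.ofReal (k * w.2 ^ (a - 1) * Real.exp (lam * cost a b R w)) else 0 with hg
  have hcm := measurable_cost a b R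
  have hHm : Measurable H := by
    rw [hH]; fun_prop
  have hgm : Measurable g := by
    rw [hg]
    apply Measurable.ite (measurableSet_le measurable_const measurable_snd)
    · fun_prop
    · exact measurable_const
  have hmain := hπ.lyapunov hHm hgm (fun w => ENNReal.ofReal_ne_top) (ENNReal.ofReal K)
    (fun w h1 h2 => hdrift w h1 h2)
  set B := min ((1 + 1 / b) ^ a) 2 with hB
  set v := k * c' * Real.exp (lam' * B * x ^ a) with hv
  have hv0 : 0 < v := by positivity
  have hgv : ∀ᵐ w ∂π, w ∈ {w : ℝ × ℝ | x < w.1} → ENNReal.ofReal v ≤ g w := by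
    filter_upwards [hπ.ae_ordered] with w hw hwx
    have hwx' : x < w.1 := hwx
    have hw2x : x ≤ w.2 := hwx'.le.trans hw.2
    have hw2 : 0 < w.2 := hx0.trans_le hw2x
    rw [hg]
    simp only
    rw [if_pos (hx.trans hw2x)]
    apply ENNReal.ofReal_le_ofReal
    rw [hv]
    have hA : x + x / b ≤ bigA b R w := by
      unfold bigA
      have h1 : w.1 ≤ √(w.1 ^ 2 + R ^ 2) := by
        apply Real.le_sqrt_of_sq_le; nlinarith [sq_nonneg R]
      have h2 : x / b ≤ √(w.1 ^ 2 + R ^ 2) / b := by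
        gcongr
        linarith
      linarith
    have hA2 : w.2 ≤ bigA b R w := by
      unfold bigA
      have : 0 ≤ √(w.1 ^ 2 + R ^ 2) / b := by positivity
      linarith
    have hxb : 0 < x + x / b := by positivity
    have hcost1 : B * x ^ a ≤ cost a b R w := by
      unfold cost
      apply le_min
      · calc B * x ^ a ≤ (1 + 1 / b) ^ a * x ^ a := by
              gcongr; exact min_le_left _ _
          _ = (x + x / b) ^ a := by
              rw [← Real.mul_rpow (by positivity) hx0.le]; congr 1; ring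
          _ ≤ bigA b R w ^ a := by gcongr
      · have h3 : x ^ a ≤ w.1 ^ a := by gcongr
        have h4 : x ^ a ≤ w.2 ^ a := by gcongr
        have h5 : B * x ^ a ≤ 2 * x ^ a := by gcongr; exact min_le_right _ _
        linarith
    have hcost2 : w.2 ^ a ≤ cost a b R w := by
      unfold cost
      apply le_min
      · gcongr
      · have : 0 ≤ w.1 ^ a := by
          have := hw.1
          positivity
        linarith
    have h6 : lam' * B * x ^ a + δ * w.2 ^ a ≤ lam * cost a b R w := by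
      have e : lam = lam' + δ := by rw [hδ]; ring
      rw [e, add_mul]
      have : lam' * B * x ^ a ≤ lam' * cost a b R w := by
        rw [mul_assoc]; gcongr
      have : δ * w.2 ^ a ≤ δ * cost a b R w := by gcongr
      linarith
    have h7 := hpoly w.2 hw2
    calc k * c' * Real.exp (lam' * B * x ^ a)
        ≤ k * (w.2 ^ (a - 1) * Real.exp (δ * w.2 ^ a)) * Real.exp (lam' * B * x ^ a) := by
          gcongr
      _ = k * w.2 ^ (a - 1) * Real.exp (lam' * B * x ^ a + δ * w.2 ^ a) := by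
          rw [Real.exp_add]; ring
      _ ≤ _ := by gcongr
  have hS : MeasurableSet {w : ℝ × ℝ | x < w.1} := measurableSet_lt measurable_const measurable_fst
  have h8 : ENNReal.ofReal v * π {w : ℝ × ℝ | x < w.1} ≤ ENNReal.ofReal K := by
    calc ENNReal.ofReal v * π {w : ℝ × ℝ | x < w.1}
        = ∫⁻ w in {w : ℝ × ℝ | x < w.1}, ENNReal.ofReal v ∂π := by
          rw [setLIntegral_const]
      _ ≤ ∫⁻ w in {w : ℝ × ℝ | x < w.1}, g w ∂π := by
          apply setLIntegral_mono_ae hgm.aemeasurable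
          filter_upwards [hgv] with w hw hwS
          exact hw hwS
      _ ≤ ∫⁻ w, g w ∂π := setLIntegral_le_lintegral _ _
      _ ≤ ENNReal.ofReal K := hmain
  have h9 : v * π.real {w : ℝ × ℝ | x < w.1} ≤ K := by
    have h10 : (ENNReal.ofReal v * π {w : ℝ × ℝ | x < w.1}).toReal ≤ (ENNReal.ofReal K).toReal :=
      ENNReal.toReal_mono ENNReal.ofReal_ne_top h8
    rw [ENNReal.toReal_mul, ENNReal.toReal_ofReal hv0.le, ENNReal.toReal_ofReal hK] at h10
    exact h10
  have h11 : π.real {w : ℝ × ℝ | x < w.1} ≤ K / v := by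
    rw [le_div_iff₀ hv0]; linarith
  refine h11.trans (le_of_eq ?_)
  rw [hv, Real.exp_neg]
  have := Real.exp_pos (lam' * B * x ^ a)
  field_simp

end Pool.Agent.Lib.MP_04add8_pr
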