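import Mathlib
import Pool.Agent.Lib.MP_04add8_pr.Tail
import Pool.Agent.Lib.MP_04add8_pr.Lower2
import Pool.Agent.Lib.MP_04add8_pr.Clt
import Pool.Agent.Lib.MP_04add8_pr.Mean
import Pool.Agent.Lib.MP_04add8_pr.Integ

open MeasureTheory ProbabilityTheory Filter Topology
open scoped ENNReal

set_option linter.unusedSectionVars false

namespace Pool.Agent.Lib.MP_04add8_pr

variable {a : ℝ} {μ ν : Measure ℝ} [IsProbabilityMeasure μ] [IsProbabilityMeasure ν]

/-- **Upper bound** with every exponent below the critical one. -/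
lemma upper_all (ha0 : 0 < a) (ha1 : a < 1)
    (hμ : ∀ x, 0 ≤ x → μ (Set.Ioi x) = ENNReal.ofReal (Real.exp (-(x ^ a))))
    (hν : ν (Set.Iio 0) = 0) (hνi : Integrable (fun t : ℝ => t) ν)
    (hm : 0 < ∫ t, t ∂ν)
    (hgt : (∫ t, t ∂ν) < ∫ s, s ∂μ) (hlt : (∫ s, s ∂μ) < 2 * ∫ t, t ∂ν)
    {θ : ℝ} (hθ : 0 < θ)
    (hθ1 : θ < min 2 (((∫ s, s ∂μ) / ((∫ s, s ∂μ) - ∫ t, t ∂ν)) ^ a)) :
    ∃ C x₀ : ℝ, 0 ≤ C ∧ 0 ≤ x₀ ∧ ∀ π : Measure (ℝ × ℝ), IsStationaryKW μ ν π →
      ∀ x, x₀ ≤ x → π.real {w | x < w.1} ≤ C * Real.exp (-(θ * x ^ a)) := by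
  set E := ∫ s, s ∂μ with hE
  set m := ∫ t, t ∂ν with hmdef
  have hE0 : 0 < E := hm.trans hgt
  have hθ2 : θ < 2 := hθ1.trans_le (min_le_left _ _)
  have hθη : θ < (E / (E - m)) ^ a := hθ1.trans_le (min_le_right _ _)
  set r := (E - m) / m with hr
  have hd : 0 < E - m := by linarith
  have hr0 : 0 < r := by positivity
  have hr1 : r < 1 := by rw [hr, div_lt_one hm]; linarith
  have hr2 : 1 + 1 / r = E / (E - m) := by
    rw [hr]; field_simp; ring
  have hcont : ContinuousAt (fun b : ℝ => (1 + 1 / b) ^ a) r := by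
    apply ContinuousAt.rpow_const
    · fun_prop (disch := exact hr0.ne')
    · right; exact ha0.le
  have hev : ∀ᶠ b in 𝓝[>] r, θ < (1 + 1 / b) ^ a := by
    apply Filter.Eventually.filter_mono nhdsWithin_le_nhds
    apply hcont.eventually
    apply lt_mem_nhds
    change θ < (1 + 1 / r) ^ a
    rw [hr2]
    exact hθη
  have hev2 : ∀ᶠ b in 𝓝[>] r, b < 1 := by
    apply Filter.Eventually.filter_mono nhdsWithin_le_nhds
    exact gt_mem_nhds hr1
  obtain ⟨b, hbθ, hb1, hbr⟩ := (hev.and (hev2.and self_mem_nhdsWithin)).exists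
  have hbr' : r < b := hbr
  have hb0 : 0 < b := hr0.trans hbr'
  have hbm : E < (1 + b) * m := by
    have : E - m < b * m := by
      rwa [hr, div_lt_iff₀ hm] at hbr'
    linarith
  set B := min ((1 + 1 / b) ^ a) 2 with hB
  have hBθ : θ < B := lt_min hbθ hθ2
  have hB0 : 0 < B := hθ.trans hBθ
  obtain ⟨C, x₀, hC, hx₀, h⟩ := tail_upper ha0 ha1 hμ hν hνi hgt hb0 hb1 hbm
    (lam' := θ / B) (by positivity) (by rwa [div_lt_one hB0])
  refine ⟨C, x₀, hC, hx₀, ?_⟩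
  intro π hπ x hx
  have := h π hπ x hx
  rwa [← hB, div_mul_cancel₀ _ hB0.ne'] at this

lemma one_sub_pow_bound {p : ℝ} (hp0 : 0 ≤ p) (hp1 : p ≤ 1) (K : ℕ) (hK : p * K ≤ 1) :
    p * K / 2 ≤ 1 - (1 - p) ^ K := by
  have h1 : 1 + (K : ℝ) * p ≤ (1 + p) ^ K := one_add_mul_le_pow (by linarith) K
  have h2 : 0 ≤ (1 - p) ^ K := pow_nonneg (by linarith) K
  have h3 : (1 - p) ^ K * (1 + p) ^ K ≤ 1 := by
    rw [← mul_pow]
    apply pow_le_one₀
    · nlinarith
    · nlinarith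
  have h4 : (1 - p) ^ K * (1 + K * p) ≤ 1 := le_trans (by gcongr) h3
  have h5 : 0 ≤ p * K := by positivity
  nlinarith

/-- **Lower bound from two big jobs.** -/
lemma lower_two_all (ha0 : 0 < a) (ha1 : a < 1)
    (hμ : ∀ x, 0 ≤ x → μ (Set.Ioi x) = ENNReal.ofReal (Real.exp (-(x ^ a))))
    (hν : ν (Set.Iio 0) = 0) (hνi : Integrable (fun t : ℝ => t) ν)
    (hm : 0 < ∫ t, t ∂ν) :
    ∃ c x₀ : ℝ, 0 < c ∧ 1 ≤ x₀ ∧ ∀ π : Measure (ℝ × ℝ), IsStationaryKW μ ν π →
      ∀ x, x₀ ≤ x →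
        c * (x ^ (1 - a) * Real.exp (-(x ^ a))) ^ 2 ≤ π.real {w | x < w.1} := by
  set m := ∫ t, t ∂ν with hmdef
  have hpos := weibull_ae_pos ha0 hμ
  have hμ0 : ∀ᵐ s ∂μ, 0 ≤ s := hpos.mono fun s hs => hs.le
  have hν0 : ∀ᵐ t ∂ν, 0 ≤ t := ae_nonneg_of_Iio hν
  have hlim := tendsto_rpow_mul_exp ha0 ha1
  have hev : ∀ᶠ x in atTop, x ^ (1 - a) * Real.exp (-(x ^ a)) < 1 / 2 :=
    hlim.eventually_lt_const (by norm_num)
  obtain ⟨x1, hx1⟩ := eventually_atTop.mp hev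
  refine ⟨(1 / 16) * (Real.exp (-(8 * a * m))) ^ 2, max 1 x1, by positivity, le_max_left _ _, ?_⟩
  intro π hπ x hx
  have hx1' : 1 ≤ x := (le_max_left _ _).trans hx
  have hx0 : 0 < x := by linarith
  have hsmall := hx1 x ((le_max_right _ _).trans hx)
  set u := x ^ (1 - a) with hu
  have hu1 : 1 ≤ u := Real.one_le_rpow hx1' (by linarith)
  set K := ⌊u⌋₊ + 1 with hKdef
  have hK0 : 0 < K := Nat.succ_pos _
  have hKl : u ≤ K := by
    rw [hKdef]; push_cast; exact (Nat.lt_floor_add_one u).le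
  have hKu : (K : ℝ) ≤ 2 * u := by
    rw [hKdef]; push_cast
    have := Nat.floor_le (show 0 ≤ u by linarith)
    linarith
  have h1 := hπ.lower_two hμ0 hν0 hνi hm x hK0
  rw [← hmdef] at h1
  have hpos4 : 0 ≤ (K : ℝ) * (4 * m) := by positivity
  have hp : μ.real (Set.Ioi (x + K * (4 * m))) = Real.exp (-((x + K * (4 * m)) ^ a)) :=
    weibull_real hμ (by linarith)
  rw [hp] at h1
  set p := Real.exp (-((x + K * (4 * m)) ^ a)) with hpdef
  have hp0 : 0 < p := Real.exp_pos _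
  have hple : p ≤ Real.exp (-(x ^ a)) := by
    rw [hpdef]
    apply Real.exp_le_exp.mpr
    have : x ^ a ≤ (x + K * (4 * m)) ^ a := by gcongr; linarith
    linarith
  have hp1 : p ≤ 1 := hple.trans (Real.exp_le_one_iff.mpr (by
    have : 0 ≤ x ^ a := by positivity
    linarith))
  have hpK : p * K ≤ 1 := by
    calc p * K ≤ Real.exp (-(x ^ a)) * (2 * u) := by gcongr
      _ = 2 * (u * Real.exp (-(x ^ a))) := by ring
      _ ≤ 1 := by linarith
  have hplow : Real.exp (-(8 * a * m)) * Real.exp (-(x ^ a)) ≤ p := by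
    rw [hpdef, ← Real.exp_add]
    apply Real.exp_le_exp.mpr
    have h2 := rpow_add_le_tangent ha0 ha1 hx0 (y := K * (4 * m)) (by linarith)
    have h3 : a * x ^ (a - 1) * (K * (4 * m)) ≤ 8 * a * m := by
      have h4 : x ^ (a - 1) * u = 1 := by
        rw [hu, ← Real.rpow_add hx0]
        have : a - 1 + (1 - a) = 0 := by ring
        rw [this, Real.rpow_zero]
      calc a * x ^ (a - 1) * (K * (4 * m)) ≤ a * x ^ (a - 1) * ((2 * u) * (4 * m)) := by
            gcongr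
        _ = 8 * a * m * (x ^ (a - 1) * u) := by ring
        _ = 8 * a * m := by rw [h4, mul_one]
    linarith
  have h5 := one_sub_pow_bound hp0.le hp1 K hpK
  have h6 : (Real.exp (-(8 * a * m)) * (u * Real.exp (-(x ^ a)))) / 2 ≤ 1 - (1 - p) ^ K := by
    refine le_trans ?_ h5
    have : Real.exp (-(8 * a * m)) * (u * Real.exp (-(x ^ a))) ≤ p * K := by
      calc Real.exp (-(8 * a * m)) * (u * Real.exp (-(x ^ a)))
          = (Real.exp (-(8 * a * m)) * Real.exp (-(x ^ a))) * u := by ring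
        _ ≤ p * K := by gcongr
    linarith
  calc (1 / 16) * (Real.exp (-(8 * a * m))) ^ 2 * (u * Real.exp (-(x ^ a))) ^ 2
      = (1 / 4) * ((Real.exp (-(8 * a * m)) * (u * Real.exp (-(x ^ a)))) / 2) ^ 2 := by ring
    _ ≤ (1 / 4) * (1 - (1 - p) ^ K) ^ 2 := by
        gcongr
    _ ≤ _ := h1

lemma weibull_memLp (ha0 : 0 < a)
    (hμ : ∀ x, 0 ≤ x → μ (Set.Ioi x) = ENNReal.ofReal (Real.exp (-(x ^ a)))) :
    MemLp (fun x : ℝ => x) 2 μ := by
  rw [memLp_two_iff_integrable_sq (by fun_prop)]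
  exact weibull_integrable_pow ha0 hμ 2 (by norm_num)

lemma weibull_var_ne_zero (ha0 : 0 < a)
    (hμ : ∀ x, 0 ≤ x → μ (Set.Ioi x) = ENNReal.ofReal (Real.exp (-(x ^ a)))) :
    Var[fun x : ℝ => x; μ] ≠ 0 := by
  intro h
  have h1 := ae_eq_integral_of_variance_eq_zero (weibull_memLp ha0 hμ) h
  set E := ∫ x, x ∂μ with hE
  have hE0 : 0 ≤ E := by
    apply integral_nonneg_of_ae
    filter_upwards [weibull_ae_pos ha0 hμ] with s hs using hs.le
  have h2 : μ (Set.Ioi E) = 0 := by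
    have h3 : ∀ᵐ x ∂μ, x ∉ Set.Ioi E := by
      filter_upwards [h1] with x hx
      simp only [Set.mem_Ioi, not_lt]
      exact hx.le
    exact measure_eq_zero_iff_ae_notMem.mpr h3
  rw [hμ E hE0] at h2
  simp only [ENNReal.ofReal_eq_zero] at h2
  exact absurd h2 (not_le.mpr (Real.exp_pos _))

/-- **Lower bound from one big job and a moderately large load.** -/
lemma lower_one_all (ha0 : 0 < a) (ha1 : a < 1)
    (hμ : ∀ x, 0 ≤ x → μ (Set.Ioi x) = ENNReal.ofReal (Real.exp (-(x ^ a))))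
    (hν : ν (Set.Iio 0) = 0) (hνi : Integrable (fun t : ℝ => t) ν)
    (hm : 0 < ∫ t, t ∂ν) (hgt : (∫ t, t ∂ν) < ∫ s, s ∂μ) :
    ∃ c κ x₀ : ℝ, 0 < c ∧ 0 < κ ∧ 1 ≤ x₀ ∧ ∀ π : Measure (ℝ × ℝ), IsStationaryKW μ ν π →
      ∀ x, x₀ ≤ x →
        c / x * Real.exp (-((((∫ s, s ∂μ) / ((∫ s, s ∂μ) - ∫ t, t ∂ν)) * x) ^ a) +
          κ * x ^ (a - 1 / 2)) ≤ π.real {w | x < w.1} := by
  set E := ∫ s, s ∂μ with hE
  set m := ∫ t, t ∂ν with hmdef
  set d := E - m with hd
  have hd0 : 0 < d := by rw [hd]; linarith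
  have hE0 : 0 < E := hm.trans hgt
  set η := E / d with hη
  have hη0 : 0 < η := by positivity
  have hη1 : η = 1 + m / d := by
    rw [hη, hd]
    have : E - m ≠ 0 := by linarith
    field_simp
    ring
  have hpos := weibull_ae_pos ha0 hμ
  have hμ0 : ∀ᵐ s ∂μ, 0 ≤ s := hpos.mono fun s hs => hs.le
  have hν0 : ∀ᵐ t ∂ν, 0 ≤ t := ae_nonneg_of_Iio hν
  obtain ⟨c0, hc0, N0, hclt⟩ := clt_lower (weibull_memLp ha0 hμ) (weibull_var_ne_zero ha0 hμ)
    (√(2 * d))
  obtain ⟨c1, hc1, hmean⟩ := psum_le_mean_lower hν0 hνi hm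
  set C3 := 3 * m + 1 with hC3
  set κ := a * η ^ (a - 1) * (m / d) with hκ
  set κ2 := a * η ^ (a - 1) * C3 with hκ2
  have hκ0 : 0 < κ := by positivity
  refine ⟨(1 / 2) * Real.exp (-κ2) * c0 * c1 / (1 / d + 1), κ, max 4 (2 * d * N0), by positivity,
    hκ0, le_trans (by norm_num) (le_max_left _ _), ?_⟩
  intro π hπ x hx
  have hx4 : 4 ≤ x := (le_max_left _ _).trans hx
  have hxN : 2 * d * N0 ≤ x := (le_max_right _ _).trans hx
  have hx0 : 0 < x := by linarith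
  have hsq : √x * √x = x := Real.mul_self_sqrt hx0.le
  have hsq2 : 2 ≤ √x := Real.le_sqrt_of_sq_le (by linarith)
  have hsqx : √x ≤ x / 2 := by nlinarith
  set n := ⌊(x - √x) / d⌋₊ + 1 with hn
  have hv0 : 0 ≤ (x - √x) / d := by
    apply div_nonneg _ hd0.le
    linarith
  have hnl : (x - √x) / d ≤ n := by
    rw [hn]; push_cast; exact (Nat.lt_floor_add_one _).le
  have hnu : (n : ℝ) ≤ (x - √x) / d + 1 := by
    rw [hn]; push_cast
    have := Nat.floor_le hv0
    linarith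
  have hn0 : 0 < n := Nat.succ_pos _
  have hn0' : (0 : ℝ) < n := by exact_mod_cast hn0
  have hnx : x / (2 * d) ≤ n := by
    refine le_trans ?_ hnl
    rw [div_le_div_iff₀ (by positivity) hd0]
    nlinarith
  have hnN : N0 ≤ n := by
    have : (N0 : ℝ) ≤ n := by
      refine le_trans ?_ hnx
      rw [le_div_iff₀ (by positivity)]
      linarith
    exact_mod_cast this
  have hkey : x ≤ n * d + √(2 * d) * √n := by
    have h1 : √(2 * d) * √(x / (2 * d)) = √x := by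
      rw [← Real.sqrt_mul (by positivity)]
      congr 1
      field_simp
    have h2 : √(x / (2 * d)) ≤ √n := Real.sqrt_le_sqrt hnx
    have h3 : √x ≤ √(2 * d) * √n := by
      rw [← h1]; gcongr
    have h4 : x - √x ≤ n * d := by
      rwa [div_le_iff₀ hd0] at hnl
    linarith
  have hP1 : c0 ≤ (iidLaw μ).real {s | x + n * m < psum s n} := by
    refine (hclt n hnN).trans ?_
    refine measureReal_mono ?_ (measure_ne_top _ _)
    intro s hs
    have hs' : n * E + √(2 * d) * √n < psum s n := hs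
    change x + n * m < psum s n
    have : n * E = n * d + n * m := by rw [hd]; ring
    linarith
  have hP2 := hmean n hn0
  have h1 := hπ.lower_one hμ0 hν0 hνi hm x n
  rw [← hmdef] at h1
  have hbig : μ.real (Set.Ioi (x + n * m + 1 + 2 * m)) =
      Real.exp (-((x + n * m + 1 + 2 * m) ^ a)) := weibull_real hμ (by positivity)
  rw [hbig] at h1
  have hexp : Real.exp (-κ2) * Real.exp (-((η * x) ^ a) + κ * x ^ (a - 1 / 2)) ≤
      Real.exp (-((x + n * m + 1 + 2 * m) ^ a)) := by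
    rw [← Real.exp_add]
    apply Real.exp_le_exp.mpr
    set y := -((m / d) * √x) + C3 with hy
    have h2 : x + n * m + 1 + 2 * m ≤ η * x + y := by
      have h3 : n * m ≤ ((x - √x) / d + 1) * m := by gcongr
      have h4 : ((x - √x) / d + 1) * m = (m / d) * x - (m / d) * √x + m := by
        field_simp
      rw [hη1, hy, hC3]
      nlinarith
    have hηx : 0 < η * x := by positivity
    have h5 : 0 ≤ x + n * m + 1 + 2 * m := by positivity
    have h6 := rpow_add_le_tangent ha0 ha1 hηx (y := y) (by linarith)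
    have h7 : (x + n * m + 1 + 2 * m) ^ a ≤ (η * x + y) ^ a := by gcongr
    have h8 : (η * x) ^ (a - 1) = η ^ (a - 1) * x ^ (a - 1) := Real.mul_rpow hη0.le hx0.le
    have h9 : x ^ (a - 1) * √x = x ^ (a - 1 / 2) := by
      rw [Real.sqrt_eq_rpow, ← Real.rpow_add hx0]
      congr 1; ring
    have h10 : x ^ (a - 1) ≤ 1 := Real.rpow_le_one_of_one_le_of_nonpos (by linarith) (by linarith)
    have h11 : a * (η * x) ^ (a - 1) * y = -(κ * x ^ (a - 1 / 2)) + κ2 * x ^ (a - 1) := by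
      rw [h8, hy, ← h9, hκ, hκ2]; ring
    have h12 : κ2 * x ^ (a - 1) ≤ κ2 := by
      have : 0 ≤ κ2 := by positivity
      nlinarith
    linarith
  have hnx2 : (n : ℝ) ≤ (1 / d + 1) * x := by
    have h2 : (x - √x) / d ≤ x / d := by gcongr; linarith
    have h3 : x / d = 1 / d * x := by ring
    nlinarith
  calc (1 / 2) * Real.exp (-κ2) * c0 * c1 / (1 / d + 1) / x *
        Real.exp (-((η * x) ^ a) + κ * x ^ (a - 1 / 2))
      = (1 / 2) * (Real.exp (-κ2) * Real.exp (-((η * x) ^ a) + κ * x ^ (a - 1 / 2))) *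
          (c0 * (c1 / ((1 / d + 1) * x))) := by
        field_simp
    _ ≤ (1 / 2) * Real.exp (-((x + n * m + 1 + 2 * m) ^ a)) * (c0 * (c1 / n)) := by
        gcongr
    _ ≤ (1 / 2) * Real.exp (-((x + n * m + 1 + 2 * m) ^ a)) *
      ((iidLaw μ).real {s | x + n * m < psum s n} *
        (iidLaw ν).real {t | psum t n ≤ n * m}) := by
        gcongr
    _ ≤ _ := h1

end Pool.Agent.Lib.MP_04add8_pr
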