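import Mathlib
import Pool.Agent.Lib.MP_04add8_pr.Basic

open MeasureTheory ProbabilityTheory Filter Topology
open scoped ENNReal

set_option linter.unusedSectionVars false

namespace Pool.Agent.Lib.MP_04add8_pr

section cons

variable {α : Type*} [MeasurableSpace α]

/-- prepend a value to a sequence -/
def gcons (x : α) (s : ℕ → α) : ℕ → α
  | 0 => x
  | k + 1 => s k

lemma measurable_gcons : Measurable (fun p : α × (ℕ → α) => gcons p.1 p.2) := by
  rw [measurable_pi_iff]
  intro k
  cases k with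
  | zero => exact measurable_fst
  | succ k => exact (measurable_pi_apply k).comp measurable_snd

lemma infinitePi_gcons (μ : Measure α) [IsProbabilityMeasure μ] :
    ((μ.prod (Measure.infinitePi (fun _ : ℕ => μ))).map
      (fun p : α × (ℕ → α) => gcons p.1 p.2)) = Measure.infinitePi (fun _ : ℕ => μ) := by
  classical
  apply Measure.eq_infinitePi
  intro S t ht
  obtain ⟨N, hN⟩ : ∃ N : ℕ, S ⊆ Finset.range (N + 1) :=
    ⟨S.sup id, fun i hi => Finset.mem_range_succ_iff.mpr (Finset.le_sup (f := id) hi)⟩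
  set t' : ℕ → Set α := fun i => if i ∈ S then t i else Set.univ with ht'
  have ht'm : ∀ i, MeasurableSet (t' i) := by
    intro i
    simp only [ht']
    split_ifs
    · exact ht i
    · exact MeasurableSet.univ
  have hpi : (Set.pi (S : Set ℕ) t) = Set.pi ((Finset.range (N + 1) : Finset ℕ) : Set ℕ) t' := by
    ext x
    simp only [Set.mem_pi, Finset.mem_coe, ht']
    constructor
    · intro h i _
      split_ifs with hi
      · exact h i hi
      · trivial
    · intro h i hi
      have := h i (hN hi)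
      rwa [if_pos hi] at this
  have hprod : ∏ i ∈ S, μ (t i) = ∏ i ∈ Finset.range (N + 1), μ (t' i) := by
    rw [← Finset.prod_subset hN]
    · apply Finset.prod_congr rfl
      intro i hi
      simp [ht', hi]
    · intro i _ hi
      simp [ht', hi]
  rw [hpi, hprod, Measure.map_apply measurable_gcons
    (MeasurableSet.pi (Finset.countable_toSet _) fun i _ => ht'm i)]
  have hpre : (fun p : α × (ℕ → α) => gcons p.1 p.2) ⁻¹'
      (Set.pi ((Finset.range (N + 1) : Finset ℕ) : Set ℕ) t') =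
      (t' 0) ×ˢ (Set.pi ((Finset.range N : Finset ℕ) : Set ℕ) fun k => t' (k + 1)) := by
    ext ⟨x, s⟩
    simp only [Set.mem_preimage, Set.mem_pi, Finset.mem_coe, Finset.mem_range, Set.mem_prod]
    constructor
    · intro h
      refine ⟨h 0 (Nat.succ_pos N), fun k hk => h (k + 1) (by omega)⟩
    · rintro ⟨h0, h1⟩ i hi
      cases i with
      | zero => exact h0
      | succ k => exact h1 k (by omega)
  rw [hpre, Measure.prod_prod, Measure.infinitePi_pi _ (fun i _ => ht'm (i + 1)),
    Finset.prod_range_succ', mul_comm]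

end cons

lemma kwStep_mono {w w' : ℝ × ℝ} (h : w ≤ w') (s t : ℝ) : kwStep w s t ≤ kwStep w' s t := by
  have h1 : w.1 ≤ w'.1 := h.1
  have h2 : w.2 ≤ w'.2 := h.2
  have h3 : max (w.1 + s - t) 0 ≤ max (w'.1 + s - t) 0 := max_le_max (by linarith) le_rfl
  have h4 : max (w.2 - t) 0 ≤ max (w'.2 - t) 0 := max_le_max (by linarith) le_rfl
  exact ⟨min_le_min h3 h4, max_le_max h3 h4⟩

/-- Loynes' backward scheme started from an empty system. -/
noncomputable def loynes : ℕ → (ℕ → ℝ × ℝ) → ℝ × ℝ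
  | 0, _ => (0, 0)
  | n + 1, z => kwStep (loynes n fun k => z (k + 1)) (z 0).1 (z 0).2

lemma loynes_gcons (n : ℕ) (p : ℝ × ℝ) (z : ℕ → ℝ × ℝ) :
    loynes (n + 1) (gcons p z) = kwStep (loynes n z) p.1 p.2 := rfl

lemma loynes_ordered (n : ℕ) (z : ℕ → ℝ × ℝ) :
    0 ≤ (loynes n z).1 ∧ (loynes n z).1 ≤ (loynes n z).2 := by
  cases n with
  | zero => exact ⟨le_rfl, le_rfl⟩
  | succ n => exact ⟨kwStep_fst_nonneg _ _ _, kwStep_fst_le_snd _ _ _⟩

lemma loynes_le_succ (n : ℕ) : ∀ z, loynes n z ≤ loynes (n + 1) z := by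
  induction n with
  | zero =>
    intro z
    have h := loynes_ordered 1 z
    exact ⟨h.1, h.1.trans h.2⟩
  | succ n ih =>
    intro z
    exact kwStep_mono (ih _) _ _

lemma loynes_mono (z : ℕ → ℝ × ℝ) : Monotone fun n => loynes n z :=
  monotone_nat_of_le_succ fun n => loynes_le_succ n z

lemma measurable_loynes (n : ℕ) : Measurable (loynes n) := by
  induction n with
  | zero => exact measurable_const
  | succ n ih =>
    have h1 : Measurable fun z : ℕ → ℝ × ℝ => (fun k => z (k + 1)) := by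
      rw [measurable_pi_iff]
      intro k
      exact measurable_pi_apply _
    have h2 : Measurable fun z : ℕ → ℝ × ℝ => (loynes n (fun k => z (k + 1)), z 0) :=
      (ih.comp h1).prodMk (measurable_pi_apply 0)
    exact measurable_kwStep.comp h2

variable {μ ν : Measure ℝ} [IsProbabilityMeasure μ] [IsProbabilityMeasure ν]

/-- the noise law -/
noncomputable def noise (μ ν : Measure ℝ) [IsProbabilityMeasure μ] [IsProbabilityMeasure ν] :
    Measure (ℕ → ℝ × ℝ) := Measure.infinitePi (fun _ : ℕ => μ.prod ν)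

instance : IsProbabilityMeasure (noise μ ν) := by unfold noise; infer_instance

lemma lintegral_loynes_succ {f : ℝ × ℝ → ℝ≥0∞} (hf : Measurable f) (n : ℕ) :
    ∫⁻ z, f (loynes (n + 1) z) ∂(noise μ ν) =
      ∫⁻ z, ∫⁻ p, f (kwStep (loynes n z) p.1 p.2) ∂(μ.prod ν) ∂(noise μ ν) := by
  have h1 : Measurable fun q : (ℝ × ℝ) × (ℕ → ℝ × ℝ) =>
      f (kwStep (loynes n q.2) q.1.1 q.1.2) := by
    have : Measurable fun q : (ℝ × ℝ) × (ℕ → ℝ × ℝ) => (loynes n q.2, q.1) :=
      ((measurable_loynes n).comp measurable_snd).prodMk measurable_fst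
    exact hf.comp (measurable_kwStep.comp this)
  conv_lhs => rw [noise, ← infinitePi_gcons (μ.prod ν)]
  have hm1 : Measurable fun z => f (loynes (n + 1) z) := hf.comp (measurable_loynes (n + 1))
  rw [lintegral_map hm1 measurable_gcons]
  simp only [loynes_gcons]
  rw [lintegral_prod _ h1.aemeasurable]
  rw [lintegral_lintegral_swap h1.aemeasurable]
  rfl

/-- Foster-Lyapunov criterion for existence of a stationary law. -/
theorem exists_stationary_of_drift {H g : ℝ × ℝ → ℝ≥0∞}
    (hH : Measurable H) (hg : Measurable g) (hfin : ∀ w, H w ≠ ∞) (K : ℝ)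
    (hK : 0 ≤ K)
    (hd : ∀ w : ℝ × ℝ, 0 ≤ w.1 → w.1 ≤ w.2 →
      ∫⁻ p, H (kwStep w p.1 p.2) ∂(μ.prod ν) + g w ≤ H w + ENNReal.ofReal K)
    (hcoer : ∀ N : ℕ, ∃ R : ℝ, ∀ w : ℝ × ℝ, 0 ≤ w.1 → w.1 ≤ w.2 → R < w.2 → (N : ℝ≥0∞) ≤ g w) :
    ∃ π : Measure (ℝ × ℝ), IsStationaryKW μ ν π := by
  set Q := noise μ ν with hQ
  -- one-step inequality
  have hstep : ∀ n, ∫⁻ z, H (loynes (n + 1) z) ∂Q + ∫⁻ z, g (loynes n z) ∂Q ≤
      ∫⁻ z, H (loynes n z) ∂Q + ENNReal.ofReal K := by
    intro n
    have hgm : Measurable fun z => g (loynes n z) := hg.comp (measurable_loynes n)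
    rw [hQ, lintegral_loynes_succ hH n, ← hQ, ← lintegral_add_right _ hgm]
    calc ∫⁻ z, (∫⁻ p, H (kwStep (loynes n z) p.1 p.2) ∂(μ.prod ν) + g (loynes n z)) ∂Q
        ≤ ∫⁻ z, (H (loynes n z) + ENNReal.ofReal K) ∂Q :=
          lintegral_mono fun z => hd _ (loynes_ordered n z).1 (loynes_ordered n z).2
      _ = _ := by
          rw [lintegral_add_right _ measurable_const]
          simp
  have hsum : ∀ n : ℕ, ∫⁻ z, H (loynes n z) ∂Q +
      ∑ k ∈ Finset.range n, ∫⁻ z, g (loynes k z) ∂Q ≤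
      H (0, 0) + n * ENNReal.ofReal K := by
    intro n
    induction n with
    | zero => simp [loynes]
    | succ n ih =>
      rw [Finset.sum_range_succ]
      calc ∫⁻ z, H (loynes (n + 1) z) ∂Q +
            (∑ k ∈ Finset.range n, ∫⁻ z, g (loynes k z) ∂Q + ∫⁻ z, g (loynes n z) ∂Q)
          = (∫⁻ z, H (loynes (n + 1) z) ∂Q + ∫⁻ z, g (loynes n z) ∂Q) +
            ∑ k ∈ Finset.range n, ∫⁻ z, g (loynes k z) ∂Q := by ring
        _ ≤ (∫⁻ z, H (loynes n z) ∂Q + ENNReal.ofReal K) +
            ∑ k ∈ Finset.range n, ∫⁻ z, g (loynes k z) ∂Q := add_le_add (hstep n) le_rfl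
        _ = (∫⁻ z, H (loynes n z) ∂Q + ∑ k ∈ Finset.range n, ∫⁻ z, g (loynes k z) ∂Q) +
            ENNReal.ofReal K := by ring
        _ ≤ (H (0, 0) + n * ENNReal.ofReal K) + ENNReal.ofReal K := by gcongr
        _ = _ := by push_cast; ring
  -- tail bound
  have htail : ∀ N : ℕ, ∃ R : ℝ, ∀ j, (N : ℝ) * Q.real {z | R < (loynes j z).2} ≤ K := by
    intro N
    obtain ⟨R, hR⟩ := hcoer N
    refine ⟨R, fun j => ?_⟩
    have hmeasS : ∀ k, MeasurableSet {z | R < (loynes k z).2} := fun k =>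
      measurableSet_lt measurable_const (measurable_snd.comp (measurable_loynes k))
    set q := Q {z | R < (loynes j z).2} with hq
    have h1 : ∀ k, j ≤ k → (N : ℝ≥0∞) * q ≤ ∫⁻ z, g (loynes k z) ∂Q := by
      intro k hk
      calc (N : ℝ≥0∞) * q ≤ (N : ℝ≥0∞) * Q {z | R < (loynes k z).2} := by
            refine mul_le_mul_right (measure_mono ?_) _
            intro z hz
            exact lt_of_lt_of_le hz (loynes_mono z hk).2
        _ = ∫⁻ z in {z | R < (loynes k z).2}, (N : ℝ≥0∞) ∂Q := by rw [setLIntegral_const]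
        _ ≤ ∫⁻ z in {z | R < (loynes k z).2}, g (loynes k z) ∂Q := by
            apply setLIntegral_mono' (hmeasS k)
            intro z hz
            exact hR _ (loynes_ordered k z).1 (loynes_ordered k z).2 hz
        _ ≤ _ := setLIntegral_le_lintegral _ _
    have h2 : ∀ n : ℕ, (n : ℝ≥0∞) * ((N : ℝ≥0∞) * q) ≤
        H (0, 0) + ((j + n : ℕ) : ℝ≥0∞) * ENNReal.ofReal K := by
      intro n
      refine le_trans ?_ (hsum (j + n))
      refine le_trans ?_ le_add_self
      rw [Finset.sum_range_add]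
      refine le_trans ?_ le_add_self
      calc (n : ℝ≥0∞) * ((N : ℝ≥0∞) * q) = ∑ k ∈ Finset.range n, (N : ℝ≥0∞) * q := by simp
        _ ≤ _ := Finset.sum_le_sum fun k _ => h1 (j + k) (Nat.le_add_right _ _)
    have h3 : ∀ n : ℕ, (n : ℝ) * ((N : ℝ) * q.toReal) ≤ (H (0, 0)).toReal + (j + n) * K := by
      intro n
      have h4 := ENNReal.toReal_mono (by
        apply ENNReal.add_ne_top.mpr ⟨hfin _, ?_⟩
        exact ENNReal.mul_ne_top (ENNReal.natCast_ne_top _) ENNReal.ofReal_ne_top) (h2 n)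
      rw [ENNReal.toReal_add (hfin _) (ENNReal.mul_ne_top (ENNReal.natCast_ne_top _)
        ENNReal.ofReal_ne_top)] at h4
      simp only [ENNReal.toReal_mul, ENNReal.toReal_natCast, ENNReal.toReal_ofReal hK] at h4
      push_cast at h4
      exact h4
    change (N : ℝ) * q.toReal ≤ K
    by_contra hcon
    push Not at hcon
    obtain ⟨n, hn⟩ := exists_nat_gt (((H (0, 0)).toReal + j * K) / ((N : ℝ) * q.toReal - K))
    have h5 : 0 < (N : ℝ) * q.toReal - K := by linarith
    rw [div_lt_iff₀ h5] at hn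
    have := h3 n
    nlinarith
  -- almost sure boundedness
  have hbdd : ∀ᵐ z ∂Q, ∃ R : ℝ, ∀ j, (loynes j z).2 ≤ R := by
    have hS : ∀ N : ℕ, 0 < N → Q.real {z | ∀ R : ℝ, ∃ j, R < (loynes j z).2} ≤ K / N := by
      intro N hN
      obtain ⟨R, hR⟩ := htail N
      have hN' : (0 : ℝ) < N := by exact_mod_cast hN
      have hsub : {z | ∀ R : ℝ, ∃ j, R < (loynes j z).2} ⊆ ⋃ j, {z | R < (loynes j z).2} := by
        intro z hz
        exact Set.mem_iUnion.mpr (hz R)
      have hmono : Monotone fun j => {z | R < (loynes j z).2} := by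
        intro i j hij z hz
        exact lt_of_lt_of_le hz (loynes_mono z hij).2
      have hlim := tendsto_measure_iUnion_atTop (μ := Q) hmono
      have hle : Q (⋃ j, {z | R < (loynes j z).2}) ≤ ENNReal.ofReal (K / N) := by
        apply le_of_tendsto' hlim
        intro j
        change Q {z | R < (loynes j z).2} ≤ _
        rw [← ENNReal.ofReal_toReal (measure_ne_top Q _)]
        apply ENNReal.ofReal_le_ofReal
        rw [le_div_iff₀ hN']
        have := hR j
        rw [measureReal_def] at this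
        linarith
      rw [measureReal_def]
      apply ENNReal.toReal_le_of_le_ofReal (by positivity)
      exact (measure_mono hsub).trans hle
    have hzero : Q.real {z | ∀ R : ℝ, ∃ j, R < (loynes j z).2} ≤ 0 := by
      have hlim : Tendsto (fun N : ℕ => K / (N : ℝ)) atTop (𝓝 0) :=
        tendsto_const_div_atTop_nhds_zero_nat K
      apply ge_of_tendsto hlim
      filter_upwards [eventually_gt_atTop 0] with N hN using hS N hN
    have hzero' : Q {z | ∀ R : ℝ, ∃ j, R < (loynes j z).2} = 0 := by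
      have h0 : Q.real {z | ∀ R : ℝ, ∃ j, R < (loynes j z).2} = 0 :=
        le_antisymm hzero measureReal_nonneg
      rwa [measureReal_eq_zero_iff] at h0
    rw [ae_iff]
    refine measure_mono_null ?_ hzero'
    intro z hz
    simpa using hz
  -- the limit
  set Vinf : (ℕ → ℝ × ℝ) → ℝ × ℝ := fun z => (⨆ j, (loynes j z).1, ⨆ j, (loynes j z).2) with hVinf
  have hVm : Measurable Vinf :=
    (Measurable.iSup fun j => measurable_fst.comp (measurable_loynes j)).prodMk
      (Measurable.iSup fun j => measurable_snd.comp (measurable_loynes j))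
  have hlim : ∀ᵐ z ∂Q, Tendsto (fun j => loynes j z) atTop (𝓝 (Vinf z)) := by
    filter_upwards [hbdd] with z hz
    obtain ⟨R, hR⟩ := hz
    have h1 : Tendsto (fun j => (loynes j z).1) atTop (𝓝 (⨆ j, (loynes j z).1)) :=
      tendsto_atTop_ciSup (fun i j hij => (loynes_mono z hij).1)
        ⟨R, by rintro _ ⟨j, rfl⟩; exact (loynes_ordered j z).2.trans (hR j)⟩
    have h2 : Tendsto (fun j => (loynes j z).2) atTop (𝓝 (⨆ j, (loynes j z).2)) :=
      tendsto_atTop_ciSup (fun i j hij => (loynes_mono z hij).2)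
        ⟨R, by rintro _ ⟨j, rfl⟩; exact hR j⟩
    exact h1.prodMk_nhds h2
  have hcons : Measure.map (fun p : (ℝ × ℝ) × (ℕ → ℝ × ℝ) => gcons p.1 p.2)
      ((μ.prod ν).prod Q) = Q := infinitePi_gcons (μ.prod ν)
  have hfix : ∀ᵐ q ∂((μ.prod ν).prod Q),
      Vinf (gcons q.1 q.2) = kwStep (Vinf q.2) q.1.1 q.1.2 := by
    have hA : ∀ᵐ q ∂((μ.prod ν).prod Q),
        Tendsto (fun j => loynes j (gcons q.1 q.2)) atTop (𝓝 (Vinf (gcons q.1 q.2))) := by
      rw [← hcons] at hlim
      exact ae_of_ae_map measurable_gcons.aemeasurable hlim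
    have hB : ∀ᵐ q ∂((μ.prod ν).prod Q),
        Tendsto (fun j => loynes j q.2) atTop (𝓝 (Vinf q.2)) := by
      have h1 : Measure.map Prod.snd ((μ.prod ν).prod Q) = Q := by
        rw [Measure.map_snd_prod]; simp
      have hlim' := hlim
      rw [← h1] at hlim'
      exact ae_of_ae_map measurable_snd.aemeasurable hlim'
    filter_upwards [hA, hB] with q h1 h2
    have h3 : Tendsto (fun j => loynes (j + 1) (gcons q.1 q.2)) atTop
        (𝓝 (Vinf (gcons q.1 q.2))) := h1.comp (tendsto_add_atTop_nat 1)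
    have hc : Continuous fun w : ℝ × ℝ => kwStep w q.1.1 q.1.2 := by
      unfold kwStep; fun_prop
    have h4 : Tendsto (fun j => kwStep (loynes j q.2) q.1.1 q.1.2) atTop
        (𝓝 (kwStep (Vinf q.2) q.1.1 q.1.2)) := (hc.tendsto _).comp h2
    exact tendsto_nhds_unique h3 h4
  refine ⟨Q.map Vinf, Measure.isProbabilityMeasure_map hVm.aemeasurable, ?_⟩
  have h1 : (Q.map Vinf).prod (μ.prod ν) =
      Measure.map (fun q : (ℝ × ℝ) × (ℕ → ℝ × ℝ) => (Vinf q.2, q.1)) ((μ.prod ν).prod Q) := by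
    have h2 : (Q.map Vinf).prod ((μ.prod ν).map id) =
        (Q.prod (μ.prod ν)).map (Prod.map Vinf id) :=
      Measure.map_prod_map Q (μ.prod ν) hVm measurable_id
    rw [Measure.map_id] at h2
    rw [h2, ← Measure.prod_swap, Measure.map_map (hVm.prodMap measurable_id) measurable_swap]
    rfl
  have hm2 : Measurable fun q : (ℝ × ℝ) × (ℕ → ℝ × ℝ) => (Vinf q.2, q.1) :=
    (hVm.comp measurable_snd).prodMk measurable_fst
  rw [h1, Measure.map_map measurable_kwStep hm2]
  calc Measure.map ((fun p : (ℝ × ℝ) × ℝ × ℝ => kwStep p.1 p.2.1 p.2.2) ∘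
        fun q : (ℝ × ℝ) × (ℕ → ℝ × ℝ) => (Vinf q.2, q.1)) ((μ.prod ν).prod Q)
      = Measure.map (Vinf ∘ fun p : (ℝ × ℝ) × (ℕ → ℝ × ℝ) => gcons p.1 p.2)
        ((μ.prod ν).prod Q) := by
        apply Measure.map_congr
        filter_upwards [hfix] with q hq
        exact hq.symm
    _ = Measure.map Vinf Q := by
        rw [← Measure.map_map hVm measurable_gcons, hcons]

end Pool.Agent.Lib.MP_04add8_pr
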