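import Mathlib
import Pool.Agent.Lib.MP_04add8_pr.Bounds

open MeasureTheory ProbabilityTheory Filter Topology
open scoped ENNReal

set_option linter.unusedSectionVars false

namespace Pool.Agent.Lib.MP_04add8_pr

lemma tendsto_exp_beats {p k q : ℝ} (hp : 0 ≤ p) (hk : 0 < k) (hq : 0 < q) :
    Tendsto (fun x : ℝ => x ^ (-p) * Real.exp (k * x ^ q)) atTop atTop := by
  set P := (p + 1) / q with hP
  have hP0 : 0 < P := by positivity
  set D := (P / k) ^ P with hD
  have hD0 : 0 < D := by positivity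
  have h1 : Tendsto (fun x : ℝ => x / D) atTop atTop := tendsto_id.atTop_div_const hD0
  refine tendsto_atTop_mono' _ ?_ h1
  filter_upwards [eventually_gt_atTop 0] with x hx
  have h2 := rpow_le_exp (p := P) (c := k) (u := x ^ q) hP0 hk (by positivity)
  rw [← Real.rpow_mul hx.le, hP, mul_div_cancel₀ _ hq.ne', ← hP, ← hD] at h2
  rw [div_le_iff₀ hD0]
  calc x = x ^ (-p) * x ^ (p + 1) := by
        rw [← Real.rpow_add hx]
        have : -p + (p + 1) = 1 := by ring
        rw [this, Real.rpow_one]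
    _ ≤ x ^ (-p) * (D * Real.exp (k * x ^ q)) := by gcongr
    _ = _ := by ring

variable {a : ℝ} {μ ν : Measure ℝ} [IsProbabilityMeasure μ] [IsProbabilityMeasure ν]

lemma ratio_zero (ha0 : 0 < a) (ha1 : a < 1)
    (hμ : ∀ x, 0 ≤ x → μ (Set.Ioi x) = ENNReal.ofReal (Real.exp (-(x ^ a))))
    (hν : ν (Set.Iio 0) = 0) (hνi : Integrable (fun t : ℝ => t) ν)
    (hm : 0 < ∫ t, t ∂ν)
    (hgt : (∫ t, t ∂ν) < ∫ s, s ∂μ) (hlt : (∫ s, s ∂μ) < 2 * ∫ t, t ∂ν)
    {π : Measure (ℝ × ℝ)} (hπ : IsStationaryKW μ ν π) {η : ℝ} (hη : 0 < η)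
    (hη1 : η ^ a < min 2 (((∫ s, s ∂μ) / ((∫ s, s ∂μ) - ∫ t, t ∂ν)) ^ a)) :
    Tendsto (fun x => π.real {w | x < w.1} / integratedTail μ (η * x)) atTop (𝓝 0) := by
  obtain ⟨θ, hθ1, hθ2⟩ := exists_between hη1
  have hθ0 : 0 < θ := lt_trans (by positivity) hθ1
  obtain ⟨C, x₀, hC, hx₀, hup⟩ := upper_all ha0 ha1 hμ hν hνi hm hgt hlt hθ0 hθ2
  obtain ⟨y0, hy01, hI⟩ := integratedTail_bounds ha0 ha1 hμ
  have hk : 0 < θ - η ^ a := by linarith
  have hlim : Tendsto (fun x : ℝ => C * Real.exp 1 * Real.exp (-((θ - η ^ a) * x ^ a)))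
      atTop (𝓝 0) := by
    have h1 : Tendsto (fun x : ℝ => (θ - η ^ a) * x ^ a) atTop atTop :=
      (tendsto_rpow_atTop ha0).const_mul_atTop hk
    have h2 := (Real.tendsto_exp_neg_atTop_nhds_zero.comp h1).const_mul (C * Real.exp 1)
    simpa using h2
  refine squeeze_zero' ?_ ?_ hlim
  · filter_upwards [eventually_ge_atTop (y0 / η)] with x hx
    have hx' : y0 ≤ η * x := by rw [div_le_iff₀ hη] at hx; linarith
    have h2 := (hI _ hx').2
    have h3 : 0 < integratedTail μ (η * x) := lt_of_lt_of_le (by positivity) h2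
    exact div_nonneg measureReal_nonneg h3.le
  · filter_upwards [eventually_ge_atTop (y0 / η), eventually_ge_atTop x₀,
      eventually_gt_atTop 0] with x hx hx2 hx0
    have hx' : y0 ≤ η * x := by rw [div_le_iff₀ hη] at hx; linarith
    have h2 := (hI _ hx').2
    have h3 : 0 < integratedTail μ (η * x) := lt_of_lt_of_le (by positivity) h2
    rw [div_le_iff₀ h3]
    have h4 : (η * x) ^ a = η ^ a * x ^ a := Real.mul_rpow hη.le hx0.le
    rw [h4] at h2
    calc π.real {w | x < w.1} ≤ C * Real.exp (-(θ * x ^ a)) := hup π hπ x hx2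
      _ = C * Real.exp 1 * Real.exp (-((θ - η ^ a) * x ^ a)) *
          (Real.exp (-1) * Real.exp (-(η ^ a * x ^ a))) := by
        have : Real.exp (-(θ * x ^ a)) = Real.exp 1 * Real.exp (-((θ - η ^ a) * x ^ a)) *
          (Real.exp (-1) * Real.exp (-(η ^ a * x ^ a))) := by
          rw [← Real.exp_add, ← Real.exp_add, ← Real.exp_add]
          congr 1; ring
        rw [this]; ring
      _ ≤ _ := by gcongr

lemma ratio_top_two (ha0 : 0 < a) (ha1 : a < 1)
    (hμ : ∀ x, 0 ≤ x → μ (Set.Ioi x) = ENNReal.ofReal (Real.exp (-(x ^ a))))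
    (hν : ν (Set.Iio 0) = 0) (hνi : Integrable (fun t : ℝ => t) ν)
    (hm : 0 < ∫ t, t ∂ν)
    {π : Measure (ℝ × ℝ)} (hπ : IsStationaryKW μ ν π) {η : ℝ} (hη : 0 < η)
    (hη1 : 2 ≤ η ^ a) :
    Tendsto (fun x => π.real {w | x < w.1} / integratedTail μ (η * x)) atTop atTop := by
  obtain ⟨c, x₀, hc, hx₀, hlow⟩ := lower_two_all ha0 ha1 hμ hν hνi hm
  obtain ⟨y0, hy01, hI⟩ := integratedTail_bounds ha0 ha1 hμ
  have h1a : 0 < 1 - a := by linarith
  set c' := c / ((2 / a) * η ^ (1 - a)) with hc'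
  have hc'0 : 0 < c' := by positivity
  have hlim : Tendsto (fun x : ℝ => c' * x ^ (1 - a)) atTop atTop :=
    (tendsto_rpow_atTop h1a).const_mul_atTop hc'0
  refine tendsto_atTop_mono' _ ?_ hlim
  filter_upwards [eventually_ge_atTop (y0 / η), eventually_ge_atTop x₀,
      eventually_gt_atTop 0] with x hx hx2 hx0
  have hx' : y0 ≤ η * x := by rw [div_le_iff₀ hη] at hx; linarith
  obtain ⟨h1, h2⟩ := hI _ hx'
  have h3 : 0 < integratedTail μ (η * x) := lt_of_lt_of_le (by positivity) h2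
  rw [le_div_iff₀ h3]
  have h4 : (η * x) ^ a = η ^ a * x ^ a := Real.mul_rpow hη.le hx0.le
  have h5 : (η * x) ^ (1 - a) = η ^ (1 - a) * x ^ (1 - a) := Real.mul_rpow hη.le hx0.le
  rw [h4, h5] at h1
  have h6 : Real.exp (-(η ^ a * x ^ a)) ≤ Real.exp (-(x ^ a)) ^ 2 := by
    rw [← Real.exp_nat_mul]
    apply Real.exp_le_exp.mpr
    have : 0 ≤ x ^ a := by positivity
    push_cast
    nlinarith
  calc c' * x ^ (1 - a) * integratedTail μ (η * x)
      ≤ c' * x ^ (1 - a) * ((2 / a) * (η ^ (1 - a) * x ^ (1 - a)) * Real.exp (-(x ^ a)) ^ 2) := by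
        gcongr
        refine h1.trans ?_
        gcongr
    _ = c * (x ^ (1 - a) * Real.exp (-(x ^ a))) ^ 2 := by
        rw [hc']; field_simp
    _ ≤ _ := hlow π hπ x hx2

lemma ratio_top_one (ha0 : 0 < a) (ha1 : a < 1)
    (hμ : ∀ x, 0 ≤ x → μ (Set.Ioi x) = ENNReal.ofReal (Real.exp (-(x ^ a))))
    (hν : ν (Set.Iio 0) = 0) (hνi : Integrable (fun t : ℝ => t) ν)
    (hm : 0 < ∫ t, t ∂ν) (hgt : (∫ t, t ∂ν) < ∫ s, s ∂μ)
    {π : Measure (ℝ × ℝ)} (hπ : IsStationaryKW μ ν π) {η : ℝ}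
    (hη1 : (∫ s, s ∂μ) / ((∫ s, s ∂μ) - ∫ t, t ∂ν) ≤ η)
    (hcase : 1 / 2 < a ∨ (∫ s, s ∂μ) / ((∫ s, s ∂μ) - ∫ t, t ∂ν) < η) :
    Tendsto (fun x => π.real {w | x < w.1} / integratedTail μ (η * x)) atTop atTop := by
  obtain ⟨c, κ, x₀, hc, hκ, hx₀, hlow⟩ := lower_one_all ha0 ha1 hμ hν hνi hm hgt
  obtain ⟨y0, hy01, hI⟩ := integratedTail_bounds ha0 ha1 hμ
  set η0 := (∫ s, s ∂μ) / ((∫ s, s ∂μ) - ∫ t, t ∂ν) with hη0def
  have hη00 : 0 < η0 := by
    have h1 : 0 < (∫ s, s ∂μ) := hm.trans hgt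
    have h2 : 0 < (∫ s, s ∂μ) - ∫ t, t ∂ν := by linarith
    positivity
  have hη : 0 < η := hη00.trans_le hη1
  have h1a : 0 < 1 - a := by linarith
  set c' := c / ((2 / a) * η ^ (1 - a)) with hc'
  have hc'0 : 0 < c' := by positivity
  -- the driving exponential
  obtain ⟨k, q, hk, hq, hkq⟩ : ∃ k q : ℝ, 0 < k ∧ 0 < q ∧ ∀ x : ℝ, 0 < x →
      k * x ^ q ≤ κ * x ^ (a - 1 / 2) + (η ^ a - η0 ^ a) * x ^ a := by
    have hmono : η0 ^ a ≤ η ^ a := by gcongr
    rcases hcase with h | h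
    · refine ⟨κ, a - 1 / 2, hκ, by linarith, ?_⟩
      intro x hx
      have : 0 ≤ (η ^ a - η0 ^ a) * x ^ a := by
        apply mul_nonneg
        · linarith
        · positivity
      linarith
    · refine ⟨η ^ a - η0 ^ a, a, ?_, ha0, ?_⟩
      · have : η0 ^ a < η ^ a := by gcongr
        linarith
      · intro x hx
        have : 0 ≤ κ * x ^ (a - 1 / 2) := by positivity
        linarith
  have hlim : Tendsto (fun x : ℝ => c' * (x ^ (-(2 - a)) * Real.exp (k * x ^ q))) atTop atTop :=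
    (tendsto_exp_beats (by linarith) hk hq).const_mul_atTop hc'0
  refine tendsto_atTop_mono' _ ?_ hlim
  filter_upwards [eventually_ge_atTop (y0 / η), eventually_ge_atTop x₀,
      eventually_gt_atTop 0] with x hx hx2 hx0
  have hx' : y0 ≤ η * x := by rw [div_le_iff₀ hη] at hx; linarith
  obtain ⟨h1, h2⟩ := hI _ hx'
  have h3 : 0 < integratedTail μ (η * x) := lt_of_lt_of_le (by positivity) h2
  rw [le_div_iff₀ h3]
  have h4 : (η * x) ^ a = η ^ a * x ^ a := Real.mul_rpow hη.le hx0.le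
  have h4' : (η0 * x) ^ a = η0 ^ a * x ^ a := Real.mul_rpow hη00.le hx0.le
  have h5 : (η * x) ^ (1 - a) = η ^ (1 - a) * x ^ (1 - a) := Real.mul_rpow hη.le hx0.le
  rw [h4, h5] at h1
  have h6 := hlow π hπ x hx2
  rw [h4'] at h6
  have h7 := hkq x hx0
  have e1 : x ^ (-(2 - a)) * x ^ (1 - a) = x⁻¹ := by
    rw [← Real.rpow_add hx0]
    have : -(2 - a) + (1 - a) = -1 := by ring
    rw [this, Real.rpow_neg_one]
  calc c' * (x ^ (-(2 - a)) * Real.exp (k * x ^ q)) * integratedTail μ (η * x)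
      ≤ c' * (x ^ (-(2 - a)) * Real.exp (k * x ^ q)) *
        ((2 / a) * (η ^ (1 - a) * x ^ (1 - a)) * Real.exp (-(η ^ a * x ^ a))) := by
        gcongr
    _ = c * (x ^ (-(2 - a)) * x ^ (1 - a)) * Real.exp (k * x ^ q + -(η ^ a * x ^ a)) := by
        rw [hc', Real.exp_add]; field_simp
    _ = c / x * Real.exp (k * x ^ q + -(η ^ a * x ^ a)) := by rw [e1]; ring
    _ ≤ c / x * Real.exp (-(η0 ^ a * x ^ a) + κ * x ^ (a - 1 / 2)) := by
        have h8 : Real.exp (k * x ^ q + -(η ^ a * x ^ a)) ≤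
            Real.exp (-(η0 ^ a * x ^ a) + κ * x ^ (a - 1 / 2)) := by
          apply Real.exp_le_exp.mpr
          rw [sub_mul] at h7
          linarith
        exact mul_le_mul_of_nonneg_left h8 (by positivity)
    _ ≤ _ := h6

/-- **Logarithmic asymptotics** of the stationary waiting time. -/
lemma log_asymp (ha0 : 0 < a) (ha1 : a < 1)
    (hμ : ∀ x, 0 ≤ x → μ (Set.Ioi x) = ENNReal.ofReal (Real.exp (-(x ^ a))))
    (hν : ν (Set.Iio 0) = 0) (hνi : Integrable (fun t : ℝ => t) ν)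
    (hm : 0 < ∫ t, t ∂ν)
    (hgt : (∫ t, t ∂ν) < ∫ s, s ∂μ) (hlt : (∫ s, s ∂μ) < 2 * ∫ t, t ∂ν)
    {π : Measure (ℝ × ℝ)} (hπ : IsStationaryKW μ ν π) :
    Tendsto (fun x => -Real.log (π.real {w | x < w.1}) / x ^ a) atTop
      (𝓝 (min 2 (((∫ s, s ∂μ) / ((∫ s, s ∂μ) - ∫ t, t ∂ν)) ^ a))) := by
  obtain ⟨c2, x2, hc2, hx2, hlow2⟩ := lower_two_all ha0 ha1 hμ hν hνi hm
  obtain ⟨c1, κ, x1, hc1, hκ, hx1, hlow1⟩ := lower_one_all ha0 ha1 hμ hν hνi hm hgt
  set η0 := (∫ s, s ∂μ) / ((∫ s, s ∂μ) - ∫ t, t ∂ν) with hη0def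
  have hη00 : 0 < η0 := by
    have h1 : 0 < (∫ s, s ∂μ) := hm.trans hgt
    have h2 : 0 < (∫ s, s ∂μ) - ∫ t, t ∂ν := by linarith
    positivity
  set B := min 2 (η0 ^ a) with hB
  have hB0 : 0 < B := lt_min two_pos (by positivity)
  have hxa : Tendsto (fun x : ℝ => x ^ a) atTop atTop := tendsto_rpow_atTop ha0
  have hPpos : ∀ x, x2 ≤ x → 0 < π.real {w | x < w.1} := by
    intro x hx
    refine lt_of_lt_of_le ?_ (hlow2 π hπ x hx)
    have : 0 < x := by linarith
    positivity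
  rw [tendsto_order]
  constructor
  · intro θ hθ
    -- choose θ' in between, positive
    obtain ⟨θ', hθ'1, hθ'2⟩ := exists_between (max_lt hθ hB0)
    have hθ'0 : 0 < θ' := (le_max_right _ _).trans_lt hθ'1
    have hθθ' : θ < θ' := (le_max_left _ _).trans_lt hθ'1
    obtain ⟨C, x₀, hC, hx₀, hup⟩ := upper_all ha0 ha1 hμ hν hνi hm hgt hlt hθ'0 hθ'2
    have hev : ∀ᶠ x : ℝ in atTop, Real.log (C + 1) < (θ' - θ) * x ^ a :=
      (hxa.const_mul_atTop (by linarith : 0 < θ' - θ)).eventually_gt_atTop _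
    filter_upwards [hev, eventually_ge_atTop x2, eventually_ge_atTop x₀, eventually_gt_atTop 0]
      with x h1 h2 h3 hx0
    have hP := hPpos x h2
    have hxa0 : 0 < x ^ a := by positivity
    rw [lt_div_iff₀ hxa0]
    have h4 : π.real {w | x < w.1} ≤ (C + 1) * Real.exp (-(θ' * x ^ a)) := by
      refine (hup π hπ x h3).trans ?_
      gcongr
      linarith
    have h5 := Real.log_le_log hP h4
    rw [Real.log_mul (by linarith) (Real.exp_pos _).ne', Real.log_exp] at h5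
    linarith
  · intro θ hθ
    rcases min_lt_iff.mp hθ with h | h
    · -- two big jobs
      have hev : ∀ᶠ x : ℝ in atTop, -Real.log c2 < (θ - 2) * x ^ a :=
        (hxa.const_mul_atTop (by linarith : 0 < θ - 2)).eventually_gt_atTop _
      filter_upwards [hev, eventually_ge_atTop x2, eventually_gt_atTop 0] with x h1 h2 hx0
      have hP := hPpos x h2
      have hxa0 : 0 < x ^ a := by positivity
      rw [div_lt_iff₀ hxa0]
      have hx1' : 1 ≤ x := hx2.trans h2
      have h3 : c2 * Real.exp (-(2 * x ^ a)) ≤ π.real {w | x < w.1} := by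
        refine le_trans ?_ (hlow2 π hπ x h2)
        have h4 : 1 ≤ x ^ (1 - a) := Real.one_le_rpow hx1' (by linarith)
        have h5 : Real.exp (-(2 * x ^ a)) = Real.exp (-(x ^ a)) ^ 2 := by
          rw [← Real.exp_nat_mul]; congr 1; push_cast; ring
        rw [h5]
        gcongr
        have := Real.exp_pos (-(x ^ a))
        nlinarith
      have h5 := Real.log_le_log (by positivity) h3
      rw [Real.log_mul hc2.ne' (Real.exp_pos _).ne', Real.log_exp] at h5
      linarith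
    · -- one big job
      have hlog : Tendsto (fun x : ℝ => Real.log x / x ^ a) atTop (𝓝 0) :=
        (isLittleO_log_rpow_atTop ha0).tendsto_div_nhds_zero
      have hconst : Tendsto (fun x : ℝ => -Real.log c1 / x ^ a) atTop (𝓝 0) :=
        hxa.const_div_atTop _
      have hsum := hlog.add hconst
      rw [add_zero] at hsum
      have hev := hsum.eventually_lt_const (by linarith : (0 : ℝ) < θ - η0 ^ a)
      filter_upwards [hev, eventually_ge_atTop x2, eventually_ge_atTop x1, eventually_gt_atTop 0]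
        with x h1 h2 h2' hx0
      have hP := hPpos x h2
      have hxa0 : 0 < x ^ a := by positivity
      rw [div_lt_iff₀ hxa0]
      rw [← add_div, div_lt_iff₀ hxa0] at h1
      have h3 : c1 / x * Real.exp (-(η0 ^ a * x ^ a)) ≤ π.real {w | x < w.1} := by
        refine le_trans ?_ (hlow1 π hπ x h2')
        have h4' : (η0 * x) ^ a = η0 ^ a * x ^ a := Real.mul_rpow hη00.le hx0.le
        rw [h4']
        gcongr
        have : 0 ≤ κ * x ^ (a - 1 / 2) := by positivity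
        linarith
      have h5 := Real.log_le_log (by positivity) h3
      rw [Real.log_mul (by positivity) (Real.exp_pos _).ne', Real.log_exp,
        Real.log_div hc1.ne' hx0.ne'] at h5
      linarith

end Pool.Agent.Lib.MP_04add8_pr
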