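import Mathlib
import Pool.Agent.Lib.MP_04add8_pr.Final
import Pool.Agent.Lib.MP_04add8_pr.Exist

open MeasureTheory ProbabilityTheory Filter Topology
open scoped ENNReal

set_option linter.unusedSectionVars false

namespace Pool.Agent.Lib.MP_04add8_pr

variable {a : ℝ} {μ ν : Measure ℝ} [IsProbabilityMeasure μ] [IsProbabilityMeasure ν]

/-- a stationary law exists -/
theorem exists_stationary (ha0 : 0 < a) (ha1 : a < 1)
    (hμ : ∀ x, 0 ≤ x → μ (Set.Ioi x) = ENNReal.ofReal (Real.exp (-(x ^ a))))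
    (hν : ν (Set.Iio 0) = 0) (hνi : Integrable (fun t : ℝ => t) ν)
    (hm : 0 < ∫ t, t ∂ν)
    (hgt : (∫ t, t ∂ν) < ∫ s, s ∂μ) (hlt : (∫ s, s ∂μ) < 2 * ∫ t, t ∂ν) :
    ∃ π : Measure (ℝ × ℝ), IsStationaryKW μ ν π := by
  set E := ∫ s, s ∂μ with hE
  set m := ∫ t, t ∂ν with hmdef
  obtain ⟨b, hb1, hb2⟩ := exists_between (show (E - m) / m < 1 by rw [div_lt_one hm]; linarith)
  have hb0 : 0 < b := lt_trans (div_pos (by linarith) hm) hb1
  have hbm : E < (1 + b) * m := by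
    rw [div_lt_iff₀ hm] at hb1
    linarith
  obtain ⟨R, L, k, K, hR, hL, hk, hK, hdrift⟩ :=
    drift_exists ha0 ha1 hμ hν hνi hgt hb0 hb2 hbm (lam := 1 / 2) (by norm_num) (by norm_num)
  have hcm := measurable_cost a b R
  refine exists_stationary_of_drift
    (H := fun w => ENNReal.ofReal (Real.exp (1 / 2 * cost a b R w)))
    (g := fun w => if L ≤ w.2 then
      ENNReal.ofReal (k * w.2 ^ (a - 1) * Real.exp (1 / 2 * cost a b R w)) else 0)
    (by fun_prop) ?_ (fun w => ENNReal.ofReal_ne_top) K hK hdrift ?_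
  · apply Measurable.ite (measurableSet_le measurable_const measurable_snd)
    · fun_prop
    · exact measurable_const
  · intro N
    have hlim : Tendsto (fun y : ℝ => k * (y ^ (-(1 - a)) * Real.exp (1 / 2 * y ^ a))) atTop atTop :=
      (tendsto_exp_beats (by linarith) (by norm_num) ha0).const_mul_atTop hk
    obtain ⟨R', hR'⟩ := eventually_atTop.mp (hlim.eventually_ge_atTop (N : ℝ))
    refine ⟨max R' L, ?_⟩
    intro w hw1 hw12 hw2
    have h1 : R' ≤ w.2 := (le_max_left _ _).trans hw2.le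
    have h2 : L ≤ w.2 := (le_max_right _ _).trans hw2.le
    have hw20 : 0 < w.2 := hL.trans_le h2
    rw [if_pos h2, ← ENNReal.ofReal_natCast]
    apply ENNReal.ofReal_le_ofReal
    have h3 := hR' w.2 h1
    have hcost : w.2 ^ a ≤ cost a b R w := by
      unfold cost
      apply le_min
      · have hA2 : w.2 ≤ bigA b R w := by
          unfold bigA
          have : 0 ≤ √(w.1 ^ 2 + R ^ 2) / b := by positivity
          linarith
        gcongr
      · have : 0 ≤ w.1 ^ a := by positivity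
        linarith
    calc (N : ℝ) ≤ k * (w.2 ^ (-(1 - a)) * Real.exp (1 / 2 * w.2 ^ a)) := h3
      _ = k * w.2 ^ (a - 1) * Real.exp (1 / 2 * w.2 ^ a) := by
          rw [neg_sub]; ring
      _ ≤ _ := by gcongr

/-- elementary facts about the load -/
lemma load_facts (ha0 : 0 < a)
    (hν : ν (Set.Iio 0) = 0)
    {ρ : ℝ} (hρ : ρ = (∫ s, s ∂μ) / (∫ t, t ∂ν)) (hρ1 : 1 < ρ) (hρ2 : ρ < 2) :
    0 < ∫ t, t ∂ν ∧ (∫ t, t ∂ν) < ∫ s, s ∂μ ∧ (∫ s, s ∂μ) < 2 * ∫ t, t ∂ν ∧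
      ρ / (ρ - 1) = (∫ s, s ∂μ) / ((∫ s, s ∂μ) - ∫ t, t ∂ν) := by
  have hν0 : ∀ᵐ t ∂ν, 0 ≤ t := ae_nonneg_of_Iio hν
  have hm0 : 0 ≤ ∫ t, t ∂ν := integral_nonneg_of_ae hν0
  have hm : 0 < ∫ t, t ∂ν := by
    rcases hm0.eq_or_lt with h | h
    · rw [← h, div_zero] at hρ
      linarith
    · exact h
  have h1 : (∫ t, t ∂ν) < ∫ s, s ∂μ := by
    rw [hρ, lt_div_iff₀ hm] at hρ1
    linarith
  have h2 : (∫ s, s ∂μ) < 2 * ∫ t, t ∂ν := by
    rwa [hρ, div_lt_iff₀ hm] at hρ2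
  refine ⟨hm, h1, h2, ?_⟩
  rw [hρ]
  have h3 : (∫ s, s ∂μ) - ∫ t, t ∂ν ≠ 0 := by linarith
  have h4 : (∫ s, s ∂μ) / (∫ t, t ∂ν) - 1 = ((∫ s, s ∂μ) - ∫ t, t ∂ν) / (∫ t, t ∂ν) := by
    field_simp
  rw [h4]
  field_simp

end Pool.Agent.Lib.MP_04add8_pr
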